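import Pool.Agent.Helper733.HS.ADef

set_option autoImplicit false

open Finset

namespace Pool.Agent.Helper733.HS

namespace SG

variable {e : ℕ}

variable (g : Fin (e + 1) → ℕ)

private theorem lt_M0 {e : ℕ} {M N : Fin (e + 1) →₀ ℕ} (h : toDegLex M < toDegLex N)
    (hd : N.degree = M.degree) : M 0 ≤ N 0 := by
  rw [Finsupp.DegLex.lt_iff] at h
  simp only [ofDegLex_toDegLex] at h
  rcases h with h | ⟨-, h⟩
  · omega
  · obtain ⟨i, hi1, hi2⟩ := Finsupp.Lex.lt_iff.mp h
    have hi2' : M i < N i := hi2
    by_cases h0 : i = 0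
    · subst h0; exact hi2'.le
    · have : M 0 = N 0 := hi1 0 (Fin.pos_iff_ne_zero.mpr h0)
      exact this.le

/-- the reduction step -/
private theorem alive_step {g : Fin (e + 1) → ℕ} (H : Hyp g) (k : Type) [Field k] (a : Fin (e + 1) →₀ ℕ)
    (ha : a.degree = tp g (wt g a)) (hn : ¬ St g a) :
    ∃ a' : Fin (e + 1) →₀ ℕ, wt g a' = wt g a ∧ a'.degree = a.degree ∧ toDegLex a < toDegLex a' ∧
      (MvPolynomial.monomial a (1 : k) - MvPolynomial.monomial a' 1) ∈ JJ g k := by
  classical
  -- minimal nonstandard divisor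
  have hex : ∃ d : ℕ, ∃ M : Fin (e + 1) →₀ ℕ, M ≤ a ∧ ¬ St g M ∧ M.degree = d :=
    ⟨a.degree, a, le_rfl, hn, rfl⟩
  obtain ⟨M, hMa, hMn, hMd⟩ := Nat.find_spec hex
  have hmin : ∀ M' : Fin (e + 1) →₀ ℕ, M' ≤ a → M'.degree < M.degree → St g M' := by
    intro M' h1 h2
    by_contra h3
    rw [hMd] at h2
    exact Nat.find_min hex h2 ⟨M', h1, h3, rfl⟩
  have hrm : ∀ i, M i ≠ 0 → St g (rm M i) := by
    intro i hi
    refine hmin _ (le_trans ?_ hMa) ?_
    · unfold rm; exact tsub_le_self
    · have := degree_rm hi; omega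
  have haM : a - M + M = a := tsub_add_cancel_of_le hMa
  have hwaM : wt g (a - M) + wt g M = wt g a := by rw [← wt_add, haM]
  have hdaM : (a - M).degree + M.degree = a.degree := by rw [← map_add, haM]
  have halive : ∀ M' : Fin (e + 1) →₀ ℕ, wt g M' = wt g M → M'.degree ≤ M.degree := by
    intro M' hM'
    have h1 : wt g (a - M + M') = wt g a := by rw [wt_add, hM', hwaM]
    have h2 := deg_le_tp H (a - M + M')
    rw [h1, ← ha, map_add] at h2
    omega
  have hGM : Gam g (wt g M) := Gam_wt g M
  set N := std g (wt g M) with hN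
  have hwN : wt g N = wt g M := wt_std H hGM
  have hSN : St g N := St_std H hGM
  have hMN : M ≠ N := by
    intro h
    rw [h] at hMn
    exact hMn hSN
  have hlt : toDegLex M < toDegLex N := by
    refine lt_of_le_of_ne (hSN M hwN.symm) ?_
    intro h
    exact hMN (toDegLex_inj.mp h)
  have hdN : N.degree = M.degree := by
    have h1 := halive N hwN
    have h2 := deg_le_tp H M
    have h3 : tp g (wt g M) = N.degree := rfl
    omega
  have hMalive : M.degree = tp g (wt g M) := by
    have h3 : tp g (wt g M) = N.degree := rfl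
    rw [h3, hdN]
  have hM0 : M 0 = 0 := by
    by_contra hM0
    have hN0 : N 0 ≠ 0 := by
      have := lt_M0 hlt hdN
      omega
    have h1 := wt_rm g M 0 hM0
    have h2 := wt_rm g N 0 hN0
    have h3 : wt g (rm N 0) = wt g (rm M 0) := by omega
    have h4 := hrm 0 hM0 (rm N 0) h3
    have h5 : toDegLex (rm N 0) + toDegLex (Finsupp.single 0 1) ≤
        toDegLex (rm M 0) + toDegLex (Finsupp.single 0 1) := by
      gcongr
    rw [← toDegLex_add, ← toDegLex_add, rm_add hM0, rm_add hN0] at h5
    exact absurd h5 (not_le.mpr hlt)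
  have hMR : M ∈ R1 g := by
    refine ⟨fun h => hMn h.1, ?_, ?_⟩
    · by_contra hd
      have hd' : M.degree = 0 ∨ M.degree = 1 := by omega
      rcases hd' with hd' | hd'
      · rw [Finsupp.degree_eq_zero_iff] at hd'
        rw [hd'] at hMn
        exact hMn (St_zero H)
      · have hM : M ≠ 0 := by
          intro h
          rw [h] at hd'
          simp at hd'
        obtain ⟨i, hi⟩ := Finsupp.ne_iff.mp hM
        have hi' : M i ≠ 0 := hi
        have h1 := degree_rm hi'
        have h2 : (rm M i).degree = 0 := by omega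
        rw [Finsupp.degree_eq_zero_iff] at h2
        have h3 := rm_add hi'
        rw [h2, zero_add] at h3
        have hi0 : i ≠ 0 := by
          rintro rfl
          exact hi' hM0
        rw [← h3] at hMn
        exact hMn (OS_single H hi0).1
    · intro i hi
      refine ⟨hrm i hi, ?_⟩
      unfold rm
      rw [Finsupp.tsub_apply, hM0, Nat.zero_sub]
  refine ⟨a - M + N, ?_, ?_, ?_, ?_⟩
  · rw [wt_add, hwN, hwaM]
  · rw [map_add, hdN, hdaM]
  · have h5 : toDegLex (a - M) + toDegLex M < toDegLex (a - M) + toDegLex N := by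
      gcongr
    rw [← toDegLex_add, ← toDegLex_add, haM] at h5
    exact h5
  · have h1 : gen1 g k M ∈ JJ g k := Ideal.subset_span (Or.inl ⟨M, hMR, rfl⟩)
    have h2 : gen1 g k M = MvPolynomial.monomial M 1 - MvPolynomial.monomial N 1 := by
      unfold gen1
      rw [if_pos hMalive]
    rw [h2] at h1
    have h3 := (JJ g k).mul_mem_left (MvPolynomial.monomial (a - M) 1) h1
    rw [mul_sub, MvPolynomial.monomial_mul, MvPolynomial.monomial_mul, haM, one_mul] at h3
    exact h3

/-- alive monomials are congruent to their standard monomial -/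
theorem alive_cong {g : Fin (e + 1) → ℕ} (H : Hyp g) (k : Type) [Field k] (a : Fin (e + 1) →₀ ℕ)
    (ha : a.degree = tp g (wt g a)) :
    (MvPolynomial.monomial a (1 : k) - MvPolynomial.monomial (std g (wt g a)) 1) ∈ JJ g k := by
  have hfin : ∀ a : Fin (e + 1) →₀ ℕ,
      {b : Fin (e + 1) →₀ ℕ | wt g b = wt g a ∧ toDegLex a < toDegLex b}.Finite := fun a =>
    (fib_finite H (wt g a)).subset fun b hb => hb.1
  induction h : {b : Fin (e + 1) →₀ ℕ | wt g b = wt g a ∧ toDegLex a < toDegLex b}.ncard
    using Nat.strong_induction_on generalizing a with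
  | _ n ih =>
    by_cases hs : St g a
    · rw [std_wt H hs, sub_self]
      exact (JJ g k).zero_mem
    · obtain ⟨a', hw, hd, hlt, hJ⟩ := alive_step H k a ha hs
      have h1 : {b : Fin (e + 1) →₀ ℕ | wt g b = wt g a' ∧ toDegLex a' < toDegLex b}.ncard < n := by
        rw [← h]
        apply Set.ncard_lt_ncard _ (hfin a)
        constructor
        · rintro b ⟨hb1, hb2⟩
          exact ⟨hb1.trans hw, hlt.trans hb2⟩
        · intro hsub
          have h2 : a' ∈ {b : Fin (e + 1) →₀ ℕ | wt g b = wt g a' ∧ toDegLex a' < toDegLex b} :=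
            hsub ⟨hw, hlt⟩
          exact lt_irrefl _ h2.2
      have h2 := ih _ h1 a' (by rw [hd, hw, ha]) rfl
      rw [hw] at h2
      have h3 := (JJ g k).add_mem hJ h2
      rw [sub_add_sub_cancel] at h3
      exact h3

end SG

end Pool.Agent.Helper733.HS
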