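import Pool.Agent.Helper733.HS.A2

set_option autoImplicit false

open Finset

namespace Pool.Agent.Helper733.HS

namespace SG

variable {e : ℕ}

variable (g : Fin (e + 1) → ℕ)

theorem start_mem {g : Fin (e + 1) → ℕ} (H : Hyp g) (k : Type) [Field k] (a : Fin (e + 1) →₀ ℕ)
    (ha : a ∈ OS g) (hp : 0 < pos g a) :
    MvPolynomial.monomial (x0 + std g (wt g a - g 0)) (1 : k) ∈ JJ g k := by
  induction hd : a.degree using Nat.strong_induction_on generalizing a with
  | _ d ih =>
    by_cases hR : ∀ i, a i ≠ 0 → (pos g (rm a i) = 0 ∨ inc g a < inc g (rm a i))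
    · exact Ideal.subset_span (Or.inr ⟨a, ⟨ha, hp, hR⟩, rfl⟩)
    · push Not at hR
      obtain ⟨i, hi, hpi, hinc⟩ := hR
      have hpi' : 0 < pos g (rm a i) := Nat.pos_of_ne_zero hpi
      have hN : rm a i ∈ OS g := OS_rm ha i
      have hinc2 := inc_mono H ha hi hpi'
      have hdeg := degree_rm hi
      have hIH := ih (rm a i).degree (by omega) (rm a i) hN hpi' rfl
      obtain ⟨hg1, hg2⟩ := (ps_pos_iff H (Gam_wt g (rm a i))).1 hpi'
      have hwt := wt_rm g a i hi
      have ht1 := tp_inc H hN hpi'
      have ht2 := tp_inc H ha hp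
      set c : Fin (e + 1) →₀ ℕ := std g (wt g (rm a i) - g 0) + Finsupp.single i 1 with hc
      have hwc : wt g c = wt g a - g 0 := by
        rw [hc, wt_add, wt_single, wt_std H hg2]
        omega
      have hdc : c.degree = tp g (wt g c) := by
        have h1 : c.degree = tp g (wt g (rm a i) - g 0) + 1 := by
          rw [hc, map_add, Finsupp.degree_single]
          rfl
        rw [h1, hwc]
        omega
      have hcong := alive_cong H k c hdc
      rw [hwc] at hcong
      have h1 : MvPolynomial.monomial (x0 + c) (1 : k) ∈ JJ g k := by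
        have : MvPolynomial.monomial (x0 + c) (1 : k)
            = MvPolynomial.monomial (x0 + std g (wt g (rm a i) - g 0)) 1
              * MvPolynomial.monomial (Finsupp.single i 1) 1 := by
          rw [MvPolynomial.monomial_mul, one_mul, hc, add_assoc]
        rw [this]
        exact Ideal.mul_mem_right _ _ hIH
      have h2 := Ideal.mul_mem_left _ (MvPolynomial.monomial (x0 : Fin (e + 1) →₀ ℕ) (1 : k)) hcong
      rw [mul_sub, MvPolynomial.monomial_mul, MvPolynomial.monomial_mul, one_mul] at h2
      have h3 := Ideal.sub_mem _ h1 h2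
      rwa [sub_sub_cancel] at h3

end SG

end Pool.Agent.Helper733.HS
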