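import Pool.Agent.Helper733.HS.A3

set_option autoImplicit false

open Finset

namespace Pool.Agent.Helper733.HS

namespace SG

variable {e : ℕ}

variable (g : Fin (e + 1) → ℕ)

private theorem dead_aux_single {σ : Type} [DecidableEq σ] {a : σ →₀ ℕ} (h : a.degree = 1) :
    ∃ i, a i ≠ 0 ∧ a = Finsupp.single i 1 := by
  have h0 : a ≠ 0 := by
    rintro rfl
    simp at h
  obtain ⟨i, hi⟩ := Finsupp.ne_iff.1 h0
  simp only [Finsupp.coe_zero, Pi.zero_apply] at hi
  refine ⟨i, hi, ?_⟩
  have h1 := degree_rm hi
  have h2 : (rm a i).degree = 0 := by omega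
  have h3 : rm a i = 0 := (Finsupp.degree_eq_zero_iff _).1 h2
  have h4 := rm_add hi
  rw [h3, zero_add] at h4
  exact h4.symm

private theorem dead_aux_mul {g : Fin (e + 1) → ℕ} (k : Type) [Field k] (b : Fin (e + 1) →₀ ℕ)
    (i : Fin (e + 1)) (h : MvPolynomial.monomial b (1 : k) ∈ JJ g k) :
    MvPolynomial.monomial (b + Finsupp.single i 1) (1 : k) ∈ JJ g k := by
  have h1 : MvPolynomial.monomial (b + Finsupp.single i 1) (1 : k) =
      MvPolynomial.monomial (Finsupp.single i 1) (1 : k) * MvPolynomial.monomial b (1 : k) := by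
    rw [MvPolynomial.monomial_mul, mul_one, add_comm b (Finsupp.single i 1)]
  rw [h1]
  exact Ideal.mul_mem_left _ _ h

private theorem dead_aux {g : Fin (e + 1) → ℕ} (H : Hyp g) (k : Type) [Field k] (d : ℕ) :
    ∀ (c : ℕ) (a : Fin (e + 1) →₀ ℕ), a.degree = d →
      {b : Fin (e + 1) →₀ ℕ | wt g b = wt g a ∧ toDegLex a < toDegLex b}.ncard = c →
      a.degree < tp g (wt g a) → MvPolynomial.monomial a (1 : k) ∈ JJ g k := by
  induction d using Nat.strong_induction_on with
  | _ d ihd =>
  intro c
  induction c using Nat.strong_induction_on with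
  | _ c ihc =>
  intro a had hac hdead
  by_cases h1 : ∃ i, a i ≠ 0 ∧ (rm a i).degree < tp g (wt g (rm a i))
  · obtain ⟨i, hi, hid⟩ := h1
    have h2 := degree_rm hi
    have h3 := ihd (rm a i).degree (by omega) _ (rm a i) rfl rfl hid
    have h4 := dead_aux_mul k (rm a i) i h3
    rwa [rm_add hi] at h4
  push Not at h1
  have halive : ∀ i, a i ≠ 0 → (rm a i).degree = tp g (wt g (rm a i)) := fun i hi =>
    le_antisymm (deg_le_tp H _) (h1 i hi)
  by_cases h2 : ∃ i, a i ≠ 0 ∧ ¬ St g (rm a i)
  · obtain ⟨i, hi, hns⟩ := h2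
    have hG : Gam g (wt g (rm a i)) := Gam_wt g _
    have hcong := alive_cong H k (rm a i) (halive i hi)
    set s := std g (wt g (rm a i)) with hs
    have hsw : wt g s = wt g (rm a i) := wt_std H hG
    have hsS : St g s := St_std H hG
    set a' := s + Finsupp.single i 1 with ha'
    have hwa' : wt g a' = wt g a := by
      rw [ha', wt_add, wt_single, hsw]
      exact wt_rm g a i hi
    have hda' : a'.degree = a.degree := by
      have h3 : s.degree = tp g (wt g (rm a i)) := rfl
      have h4 := halive i hi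
      have h5 := degree_rm hi
      rw [ha', map_add, Finsupp.degree_single]
      omega
    have hlt0 : toDegLex (rm a i) < toDegLex s := by
      refine lt_of_le_of_ne (hsS _ hsw.symm) ?_
      intro h3
      have h4 : rm a i = s := toDegLex.injective h3
      exact hns (h4 ▸ hsS)
    have hlt : toDegLex a < toDegLex a' := by
      have h3 : toDegLex a = toDegLex (rm a i) + toDegLex (Finsupp.single i 1) := by
        nth_rewrite 1 [← rm_add hi]
        rfl
      have h4 : toDegLex a' = toDegLex s + toDegLex (Finsupp.single i 1) := rfl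
      rw [h3, h4]
      exact add_lt_add_left hlt0 _
    have hcard : {b : Fin (e + 1) →₀ ℕ | wt g b = wt g a' ∧ toDegLex a' < toDegLex b}.ncard < c := by
      rw [← hac]
      refine Set.ncard_lt_ncard ?_ ((fib_finite H (wt g a)).subset fun b hb => hb.1)
      refine ⟨fun b hb => ⟨hb.1.trans hwa', hlt.trans hb.2⟩, fun hsub => ?_⟩
      have h3 : a' ∈ {b : Fin (e + 1) →₀ ℕ | wt g b = wt g a ∧ toDegLex a < toDegLex b} := ⟨hwa', hlt⟩
      exact lt_irrefl _ (hsub h3).2
    have h3 := ihc _ hcard a' (hda'.trans had) rfl (by rw [hwa', hda']; exact hdead)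
    have h4 : MvPolynomial.monomial a (1 : k) - MvPolynomial.monomial a' 1 ∈ JJ g k := by
      have h5 : MvPolynomial.monomial a (1 : k) - MvPolynomial.monomial a' 1 =
          MvPolynomial.monomial (Finsupp.single i 1) (1 : k) *
            (MvPolynomial.monomial (rm a i) (1 : k) - MvPolynomial.monomial s 1) := by
        rw [mul_sub, MvPolynomial.monomial_mul, MvPolynomial.monomial_mul, mul_one,
          add_comm (Finsupp.single i 1) (rm a i), rm_add hi, add_comm (Finsupp.single i 1) s]
      rw [h5]
      exact Ideal.mul_mem_left _ _ hcong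
    have h5 := Ideal.add_mem _ h4 h3
    rwa [sub_add_cancel] at h5
  push Not at h2
  by_cases h0 : a 0 = 0
  · have hOS : a ∉ OS g := by
      intro h
      have := deg_of_St H h.1
      omega
    have hd2 : 2 ≤ a.degree := by
      by_contra hlt
      have h3 : a.degree = 0 ∨ a.degree = 1 := by omega
      rcases h3 with h3 | h3
      · have h4 : a = 0 := (Finsupp.degree_eq_zero_iff _).1 h3
        exact hOS (h4 ▸ OS_zero H)
      · obtain ⟨i, hi, hai⟩ := dead_aux_single h3
        have hi0 : i ≠ 0 := by
          rintro rfl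
          exact hi h0
        exact hOS (hai ▸ OS_single H hi0)
    have hR : a ∈ R1 g := by
      refine ⟨hOS, hd2, fun i hi => ⟨h2 i hi, ?_⟩⟩
      have : rm a i 0 ≤ a 0 := by
        unfold rm
        rw [Finsupp.tsub_apply]
        exact Nat.sub_le _ _
      omega
    have hg : gen1 g k a = MvPolynomial.monomial a 1 := by
      unfold gen1
      rw [if_neg (by omega)]
    rw [← hg]
    exact Ideal.subset_span (Or.inl ⟨a, hR, rfl⟩)
  · have hs1 : St g (rm a 0) := h2 0 h0
    have hG : Gam g (wt g a) := Gam_wt g a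
    set N0 := std g (wt g a) with hN0
    have hNw : wt g N0 = wt g a := wt_std H hG
    have hNS : St g N0 := St_std H hG
    have hNd : N0.degree = tp g (wt g a) := rfl
    have hw := wt_rm g a 0 h0
    have hdr := degree_rm h0
    have hN00 : N0 0 = 0 := by
      by_contra hne
      have h3 := wt_rm g N0 0 hne
      have h4 := degree_rm hne
      have h5 : wt g (rm N0 0) = wt g (rm a 0) := by omega
      have h6 := deg_le_tp H (rm N0 0)
      rw [h5, deg_of_St H hs1] at h6
      omega
    have hOS : N0 ∈ OS g := ⟨hNS, hN00⟩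
    have hsub : wt g N0 - g 0 = wt g (rm a 0) := by omega
    have hpos : 0 < pos g N0 := by
      unfold pos
      rw [ps_pos_iff H (Gam_wt g N0), hsub]
      exact ⟨by omega, Gam_wt g _⟩
    have h3 := start_mem H k N0 hOS hpos
    rw [hsub, std_wt H hs1] at h3
    have h4 : (x0 : Fin (e + 1) →₀ ℕ) + rm a 0 = a := by
      rw [add_comm x0 (rm a 0)]
      exact rm_add h0
    rwa [h4] at h3

/-- dead monomials -/
theorem dead_mem {g : Fin (e + 1) → ℕ} (H : Hyp g) (k : Type) [Field k] (a : Fin (e + 1) →₀ ℕ)
    (ha : a.degree < tp g (wt g a)) : MvPolynomial.monomial a (1 : k) ∈ JJ g k :=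
  dead_aux H k _ _ a rfl rfl ha

end SG

end Pool.Agent.Helper733.HS
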