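import Pool.Agent.Helper733.HS.A4

set_option autoImplicit false

open Finset

namespace Pool.Agent.Helper733.HS

namespace SG

variable {e : ℕ}

variable (g : Fin (e + 1) → ℕ)

theorem JJ_eq {g : Fin (e + 1) → ℕ} (H : Hyp g) (k : Type) [Field k] :
    JJ g k = Ideal.span {p | (∃ u v : Fin (e + 1) →₀ ℕ, u.degree = v.degree ∧
        Finsupp.weight g u = Finsupp.weight g v ∧
        p = MvPolynomial.monomial u (1 : k) - MvPolynomial.monomial v 1) ∨
      (∃ u v : Fin (e + 1) →₀ ℕ, u.degree < v.degree ∧ Finsupp.weight g u = Finsupp.weight g v ∧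
        p = MvPolynomial.monomial u 1)} := by
  apply le_antisymm
  · unfold JJ
    rw [Ideal.span_le]
    rintro p (⟨a, ha, rfl⟩ | ⟨a, ha, rfl⟩)
    · unfold gen1
      split_ifs with h
      · apply Ideal.subset_span
        refine Or.inl ⟨a, std g (wt g a), h, ?_, rfl⟩
        exact (wt_std H (Gam_wt g a)).symm
      · apply Ideal.subset_span
        refine Or.inr ⟨a, std g (wt g a), lt_of_le_of_ne (deg_le_tp H a) h, ?_, rfl⟩
        exact (wt_std H (Gam_wt g a)).symm
    · unfold gen2
      obtain ⟨ha1, ha2, _⟩ := ha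
      have hps : 0 < ps g (wt g a) := ha2
      obtain ⟨h1, h2⟩ := (ps_pos_iff H (Gam_wt g a)).1 hps
      have hw : wt g (x0 + std g (wt g a - g 0)) = wt g a := by
        rw [wt_add, wt_x0, wt_std H h2]
        omega
      apply Ideal.subset_span
      refine Or.inr ⟨x0 + std g (wt g a - g 0), a, ?_, hw, rfl⟩
      apply deg_lt_of_St ha1.1 ha1.2 hw
      rw [Finsupp.add_apply]
      unfold x0
      rw [Finsupp.single_eq_same]
      omega
  · rw [Ideal.span_le]
    rintro p (⟨u, v, hd, hw, rfl⟩ | ⟨u, v, hd, hw, rfl⟩)
    · have hw' : wt g u = wt g v := hw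
      by_cases h : u.degree = tp g (wt g u)
      · have h' : v.degree = tp g (wt g v) := by rw [← hw', ← hd]; exact h
        have e1 := alive_cong H k u h
        have e2 := alive_cong H k v h'
        rw [← hw'] at e2
        have e3 := Ideal.sub_mem _ e1 e2
        have e4 : (MvPolynomial.monomial u (1 : k) - MvPolynomial.monomial (std g (wt g u)) 1) -
            (MvPolynomial.monomial v (1 : k) - MvPolynomial.monomial (std g (wt g u)) 1) =
            MvPolynomial.monomial u (1 : k) - MvPolynomial.monomial v 1 := by ring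
        rw [e4] at e3
        exact e3
      · have h1 : u.degree < tp g (wt g u) := lt_of_le_of_ne (deg_le_tp H u) h
        have h2 : v.degree < tp g (wt g v) := by rw [← hw', ← hd]; exact h1
        exact Ideal.sub_mem _ (dead_mem H k u h1) (dead_mem H k v h2)
    · have hw' : wt g u = wt g v := hw
      apply dead_mem H k u
      rw [hw']
      exact lt_of_lt_of_le hd (deg_le_tp H v)

end SG

end Pool.Agent.Helper733.HS
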