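import Pool.Agent.Helper733.HS.NumA

set_option autoImplicit false

open Finset

namespace Pool.Agent.Helper733.HS

private def hs : ℕ → ℕ
  | 0 => 0
  | n + 1 => hs n + (100000000 / (2 * n + 7) + 1)

private theorem hs_mono {a b : ℕ} (h : a ≤ b) : hs a ≤ hs b := by
  induction h with
  | refl => exact le_rfl
  | step _ ih => exact ih.trans (by simp [hs])

private theorem hs_bound (n : ℕ) :
    ∑ i ∈ range n, (1 : ℚ) / (2 * ((i : ℚ) + 3) + 1) ≤ (hs n : ℚ) / 100000000 := by
  induction n with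
  | zero => simp [hs]
  | succ n ih =>
    rw [Finset.sum_range_succ]
    have h1 : (1 : ℚ) / (2 * ((n : ℚ) + 3) + 1) ≤
        ((100000000 / (2 * n + 7) + 1 : ℕ) : ℚ) / 100000000 := by
      have hpos : 0 < 2 * n + 7 := by omega
      have h2 : 100000000 < (100000000 / (2 * n + 7) + 1) * (2 * n + 7) := by
        have h5 := Nat.div_add_mod 100000000 (2 * n + 7)
        have h6 := Nat.mod_lt 100000000 hpos
        nlinarith
      rw [div_le_div_iff₀ (by positivity) (by norm_num)]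
      have h3 : (100000000 : ℚ) ≤ ((100000000 / (2 * n + 7) + 1 : ℕ) : ℚ) * ((2 * n + 7 : ℕ) : ℚ) := by
        exact_mod_cast h2.le
      push_cast at h3 ⊢
      linarith
    have h4 : ((hs (n + 1) : ℕ) : ℚ) / 100000000 =
        (hs n : ℚ) / 100000000 + ((100000000 / (2 * n + 7) + 1 : ℕ) : ℚ) / 100000000 := by
      rw [hs]; push_cast; ring
    rw [h4]
    linarith

private theorem H_bound (d : ℕ) (N : ℕ) (hd : 3 ≤ d) (hN : d - 3 ≤ N) :
    ∑ r ∈ Ico 3 d, (1 : ℚ) / (2 * (r : ℚ) + 1) ≤ (hs N : ℚ) / 100000000 := by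
  have h1 : ∑ r ∈ Ico 3 d, (1 : ℚ) / (2 * (r : ℚ) + 1) =
      ∑ i ∈ range (d - 3), (1 : ℚ) / (2 * ((i : ℚ) + 3) + 1) := by
    rw [Finset.sum_Ico_eq_sum_range]
    refine Finset.sum_congr rfl (fun i _ => ?_)
    push_cast
    ring
  rw [h1]
  refine (hs_bound _).trans ?_
  have := hs_mono hN
  have h2 : ((hs (d - 3) : ℕ) : ℚ) ≤ (hs N : ℚ) := by exact_mod_cast this
  linarith

private theorem coarse (d k y e u v w : ℕ) (hd : 4 ≤ d) (he : 1 ≤ e) (hk : 1 ≤ k)
    (hkd : F (k - 1) 2 + 1 ≤ d) (hu : d ≤ F (u + 1) 2) (hv : d - 1 ≤ F (v + 1) 3)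
    (hw : d - 2 ≤ F (w + 1) 4) :
    Lq d k y e ≤ (d : ℚ) * u / 3 + ((e : ℚ) + d - 2) * u / 3 + ((e : ℚ) + d - 3) * v / 5
      + w * (((e : ℚ) + d - 1 / 2) * (∑ r ∈ Ico 3 d, (1 : ℚ) / (2 * (r : ℚ) + 1))
        - ((d : ℚ) - 3) / 2) := by
  have hku : k - 1 ≤ u := by
    by_contra hcon
    have h1 : u + 1 ≤ k - 1 := by omega
    have h2 := F_mono 2 h1
    omega
  have hkuq : (k : ℚ) - 1 ≤ u := by
    have : k ≤ u + 1 := by omega
    have h : (k : ℚ) ≤ (u : ℚ) + 1 := by exact_mod_cast this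
    linarith
  have hdq : (4 : ℚ) ≤ d := by exact_mod_cast hd
  have heq : (1 : ℚ) ≤ e := by exact_mod_cast he
  -- bound of each factor
  have key : ∀ r c : ℕ, r ≤ d → kk (r + 1) (d + 1 - r) ≤ c + 1 →
      ((e : ℚ) + d - 1 - r) * (((min y (kk (r + 1) (d + 1 - r)) : ℕ) : ℚ) - 1) / (2 * r + 1) ≤
      ((e : ℚ) + d - 1 - r) * c / (2 * r + 1) := by
    intro r c hr hc
    have h1 : (((min y (kk (r + 1) (d + 1 - r)) : ℕ) : ℚ) - 1) ≤ c := by
      have h2 : min y (kk (r + 1) (d + 1 - r)) ≤ c + 1 := (min_le_right _ _).trans hc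
      have h3 : ((min y (kk (r + 1) (d + 1 - r)) : ℕ) : ℚ) ≤ (c : ℚ) + 1 := by exact_mod_cast h2
      linarith
    have h4 : 0 ≤ (e : ℚ) + d - 1 - r := by
      have : (r : ℚ) ≤ d := by exact_mod_cast hr
      linarith
    have h5 : (0 : ℚ) ≤ 2 * (r : ℚ) + 1 := by positivity
    exact div_le_div_of_nonneg_right (mul_le_mul_of_nonneg_left h1 h4) h5
  have hI : Icc 1 d = Ico 1 (d + 1) := by
    ext x; simp only [Finset.mem_Icc, Finset.mem_Ico]; omega
  unfold Lq
  rw [hI, Finset.sum_Ico_succ_top (by omega), Finset.sum_eq_sum_Ico_succ_bot (by omega),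
    Finset.sum_eq_sum_Ico_succ_bot (by omega)]
  have t1 := key 1 u (by omega) ((kk_le_iff (by norm_num)).2 (by simpa using hu))
  have t2 := key 2 v (by omega) ((kk_le_iff (by norm_num)).2 (by
    have : d + 1 - 2 = d - 1 := by omega
    rw [this]; exact hv))
  have td := key d 0 le_rfl ((kk_le_iff (by omega)).2 (by
    have : d + 1 - d = 1 := by omega
    rw [this, zero_add, F_one]))
  have tm : ∑ r ∈ Ico (1 + 1 + 1) d, ((e : ℚ) + d - 1 - r) *
        (((min y (kk (r + 1) (d + 1 - r)) : ℕ) : ℚ) - 1) / (2 * r + 1) ≤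
      ∑ r ∈ Ico 3 d, ((e : ℚ) + d - 1 - r) * w / (2 * r + 1) := by
    refine Finset.sum_le_sum (fun r hr => ?_)
    rw [Finset.mem_Ico] at hr
    refine key r w (by omega) ?_
    refine (kk_anti (j := 4) (j' := r + 1) (by norm_num) (by omega) (by omega)).trans ?_
    refine (kk_mono (by norm_num) (n' := d - 2) (by omega)).trans ?_
    exact (kk_le_iff (by norm_num)).2 hw
  have ts : ∑ r ∈ Ico 3 d, ((e : ℚ) + d - 1 - r) * w / (2 * r + 1) =
      w * (((e : ℚ) + d - 1 / 2) * (∑ r ∈ Ico 3 d, (1 : ℚ) / (2 * (r : ℚ) + 1))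
        - ((d : ℚ) - 3) / 2) := by
    have h1 : ∀ r ∈ Ico 3 d, ((e : ℚ) + d - 1 - r) * w / (2 * r + 1) =
        w * (((e : ℚ) + d - 1 / 2) * ((1 : ℚ) / (2 * (r : ℚ) + 1)) - 1 / 2) := by
      intro r _
      have h5 : (2 : ℚ) * (r : ℚ) + 1 ≠ 0 := by positivity
      field_simp
      ring
    rw [Finset.sum_congr rfl h1, ← Finset.mul_sum, Finset.sum_sub_distrib, ← Finset.mul_sum,
      Finset.sum_const, Nat.card_Ico]
    congr 2
    rw [nsmul_eq_mul, Nat.cast_sub (by omega)]
    push_cast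
    ring
  rw [ts] at tm
  have tk : (d : ℚ) * ((k : ℚ) - 1) / 3 ≤ (d : ℚ) * u / 3 := by
    have : (d : ℚ) * ((k : ℚ) - 1) ≤ (d : ℚ) * u := mul_le_mul_of_nonneg_left hkuq (by linarith)
    linarith
  norm_num at t1 t2 td tm ⊢
  have e1 : ((e : ℚ) + d - 1 - 1) * u / 3 = ((e : ℚ) + d - 2) * u / 3 := by ring
  have e2 : ((e : ℚ) + d - 1 - 2) * v / 5 = ((e : ℚ) + d - 3) * v / 5 := by ring
  linarith

private theorem block (d k y e u v w N : ℕ) (D : ℕ) (Hc : ℚ) (hD : 4 ≤ D) (hdD : D ≤ d)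
    (he : 1 ≤ e) (hk : 1 ≤ k) (hN : d - 3 ≤ N)
    (hkd : F (k - 1) 2 + 1 ≤ d) (hu : d ≤ F (u + 1) 2) (hv : d - 1 ≤ F (v + 1) 3)
    (hw : d - 2 ≤ F (w + 1) 4) (hH : (hs N : ℚ) / 100000000 ≤ Hc)
    (f0 : (D : ℚ) * u / 3 + ((D : ℚ) - 1) * u / 3 + ((D : ℚ) - 2) * v / 5
      + w * (((D : ℚ) + 1 / 2) * Hc - ((D : ℚ) - 3) / 2) ≤ ((D : ℚ) ^ 2 + 5 * D) / 6)
    (f1 : 0 ≤ (2 * (D : ℚ) + 5) / 6 - 2 * u / 3 - v / 5 - w * (Hc - 1 / 2))
    (f2 : 0 ≤ (D : ℚ) / 3 - u / 3 - v / 5 - w * Hc) :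
    Lq d k y e ≤ Rq d e := by
  refine (coarse d k y e u v w (by omega) he hk hkd hu hv hw).trans ?_
  have hH2 := (H_bound d N (by omega) hN).trans hH
  have hdq : (D : ℚ) ≤ d := by exact_mod_cast hdD
  have hDq : (4 : ℚ) ≤ D := by exact_mod_cast hD
  have heq : (1 : ℚ) ≤ e := by exact_mod_cast he
  have hwq : (0 : ℚ) ≤ w := by positivity
  have h1 : w * (((e : ℚ) + d - 1 / 2) * (∑ r ∈ Ico 3 d, (1 : ℚ) / (2 * (r : ℚ) + 1))
        - ((d : ℚ) - 3) / 2) ≤ w * (((e : ℚ) + d - 1 / 2) * Hc - ((d : ℚ) - 3) / 2) := by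
    refine mul_le_mul_of_nonneg_left ?_ hwq
    have : ((e : ℚ) + d - 1 / 2) * (∑ r ∈ Ico 3 d, (1 : ℚ) / (2 * (r : ℚ) + 1)) ≤
        ((e : ℚ) + d - 1 / 2) * Hc := mul_le_mul_of_nonneg_left hH2 (by linarith)
    linarith
  unfold Rq
  obtain ⟨t, ht⟩ : ∃ t : ℚ, (d : ℚ) = D + t := ⟨d - D, by ring⟩
  obtain ⟨s, hs'⟩ : ∃ s : ℚ, (e : ℚ) = 1 + s := ⟨e - 1, by ring⟩
  have ht0 : 0 ≤ t := by linarith
  have hs0 : 0 ≤ s := by linarith
  rw [ht, hs'] at h1 ⊢
  have p1 := mul_nonneg ht0 f1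
  have p2 := mul_nonneg hs0 f2
  have p3 := mul_nonneg hs0 ht0
  have p4 := mul_nonneg ht0 ht0
  linarith [h1, f0, p1, p2, p3, p4]

theorem num_mid (d e k y : ℕ) (hd : 100 ≤ d) (hd' : d < 1600) (he : 1 ≤ e) (hk : 1 ≤ k)
    (hkd : F (k - 1) 2 + 1 ≤ d) (hy1 : 1 ≤ y) : Lq d k y e ≤ Rq d e := by
  rcases lt_or_ge d 121 with h0 | h0
  · exact block d k y e 14 7 5 117 100 (9211/5000) (by norm_num) (by omega) he hk (by omega) hkd
      (by have h : F (14 + 1) 2 = 120 := by unfold F; rw [Nat.multichoose_eq]; decide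
          rw [h]; omega)
      (by have h : F (7 + 1) 3 = 120 := by unfold F; rw [Nat.multichoose_eq]; decide
          rw [h]; omega)
      (by have h : F (5 + 1) 4 = 126 := by unfold F; rw [Nat.multichoose_eq]; decide
          rw [h]; omega)
      (by have h : ((hs 117 : ℕ) : ℚ) ≤ ((184220000 : ℕ) : ℚ) := by
            exact_mod_cast (by decide +kernel : hs 117 ≤ 184220000)
          push_cast at h
          linarith)
      (by norm_num) (by norm_num) (by norm_num)
  rcases lt_or_ge d 148 with h1 | h1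
  · exact block d k y e 16 8 6 144 121 (19437/10000) (by norm_num) (by omega) he hk (by omega) hkd
      (by have h : F (16 + 1) 2 = 153 := by unfold F; rw [Nat.multichoose_eq]; decide
          rw [h]; omega)
      (by have h : F (8 + 1) 3 = 165 := by unfold F; rw [Nat.multichoose_eq]; decide
          rw [h]; omega)
      (by have h : F (6 + 1) 4 = 210 := by unfold F; rw [Nat.multichoose_eq]; decide
          rw [h]; omega)
      (by have h : ((hs 144 : ℕ) : ℚ) ≤ ((194370000 : ℕ) : ℚ) := by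
            exact_mod_cast (by decide +kernel : hs 144 ≤ 194370000)
          push_cast at h
          linarith)
      (by norm_num) (by norm_num) (by norm_num)
  rcases lt_or_ge d 213 with h2 | h2
  · exact block d k y e 20 9 6 209 148 (5317/2500) (by norm_num) (by omega) he hk (by omega) hkd
      (by have h : F (20 + 1) 2 = 231 := by unfold F; rw [Nat.multichoose_eq]; decide
          rw [h]; omega)
      (by have h : F (9 + 1) 3 = 220 := by unfold F; rw [Nat.multichoose_eq]; decide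
          rw [h]; omega)
      (by have h : F (6 + 1) 4 = 210 := by unfold F; rw [Nat.multichoose_eq]; decide
          rw [h]; omega)
      (by have h : ((hs 209 : ℕ) : ℚ) ≤ ((212680000 : ℕ) : ℚ) := by
            exact_mod_cast (by decide +kernel : hs 209 ≤ 212680000)
          push_cast at h
          linarith)
      (by norm_num) (by norm_num) (by norm_num)
  rcases lt_or_ge d 407 with h3 | h3
  · exact block d k y e 27 12 8 403 213 (24517/10000) (by norm_num) (by omega) he hk (by omega) hkd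
      (by have h : F (27 + 1) 2 = 406 := by unfold F; rw [Nat.multichoose_eq]; decide
          rw [h]; omega)
      (by have h : F (12 + 1) 3 = 455 := by unfold F; rw [Nat.multichoose_eq]; decide
          rw [h]; omega)
      (by have h : F (8 + 1) 4 = 495 := by unfold F; rw [Nat.multichoose_eq]; decide
          rw [h]; omega)
      (by have h : ((hs 403 : ℕ) : ℚ) ≤ ((245170000 : ℕ) : ℚ) := by
            exact_mod_cast (by decide +kernel : hs 403 ≤ 245170000)
          push_cast at h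
          linarith)
      (by norm_num) (by norm_num) (by norm_num)
  rcases lt_or_ge d 1379 with h4 | h4
  · exact block d k y e 51 19 12 1375 407 (30627/10000) (by norm_num) (by omega) he hk (by omega) hkd
      (by have h : F (51 + 1) 2 = 1378 := by unfold F; rw [Nat.multichoose_eq]; decide
          rw [h]; omega)
      (by have h : F (19 + 1) 3 = 1540 := by unfold F; rw [Nat.multichoose_eq]; decide
          rw [h]; omega)
      (by have h : F (12 + 1) 4 = 1820 := by unfold F; rw [Nat.multichoose_eq]; decide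
          rw [h]; omega)
      (by have h : ((hs 1375 : ℕ) : ℚ) ≤ ((306270000 : ℕ) : ℚ) := by
            exact_mod_cast (by decide +kernel : hs 1375 ≤ 306270000)
          push_cast at h
          linarith)
      (by norm_num) (by norm_num) (by norm_num)
  exact block d k y e 56 20 12 1596 1379 (3137/1000) (by norm_num) (by omega) he hk (by omega) hkd
      (by have h : F (56 + 1) 2 = 1653 := by unfold F; rw [Nat.multichoose_eq]; decide
          rw [h]; omega)
      (by have h : F (20 + 1) 3 = 1771 := by unfold F; rw [Nat.multichoose_eq]; decide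
          rw [h]; omega)
      (by have h : F (12 + 1) 4 = 1820 := by unfold F; rw [Nat.multichoose_eq]; decide
          rw [h]; omega)
      (by have h : ((hs 1596 : ℕ) : ℚ) ≤ ((313700000 : ℕ) : ℚ) := by
            exact_mod_cast (by decide +kernel : hs 1596 ≤ 313700000)
          push_cast at h
          linarith)
      (by norm_num) (by norm_num) (by norm_num)

end Pool.Agent.Helper733.HS
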