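import Pool.Agent.Helper733.HS.NumA

set_option autoImplicit false

open Finset

namespace Pool.Agent.Helper733.HS

private theorem numl_log40 : Real.log 40 ≤ 3.716 := by
  have e : (40 : ℝ) = 2 ^ 5 * (5 / 4) := by norm_num
  rw [e, Real.log_mul (by norm_num) (by norm_num), Real.log_pow]
  have h1 := Real.log_two_lt_d9
  have h2 : Real.log (5 / 4) ≤ 5 / 4 - 1 := Real.log_le_sub_one_of_pos (by norm_num)
  push_cast
  linarith

private theorem numl_H (d : ℕ) : ∑ r ∈ Icc 1 d, (1 : ℚ) / (2 * r + 1) ≤ harmonic d / 2 := by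
  rw [harmonic_eq_sum_Icc, Finset.sum_div]
  refine Finset.sum_le_sum fun r hr => ?_
  have hr1 : 1 ≤ r := (Finset.mem_Icc.1 hr).1
  have hr2 : (1 : ℚ) ≤ r := by exact_mod_cast hr1
  rw [div_le_iff₀ (by positivity)]
  field_simp
  linarith

private theorem numl_real (d U : ℕ) (hd : 1600 ≤ d) (hU : (U + 1) * U < 2 * d) :
    (U : ℚ) * (1 / 3 + ∑ r ∈ Icc 1 d, (1 : ℚ) / (2 * r + 1)) ≤ d / 6 := by
  have hdR : (1600 : ℝ) ≤ d := by exact_mod_cast hd
  set s : ℝ := Real.sqrt d with hs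
  have hss : s * s = d := Real.mul_self_sqrt (by positivity)
  have hs40 : 40 ≤ s := by
    rw [hs]
    apply Real.le_sqrt_of_sq_le
    linarith
  have hs0 : 0 < s := by linarith
  have hUR : ((U : ℝ) + 1) * U < 2 * d := by exact_mod_cast hU
  have hU0 : (0 : ℝ) ≤ U := by positivity
  have hUs : (U : ℝ) ≤ 1.4143 * s := by
    by_contra hc
    push Not at hc
    nlinarith
  have hlogd : Real.log d = 2 * Real.log s := by
    rw [← hss, Real.log_mul hs0.ne' hs0.ne']
    ring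
  have hlogs : Real.log s ≤ 3.716 + (s - 40) / 40 := by
    have e : s = 40 * (s / 40) := by field_simp
    rw [e, Real.log_mul (by norm_num) (by positivity)]
    have h1 := numl_log40
    have h2 : Real.log (s / 40) ≤ s / 40 - 1 := Real.log_le_sub_one_of_pos (by positivity)
    have e2 : (40 * (s / 40) - 40) / 40 = s / 40 - 1 := by field_simp
    rw [e2]
    linarith
  have hH : ((∑ r ∈ Icc 1 d, (1 : ℚ) / (2 * r + 1) : ℚ) : ℝ) ≤ (1 + Real.log d) / 2 := by
    have h1 : ((∑ r ∈ Icc 1 d, (1 : ℚ) / (2 * r + 1) : ℚ) : ℝ) ≤ ((harmonic d / 2 : ℚ) : ℝ) := by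
      exact_mod_cast numl_H d
    have h2 := harmonic_le_one_add_log d
    push_cast at h1 ⊢
    push_cast at h2
    linarith
  have key : (((U : ℚ) * (1 / 3 + ∑ r ∈ Icc 1 d, (1 : ℚ) / (2 * r + 1)) : ℚ) : ℝ) ≤
      ((d / 6 : ℚ) : ℝ) := by
    rw [Rat.cast_mul, Rat.cast_add]
    set H : ℝ := ((∑ r ∈ Icc 1 d, (1 : ℚ) / (2 * r + 1) : ℚ) : ℝ) with hHdef
    push_cast
    have h3 : 1 / 3 + H ≤ 3.5494 + s / 40 := by
      rw [hlogd] at hH
      linarith
    have hH0 : 0 ≤ 3.5494 + s / 40 := by positivity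
    calc (U : ℝ) * (1 / 3 + H) ≤ U * (3.5494 + s / 40) := by gcongr
      _ ≤ 1.4143 * s * (3.5494 + s / 40) := by gcongr
      _ ≤ d / 6 := by
        rw [← hss]
        nlinarith
  exact_mod_cast key

theorem num_large (d e k y : ℕ) (hd : 1600 ≤ d) (he : 1 ≤ e) (hk : 1 ≤ k)
    (hkd : F (k - 1) 2 + 1 ≤ d) (hy1 : 1 ≤ y) : Lq d k y e ≤ Rq d e := by
  have h2 : ∀ K, 2 * F K 2 = (K + 1) * K := by
    intro K
    have := F_mul K 1
    rw [F_deg_one] at this
    exact this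
  have hkk1 : 1 ≤ kk 2 d := kk_pos (by norm_num) (by omega)
  obtain ⟨U, hU⟩ : ∃ U, kk 2 d = U + 1 := ⟨kk 2 d - 1, by omega⟩
  have hFU : F U 2 < d := by
    by_contra hc
    push Not at hc
    have := (kk_le_iff (j := 2) (n := d) (K := U) (by norm_num)).2 hc
    omega
  have hU2 : (U + 1) * U < 2 * d := by
    rw [← h2]
    omega
  have huU : k - 1 ≤ U := by
    by_contra hc
    push Not at hc
    have h3 : kk 2 d ≤ k - 1 := by omega
    have := (kk_le_iff (j := 2) (n := d) (K := k - 1) (by norm_num)).1 h3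
    omega
  have hmin : ∀ r ∈ Icc 1 d, min y (kk (r + 1) (d + 1 - r)) ≤ U + 1 := by
    intro r hr
    have hr' := Finset.mem_Icc.1 hr
    rw [← hU]
    refine (min_le_right _ _).trans ?_
    refine (kk_mono (by omega) (by omega : d + 1 - r ≤ d)).trans ?_
    exact kk_anti (by norm_num) (by omega) (by omega)
  have hkey := numl_real d U hd hU2
  set H : ℚ := ∑ r ∈ Icc 1 d, (1 : ℚ) / (2 * r + 1) with hH
  have he' : (1 : ℚ) ≤ e := by exact_mod_cast he
  have hd' : (1600 : ℚ) ≤ d := by exact_mod_cast hd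
  have hU0 : (0 : ℚ) ≤ U := by positivity
  have hk' : (k : ℚ) - 1 ≤ U := by
    have : k ≤ U + 1 := by omega
    have : (k : ℚ) ≤ U + 1 := by exact_mod_cast this
    linarith
  have hsum : ∑ r ∈ Icc 1 d, ((e : ℚ) + d - 1 - r) *
      (((min y (kk (r + 1) (d + 1 - r)) : ℕ) : ℚ) - 1) / (2 * r + 1) ≤ (e + d) * U * H := by
    rw [hH, Finset.mul_sum]
    refine Finset.sum_le_sum fun r hr => ?_
    have hr' := Finset.mem_Icc.1 hr
    have hrd : (r : ℚ) ≤ d := by exact_mod_cast hr'.2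
    have hr0 : (0 : ℚ) ≤ r := by positivity
    have hm : ((min y (kk (r + 1) (d + 1 - r)) : ℕ) : ℚ) ≤ U + 1 := by
      exact_mod_cast hmin r hr
    rw [mul_one_div]
    apply div_le_div_of_nonneg_right _ (by positivity)
    have c0 : 0 ≤ (e : ℚ) + d - 1 - r := by linarith
    calc ((e : ℚ) + d - 1 - r) * (((min y (kk (r + 1) (d + 1 - r)) : ℕ) : ℚ) - 1)
        ≤ ((e : ℚ) + d - 1 - r) * U := mul_le_mul_of_nonneg_left (by linarith) c0
      _ ≤ (e + d) * U := mul_le_mul_of_nonneg_right (by linarith) hU0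
  unfold Lq Rq
  have h5 : (d : ℚ) * ((k : ℚ) - 1) / 3 ≤ (e + d) * U * (1 / 3) := by
    have : (d : ℚ) * ((k : ℚ) - 1) ≤ (e + d) * U := by
      calc (d : ℚ) * ((k : ℚ) - 1) ≤ d * U := mul_le_mul_of_nonneg_left hk' (by positivity)
        _ ≤ (e + d) * U := mul_le_mul_of_nonneg_right (by linarith) hU0
    linarith
  have h6 : ((e : ℚ) + d) * U * (1 / 3 + H) ≤ (e + d) * (d / 6) := by
    rw [mul_assoc]
    exact mul_le_mul_of_nonneg_left hkey (by positivity)
  have h7 : ((e : ℚ) + d) * U * (1 / 3 + H) = (e + d) * U * (1 / 3) + (e + d) * U * H := by ring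
  have h8 : ((e : ℚ) + d) * (d / 6) ≤ ((d : ℚ) * (e + 1) + d * (d - 1) / 2 + d) / 3 := by
    nlinarith
  linarith

end Pool.Agent.Helper733.HS
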