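import Pool.Agent.Helper733.HS.NumB
import Pool.Agent.Helper733.HS.NumC
import Pool.Agent.Helper733.HS.NumD

set_option autoImplicit false

open Finset

namespace Pool.Agent.Helper733.HS

theorem num_main (d e k y : ℕ) (hd : 1 ≤ d) (hk : 1 ≤ k) (hke : k ≤ e)
    (hkd : F (k - 1) 2 + 1 ≤ d) (hy1 : 1 ≤ y) (hyk : y ≤ k)
    (hym : y = 1 ∨ F (y - 1) 3 + F (k - 1) 2 + 4 ≤ e + 1 + d) : Lq d k y e ≤ Rq d e := by
  rcases Nat.lt_or_ge d 100 with h | h
  · exact num_small d e k y hd h hk hke hkd hy1 hyk hym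
  rcases Nat.lt_or_ge d 1600 with h2 | h2
  · exact num_mid d e k y h h2 (hk.trans hke) hk hkd hy1
  · exact num_large d e k y h2 (hk.trans hke) hk hkd hy1

end Pool.Agent.Helper733.HS
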