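import Pool.Agent.Helper733.HS.C5
import Pool.Agent.Helper733.HS.Num

set_option autoImplicit false

open Finset

namespace Pool.Agent.Helper733.HS

namespace Core

variable {σ : Type} [DecidableEq σ] (C : Core σ)

/-- the numerical inequality -/
theorem Bd_le : C.Bd ≤ ((C.d : ℚ) * (C.T.card + 1) + C.d * (C.d - 1) / 2 + C.d) / 3 := by
  have he : 1 ≤ C.T.card := C.hT.card_pos
  have hm : (C.m : ℚ) = (C.T.card : ℚ) + 1 + C.d := by
    have := C.m_eq
    exact_mod_cast this
  rcases Nat.eq_zero_or_pos C.d with hd | hd
  · unfold Bd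
    rw [hd]
    simp
  · by_cases hk0 : kk 2 (C.h 2) = 0
    · -- degenerate case
      have hkap : ∀ t, C.kap t = 0 := by
        intro t
        unfold kap
        rw [hk0]
        simp
      unfold Bd
      rw [hk0]
      have h1 : ∑ r ∈ Icc 1 C.d, ((C.m : ℚ) - 2 - r) * ((C.kap r : ℚ) - 1) / (2 * r + 1) ≤ 0 := by
        apply Finset.sum_nonpos
        intro r hr
        rw [Finset.mem_Icc] at hr
        rw [hkap r, hm]
        have h2 : (0 : ℚ) ≤ (C.T.card : ℚ) + 1 + C.d - 2 - r := by
          have h3 : (1 : ℚ) ≤ (C.T.card : ℚ) := by exact_mod_cast he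
          have h4 : (r : ℚ) ≤ (C.d : ℚ) := by exact_mod_cast hr.2
          linarith
        have h5 : (0 : ℚ) < 2 * (r : ℚ) + 1 := by positivity
        rw [div_le_iff₀ h5]
        push_cast
        nlinarith
      have h6 : (1 : ℚ) ≤ (C.d : ℚ) := by exact_mod_cast hd
      have h7 : (0 : ℚ) ≤ (C.T.card : ℚ) := Nat.cast_nonneg _
      have h8 : (0 : ℚ) ≤ (C.d : ℚ) * (C.T.card + 1) := by positivity
      have h9 : (0 : ℚ) ≤ (C.d : ℚ) * (C.d - 1) := mul_nonneg (by linarith) (by linarith)
      push_cast
      linarith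
    · have hk : 1 ≤ kk 2 (C.h 2) := Nat.one_le_iff_ne_zero.2 hk0
      have hke : kk 2 (C.h 2) ≤ C.T.card := (kk_le_iff (by norm_num)).2 C.h_two_F
      have hF2 : F (kk 2 (C.h 2) - 1) 2 < C.h 2 := by
        by_contra hcon
        rw [not_lt] at hcon
        have := (kk_le_iff (j := 2) (by norm_num)).2 hcon
        omega
      have hkd : F (kk 2 (C.h 2) - 1) 2 + 1 ≤ C.d := hF2.trans_le C.h_two_le
      obtain ⟨y, hy⟩ : ∃ y, y = min (kk 2 (C.h 2)) (max 1 (kk 3 (C.h 3))) := ⟨_, rfl⟩
      have hy1 : 1 ≤ y := by
        rw [hy]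
        exact le_min hk (le_max_left _ _)
      have hyk : y ≤ kk 2 (C.h 2) := by
        rw [hy]
        exact min_le_left _ _
      have hy0 : y ≤ max 1 (kk 3 (C.h 3)) := by
        rw [hy]
        exact min_le_right _ _
      have hym : y = 1 ∨ F (y - 1) 3 + F (kk 2 (C.h 2) - 1) 2 + 4 ≤ C.T.card + 1 + C.d := by
        rcases Nat.eq_or_lt_of_le hy1 with h1 | h1
        · left
          exact h1.symm
        · right
          have h2 : y ≤ kk 3 (C.h 3) := by
            rcases le_total (kk 3 (C.h 3)) 1 with h3 | h3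
            · rw [max_eq_left h3] at hy0
              omega
            · rwa [max_eq_right h3] at hy0
          have hF3 : F (y - 1) 3 < C.h 3 := by
            have h4 : F (kk 3 (C.h 3) - 1) 3 < C.h 3 := by
              by_contra hcon
              rw [not_lt] at hcon
              have := (kk_le_iff (j := 3) (by norm_num)).2 hcon
              omega
            exact (F_mono 3 (by omega)).trans_lt h4
          have h5 := C.h_two_three
          have h6 := C.m_eq
          omega
      have hmain := num_main C.d C.T.card (kk 2 (C.h 2)) y hd hk hke hkd hy1 hyk hym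
      have hL : C.Bd = Lq C.d (kk 2 (C.h 2)) y C.T.card := by
        unfold Bd Lq
        congr 1
        apply Finset.sum_congr rfl
        intro r hr
        have h7 : C.kap r = min y (kk (r + 1) (C.d + 1 - r)) := by
          unfold kap
          rw [hy, min_assoc]
        rw [h7, hm]
        congr 2
        ring
      rw [hL]
      exact hmain

end Core

end Pool.Agent.Helper733.HS
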