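import Pool.Agent.Helper733.HS.C9
import Pool.Agent.Helper733.HS.C10

set_option autoImplicit false

open Finset

namespace Pool.Agent.Helper733.HS

namespace Core

variable {σ : Type} [DecidableEq σ] (C : Core σ)

private theorem count_rm_apply (a : σ →₀ ℕ) (i j : σ) : rm a i j = a j - if i = j then 1 else 0 := by
  rw [rm, Finsupp.tsub_apply, Finsupp.single_apply]

private theorem count_supp {a : σ →₀ ℕ} (hd : 2 ≤ a.degree) (h : ∀ i, a i ≠ 0 → rm a i ∈ C.O)
    (i : σ) (hi : a i ≠ 0) : i ∈ C.T := by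
  by_cases h2 : 2 ≤ a i
  · refine C.supp (rm a i) (h i hi) i ?_
    rw [count_rm_apply, if_pos rfl]
    omega
  · have : ∃ j, i ≠ j ∧ a j ≠ 0 := by
      by_contra hne
      push Not at hne
      have e : a = Finsupp.single i (a i) := by
        ext j
        by_cases hj : i = j
        · subst hj
          simp
        · rw [hne j hj, Finsupp.single_apply, if_neg hj]
      rw [e, Finsupp.degree_single] at hd
      omega
    obtain ⟨j, hj, haj⟩ := this
    refine C.supp (rm a j) (h j haj) i ?_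
    rw [count_rm_apply, if_neg (fun h => hj h.symm)]
    omega

private theorem count_mem_antidiag {a : σ →₀ ℕ} (hd : a.degree = 2) (h : ∀ i, a i ≠ 0 → i ∈ C.T) :
    a ∈ C.T.finsuppAntidiag 2 := by
  rw [Finset.mem_finsuppAntidiag']
  refine ⟨?_, ?_⟩
  · rw [← hd, Finsupp.degree_apply]
    rfl
  · intro i hi
    exact h i (Finsupp.mem_support_iff.1 hi)

private theorem count_deg2 (R1 : Finset (σ →₀ ℕ))
    (h1 : ∀ a ∈ R1, a ∉ C.O ∧ 2 ≤ a.degree ∧ ∀ i, a i ≠ 0 → rm a i ∈ C.O) :
    (R1.filter (fun a => a.degree = 2)).card + C.h 2 ≤ (C.T.card + 1).choose 2 := by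
  have hdisj : Disjoint (R1.filter (fun a => a.degree = 2))
      (C.O.filter (fun a => a.degree = 2)) := by
    rw [Finset.disjoint_left]
    intro a ha hb
    exact (h1 a (mem_filter.1 ha).1).1 (mem_filter.1 hb).1
  have hsub : (R1.filter (fun a => a.degree = 2)) ∪ (C.O.filter (fun a => a.degree = 2)) ⊆
      C.T.finsuppAntidiag 2 := by
    intro a ha
    rcases mem_union.1 ha with ha | ha
    · obtain ⟨ha, hd⟩ := mem_filter.1 ha
      exact C.count_mem_antidiag hd (C.count_supp hd.ge (h1 a ha).2.2)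
    · obtain ⟨ha, hd⟩ := mem_filter.1 ha
      exact C.count_mem_antidiag hd (C.supp a ha)
  have h := card_le_card hsub
  rw [card_union_of_disjoint hdisj, Finset.card_finsuppAntidiag_nat_eq_choose] at h
  exact h

private theorem count_split (P : Finset (σ →₀ ℕ)) :
    (P.filter (fun a => 2 ≤ a.degree)).card = (P.filter (fun a => a.degree = 2)).card +
      (P.filter (fun a => 3 ≤ a.degree)).card := by
  rw [← card_union_of_disjoint]
  · congr 1
    ext a
    simp only [mem_union, mem_filter]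
    constructor
    · rintro ⟨h, h2⟩
      rcases Nat.lt_or_ge a.degree 3 with h3 | h3
      · exact Or.inl ⟨h, by omega⟩
      · exact Or.inr ⟨h, h3⟩
    · rintro (⟨h, h2⟩ | ⟨h, h2⟩)
      · exact ⟨h, h2.ge⟩
      · exact ⟨h, by omega⟩
  · rw [Finset.disjoint_left]
    intro a ha hb
    have e1 := (mem_filter.1 ha).2
    have e2 := (mem_filter.1 hb).2
    omega

private theorem count_ideal_O : C.Ideal' C.O where
  sub := subset_rfl
  down := C.down
  left := fun _ ha _ => ha

private theorem count_cand {P : Finset (σ →₀ ℕ)} (hP : C.Ideal' P) (D : Finset (σ →₀ ℕ))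
    (hD : ∀ a ∈ D, a ∉ P ∧ 3 ≤ a.degree ∧ ∀ i, a i ≠ 0 → rm a i ∈ P) :
    (D.card : ℚ) ≤ C.h 2 + C.Bd := by
  have hdisj : Disjoint D (P.filter (fun a => 3 ≤ a.degree)) := by
    rw [Finset.disjoint_left]
    intro a ha hb
    exact (hD a ha).1 (mem_filter.1 hb).1
  have h := C.cand hP (D ∪ P.filter (fun a => 3 ≤ a.degree)) (by
    intro a ha
    rcases mem_union.1 ha with ha | ha
    · exact (hD a ha).2
    · obtain ⟨ha, hd⟩ := mem_filter.1 ha
      exact ⟨hd, hP.down a ha⟩)
  rw [card_union_of_disjoint hdisj, count_split] at h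
  have h2 : (P.filter (fun a => a.degree = 2)).card ≤ C.h 2 :=
    card_le_card (filter_subset_filter _ hP.sub)
  have h2' : ((P.filter (fun a => a.degree = 2)).card : ℚ) ≤ C.h 2 := by exact_mod_cast h2
  push_cast at h
  linarith

private theorem count_deg3 (R1 : Finset (σ →₀ ℕ))
    (h1 : ∀ a ∈ R1, a ∉ C.O ∧ 2 ≤ a.degree ∧ ∀ i, a i ≠ 0 → rm a i ∈ C.O) :
    ((R1.filter (fun a => 3 ≤ a.degree)).card : ℚ) ≤ C.h 2 + C.Bd := by
  apply C.count_cand C.count_ideal_O
  intro a ha
  obtain ⟨ha, hd⟩ := mem_filter.1 ha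
  exact ⟨(h1 a ha).1, hd, (h1 a ha).2.2⟩

private theorem count_pos_zero : C.pos 0 = 0 := by
  have h := C.deg 0 C.zero_mem
  rw [map_zero] at h
  omega

private theorem count_deg_of_pos {a : σ →₀ ℕ} (ha : a ∈ C.O) (hp : 0 < C.pos a) : 3 ≤ a.degree := by
  by_contra hlt
  push Not at hlt
  have h3 : a.degree = 0 ∨ a.degree = 1 ∨ a.degree = 2 := by omega
  rcases h3 with h | h | h
  · rw [Finsupp.degree_eq_zero_iff] at h
    rw [h, C.count_pos_zero] at hp
    exact lt_irrefl _ hp
  · obtain ⟨i, hi, rfl⟩ := C.eq_single_of_degree_one ha h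
    rw [C.pos_single i hi] at hp
    exact lt_irrefl _ hp
  · rw [(C.deg_two ha h).2] at hp
    exact lt_irrefl _ hp

private theorem count_one_le_inc {a : σ →₀ ℕ} (ha : a ∈ C.O) (hp : 0 < C.pos a) : 1 ≤ C.inc a := by
  obtain ⟨b, hb, hcls, hpos, hc, -⟩ := C.inc_prev a ha hp
  have := C.mono b hb a ha hcls hpos
  omega

private theorem count_inc :
    (C.O.filter (fun a => 0 < C.pos a)).card + (C.O.filter (fun a => 0 < C.pos a ∧
      2 ≤ C.inc a)).card + 2 * C.d ≤ (C.T.card + 1) * C.d + C.d.choose 2 := by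
  have h := C.sum_inc
  have he : 1 ≤ C.T.card := C.hT.card_pos
  have h1 : ∑ a ∈ C.O.filter (fun a => 0 < C.pos a), (1 + if 2 ≤ C.inc a then 1 else 0) ≤
      ∑ a ∈ C.O.filter (fun a => 0 < C.pos a), C.inc a := by
    refine Finset.sum_le_sum fun a ha => ?_
    obtain ⟨ha, hp⟩ := mem_filter.1 ha
    have := C.count_one_le_inc ha hp
    split_ifs <;> omega
  rw [Finset.sum_add_distrib, Finset.sum_const, smul_eq_mul, mul_one, ← Finset.card_filter,
    Finset.filter_filter] at h1
  rw [Nat.choose_two_right]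
  have h2 : (C.T.card - 1) * C.d + 2 * C.d = (C.T.card + 1) * C.d := by
    obtain ⟨k, hk⟩ : ∃ k, C.T.card = k + 1 := ⟨C.T.card - 1, by omega⟩
    rw [hk, Nat.add_sub_cancel]
    ring
  omega

/-- the nodes of position zero or increment at least two -/
private noncomputable def countP : Finset (σ →₀ ℕ) := C.O.filter (fun a => C.pos a = 0 ∨ 2 ≤ C.inc a)

private theorem count_ideal_P : C.Ideal' C.countP where
  sub := filter_subset _ _
  down := by
    intro a ha i hi
    obtain ⟨ha, hp⟩ := mem_filter.1 ha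
    refine mem_filter.2 ⟨C.down a ha i hi, ?_⟩
    by_cases h0 : C.pos (rm a i) = 0
    · exact Or.inl h0
    · right
      have h0' : 0 < C.pos (rm a i) := Nat.pos_of_ne_zero h0
      have hne : rm a i ≠ 0 := by
        intro h
        rw [h, C.count_pos_zero] at h0'
        exact lt_irrefl _ h0'
      have h1 := C.pos_le a ha i hi hne
      have h2 := C.inc_mono a ha i hi h0'
      rcases hp with hp | hp
      · omega
      · omega
  left := fun a ha hp => mem_filter.2 ⟨ha, Or.inl hp⟩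

/-- the final count -/
theorem count (R1 R2 : Finset (σ →₀ ℕ))
    (h1 : ∀ a ∈ R1, a ∉ C.O ∧ 2 ≤ a.degree ∧ ∀ i, a i ≠ 0 → rm a i ∈ C.O)
    (h2 : ∀ a ∈ R2, a ∈ C.O ∧ 0 < C.pos a ∧
      ∀ i, a i ≠ 0 → (C.pos (rm a i) = 0 ∨ C.inc a < C.inc (rm a i))) :
    R1.card + R2.card ≤ C.m.choose 2 := by
  have a1 := C.count_deg2 R1 h1
  have a2 := C.count_deg3 R1 h1
  have a3 : R1.card = (R1.filter (fun a => a.degree = 2)).card +
      (R1.filter (fun a => 3 ≤ a.degree)).card := by
    rw [← count_split]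
    congr 1
    exact (Finset.filter_true_of_mem fun a ha => (h1 a ha).2.1).symm
  -- R2
  have b1 : R2.card ≤ (C.O.filter (fun a => 0 < C.pos a)).card := by
    apply card_le_card
    intro a ha
    exact mem_filter.2 ⟨(h2 a ha).1, (h2 a ha).2.1⟩
  have b2 : (R2.filter (fun a => 2 ≤ C.inc a)).card ≤
      (C.O.filter (fun a => 0 < C.pos a ∧ 2 ≤ C.inc a)).card := by
    apply card_le_card
    intro a ha
    obtain ⟨ha, hi⟩ := mem_filter.1 ha
    exact mem_filter.2 ⟨(h2 a ha).1, (h2 a ha).2.1, hi⟩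
  have b3 : ((R2.filter (fun a => ¬ 2 ≤ C.inc a)).card : ℚ) ≤ C.h 2 + C.Bd := by
    apply C.count_cand C.count_ideal_P
    intro a ha
    obtain ⟨ha, hi⟩ := mem_filter.1 ha
    obtain ⟨haO, hp, hrm⟩ := h2 a ha
    refine ⟨?_, C.count_deg_of_pos haO hp, ?_⟩
    · intro hP
      rcases (mem_filter.1 hP).2 with h | h
      · omega
      · exact hi h
    · intro i hai
      refine mem_filter.2 ⟨C.down a haO i hai, ?_⟩
      have h3 := C.count_one_le_inc haO hp
      rcases hrm i hai with h | h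
      · exact Or.inl h
      · right
        omega
  have b4 := Finset.card_filter_add_card_filter_not (s := R2) (fun a => 2 ≤ C.inc a)
  have hinc := C.count_inc
  have hBd := C.Bd_le
  have hh2 := C.h_two_le
  rw [C.m_eq]
  -- to rationals
  have c1 : (R1.card : ℚ) = ((R1.filter (fun a => a.degree = 2)).card : ℚ) +
      ((R1.filter (fun a => 3 ≤ a.degree)).card : ℚ) := by exact_mod_cast a3
  have c2 : ((R1.filter (fun a => a.degree = 2)).card : ℚ) + C.h 2 ≤
      (((C.T.card + 1).choose 2 : ℕ) : ℚ) := by exact_mod_cast a1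
  have c3 : (R2.card : ℚ) ≤ ((C.O.filter (fun a => 0 < C.pos a)).card : ℚ) := by
    exact_mod_cast b1
  have c4 : ((R2.filter (fun a => 2 ≤ C.inc a)).card : ℚ) ≤
      ((C.O.filter (fun a => 0 < C.pos a ∧ 2 ≤ C.inc a)).card : ℚ) := by exact_mod_cast b2
  have c5 : ((R2.filter (fun a => 2 ≤ C.inc a)).card : ℚ) +
      ((R2.filter (fun a => ¬ 2 ≤ C.inc a)).card : ℚ) = R2.card := by exact_mod_cast b4
  have c6 : ((C.O.filter (fun a => 0 < C.pos a)).card : ℚ) +
      ((C.O.filter (fun a => 0 < C.pos a ∧ 2 ≤ C.inc a)).card : ℚ) + 2 * C.d ≤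
      (C.T.card + 1) * C.d + ((C.d.choose 2 : ℕ) : ℚ) := by exact_mod_cast hinc
  have c7 : (C.h 2 : ℚ) ≤ C.d := by exact_mod_cast hh2
  have goal : (R1.card : ℚ) + R2.card ≤ (((C.T.card + 1 + C.d).choose 2 : ℕ) : ℚ) := by
    rw [Nat.cast_choose_two] at c2 c6 ⊢
    push_cast at c2 c6 ⊢
    rcases le_or_gt (C.Bd + ((C.O.filter (fun a => 0 < C.pos a)).card : ℚ))
      ((C.T.card + 1) * C.d + (C.d : ℚ) * (C.d - 1) / 2) with hcase | hcase
    · nlinarith
    · nlinarith
  exact_mod_cast goal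

end Core

end Pool.Agent.Helper733.HS
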