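import Pool.Agent.Helper733.HS.A5
import Pool.Agent.Helper733.HS.C11

set_option autoImplicit false

open Finset

namespace Pool.Agent.Helper733.HS

namespace SG

variable {e : ℕ}

variable (g : Fin (e + 1) → ℕ)

theorem R1_finite {g : Fin (e + 1) → ℕ} (H : Hyp g) : (R1 g).Finite := by
  have h1 : (Set.image2 (fun (b : Fin (e + 1) →₀ ℕ) (i : Fin (e + 1)) =>
      b + Finsupp.single i 1) (OS g) Set.univ).Finite :=
    Set.Finite.image2 _ (OS_finite H) Set.finite_univ
  refine h1.subset ?_
  intro a ha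
  obtain ⟨_, h2, h3⟩ := ha
  have hne : a ≠ 0 := by
    rintro rfl
    simp at h2
  obtain ⟨i, hi⟩ := Finsupp.ne_iff.1 hne
  have hi' : a i ≠ 0 := by simpa using hi
  exact ⟨rm a i, h3 i hi', i, Set.mem_univ _, rm_add hi'⟩

theorem R2_finite {g : Fin (e + 1) → ℕ} (H : Hyp g) : (R2 g).Finite :=
  (OS_finite H).subset fun _ ha => ha.1

/-- the main bound -/
theorem main_bound {g : Fin (e + 1) → ℕ} (H : Hyp g) (k : Type) [Field k] :
    ∃ S : Finset (MvPolynomial (Fin (e + 1)) k), S.card ≤ (g 0).choose 2 ∧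
      Ideal.span (S : Set (MvPolynomial (Fin (e + 1)) k)) =
      Ideal.span {p | (∃ u v : Fin (e + 1) →₀ ℕ, u.degree = v.degree ∧
        Finsupp.weight g u = Finsupp.weight g v ∧
        p = MvPolynomial.monomial u (1 : k) - MvPolynomial.monomial v 1) ∨
      (∃ u v : Fin (e + 1) →₀ ℕ, u.degree < v.degree ∧ Finsupp.weight g u = Finsupp.weight g v ∧
        p = MvPolynomial.monomial u 1)} := by
  classical
  have hO : ∀ a, a ∈ (core H).O ↔ a ∈ OS g := by
    intro a
    show a ∈ (OS_finite H).toFinset ↔ a ∈ OS g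
    rw [Set.Finite.mem_toFinset]
  have hcount := (core H).count (R1_finite H).toFinset (R2_finite H).toFinset
    (by
      intro a ha
      rw [Set.Finite.mem_toFinset] at ha
      obtain ⟨h1, h2, h3⟩ := ha
      refine ⟨fun h => h1 ((hO a).1 h), h2, fun i hi => (hO _).2 (h3 i hi)⟩)
    (by
      intro a ha
      rw [Set.Finite.mem_toFinset] at ha
      obtain ⟨h1, h2, h3⟩ := ha
      exact ⟨(hO a).2 h1, h2, h3⟩)
  rw [core_m H] at hcount
  refine ⟨(R1_finite H).toFinset.image (gen1 g k) ∪ (R2_finite H).toFinset.image (gen2 g k),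
    ?_, ?_⟩
  · calc ((R1_finite H).toFinset.image (gen1 g k) ∪ (R2_finite H).toFinset.image (gen2 g k)).card
        ≤ ((R1_finite H).toFinset.image (gen1 g k)).card +
          ((R2_finite H).toFinset.image (gen2 g k)).card := Finset.card_union_le _ _
      _ ≤ (R1_finite H).toFinset.card + (R2_finite H).toFinset.card :=
          Nat.add_le_add Finset.card_image_le Finset.card_image_le
      _ ≤ (g 0).choose 2 := hcount
  · rw [← JJ_eq H k]
    unfold JJ
    rw [Finset.coe_union, Finset.coe_image, Finset.coe_image, Set.Finite.coe_toFinset,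
      Set.Finite.coe_toFinset]

end SG

end Pool.Agent.Helper733.HS
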