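import Pool.Agent.Helper733.HS.SG6

set_option autoImplicit false

open Finset

namespace Pool.Agent.Helper733.HS

namespace SG

variable {e : ℕ}

variable (g : Fin (e + 1) → ℕ)

/-- minimal nonstandard monomials -/
def R1 : Set (Fin (e + 1) →₀ ℕ) := {a | a ∉ OS g ∧ 2 ≤ a.degree ∧ ∀ i, a i ≠ 0 → rm a i ∈ OS g}

/-- starts of the increments -/
def R2 : Set (Fin (e + 1) →₀ ℕ) := {a | a ∈ OS g ∧ 0 < pos g a ∧
  ∀ i, a i ≠ 0 → (pos g (rm a i) = 0 ∨ inc g a < inc g (rm a i))}

open Classical in
/-- generator attached to a minimal nonstandard monomial -/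
noncomputable def gen1 (k : Type) [Field k] (a : Fin (e + 1) →₀ ℕ) : MvPolynomial (Fin (e + 1)) k :=
  if a.degree = tp g (wt g a) then MvPolynomial.monomial a 1 - MvPolynomial.monomial (std g (wt g a)) 1
  else MvPolynomial.monomial a 1

/-- generator attached to a start of an increment -/
noncomputable def gen2 (k : Type) [Field k] (a : Fin (e + 1) →₀ ℕ) : MvPolynomial (Fin (e + 1)) k :=
  MvPolynomial.monomial (x0 + std g (wt g a - g 0)) 1

/-- the ideal spanned by the generators -/
noncomputable def JJ (k : Type) [Field k] : Ideal (MvPolynomial (Fin (e + 1)) k) :=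
  Ideal.span (gen1 g k '' R1 g ∪ gen2 g k '' R2 g)

end SG

end Pool.Agent.Helper733.HS
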