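import Pool.Agent.Helper733.HS.CoreDef

set_option autoImplicit false

open Finset

namespace Pool.Agent.Helper733.HS

namespace Core

variable {σ : Type} [DecidableEq σ] (C : Core σ)

private theorem c1_rm_add {a : σ →₀ ℕ} {i : σ} (h : a i ≠ 0) : rm a i + Finsupp.single i 1 = a := by
  unfold rm
  refine tsub_add_cancel_of_le ?_
  rw [Finsupp.single_le_iff]
  exact Nat.one_le_iff_ne_zero.2 h

private theorem c1_Gen_sub : C.Gen ⊆ C.X := by
  intro x hx
  obtain ⟨i, hi, rfl⟩ := Finset.mem_image.1 hx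
  refine C.cls_mem _ (C.single_mem i hi) ?_
  simp

private theorem c1_card_Gen : C.Gen.card = C.T.card := by
  refine Finset.card_image_of_injOn ?_
  intro i hi j hj hij
  have hi' : i ∈ C.T := hi
  have hj' : j ∈ C.T := hj
  have h1 : C.cls (Finsupp.single i 1) = C.cls (Finsupp.single j 1) := hij
  have h2 := C.inj _ (C.single_mem i hi') _ (C.single_mem j hj') h1
    ((C.pos_single i hi').trans (C.pos_single j hj').symm)
  exact (Finsupp.single_left_inj one_ne_zero).1 h2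

private theorem c1_card_X : C.X.card = C.T.card + C.d := by
  have h := Finset.card_sdiff_add_card_eq_card C.c1_Gen_sub
  rw [c1_card_Gen] at h
  unfold d L
  omega

theorem card_X : C.X.card = C.T.card + C.d := C.c1_card_X
theorem ne_zero_of_cls {a : σ →₀ ℕ} (h : C.cls a ∈ C.X) : a ≠ 0 := by
  rintro rfl
  exact C.cls_zero h
theorem c_single {i : σ} (hi : i ∈ C.T) : C.c (Finsupp.single i 1) = 1 := by
  have h1 := C.deg _ (C.single_mem i hi)
  rw [Finsupp.degree_single, C.pos_single i hi] at h1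
  omega
theorem eq_single_of_degree_one {a : σ →₀ ℕ} (ha : a ∈ C.O) (h : a.degree = 1) :
    ∃ i ∈ C.T, a = Finsupp.single i 1 := by
  have hne : a ≠ 0 := by
    rintro rfl
    simp at h
  obtain ⟨i, hi⟩ := Finsupp.ne_iff.1 hne
  have hi' : a i ≠ 0 := by simpa using hi
  have h1 := c1_rm_add hi'
  have h2 : (rm a i).degree + (Finsupp.single i 1 : σ →₀ ℕ).degree = a.degree := by
    rw [← map_add, h1]
  rw [Finsupp.degree_single, h] at h2
  have h3 : (rm a i).degree = 0 := by omega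
  rw [Finsupp.degree_eq_zero_iff] at h3
  rw [h3, zero_add] at h1
  exact ⟨i, C.supp a ha i hi', h1.symm⟩
theorem degree_rm {a : σ →₀ ℕ} {i : σ} (h : a i ≠ 0) : (rm a i).degree + 1 = a.degree := by
  have h1 := c1_rm_add h
  conv_rhs => rw [← h1]
  rw [map_add, Finsupp.degree_single]
theorem rm_add {a : σ →₀ ℕ} {i : σ} (h : a i ≠ 0) : rm a i + Finsupp.single i 1 = a := c1_rm_add h
theorem rm_ne_zero {a : σ →₀ ℕ} {i : σ} (h : a i ≠ 0) (h2 : 2 ≤ a.degree) : rm a i ≠ 0 := by
  intro h0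
  have h1 := degree_rm h
  rw [h0] at h1
  simp at h1
  omega
theorem mem_Gen_or_L {x : ℕ} (hx : x ∈ C.X) : x ∈ C.Gen ∨ x ∈ C.L := by
  by_cases h : x ∈ C.Gen
  · exact Or.inl h
  · exact Or.inr (Finset.mem_sdiff.2 ⟨hx, h⟩)
theorem Gen_sub : C.Gen ⊆ C.X := C.c1_Gen_sub
theorem L_sub : C.L ⊆ C.X := Finset.sdiff_subset
theorem not_Gen_of_L {x : ℕ} (hx : x ∈ C.L) : x ∉ C.Gen := (Finset.mem_sdiff.1 hx).2
theorem card_Gen : C.Gen.card = C.T.card := C.c1_card_Gen
theorem m_eq : C.m = C.T.card + 1 + C.d := by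
  unfold m
  rw [card_X]
  omega
theorem c_step {a : σ →₀ ℕ} (ha : a ∈ C.O) {i : σ} (hi : a i ≠ 0) (h0 : rm a i ≠ 0) :
    C.c a ≤ C.c (rm a i) + 1 := by
  have h1 := C.deg a ha
  have h2 := C.deg _ (C.down a ha i hi)
  have h3 := C.pos_le a ha i hi h0
  have h4 := degree_rm hi
  omega
theorem c_step_Gen {a : σ →₀ ℕ} (ha : a ∈ C.O) {i : σ} (hi : a i ≠ 0) (h0 : rm a i ≠ 0)
    (hg : C.cls a ∈ C.Gen) : C.c a ≤ C.c (rm a i) := by
  obtain ⟨j, hj, hj'⟩ := Finset.mem_image.1 hg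
  have h1 := C.deg a ha
  have h2 := C.deg _ (C.down a ha i hi)
  have h3 := C.pos_lt a ha i hi h0 ⟨j, hj, hj'.symm⟩
  have h4 := degree_rm hi
  omega
theorem deg_gap {a b : σ →₀ ℕ} (ha : a ∈ C.O) (hb : b ∈ C.O) (h : C.cls a = C.cls b)
    (hp : C.pos a < C.pos b) : a.degree + 2 ≤ b.degree := by
  have h1 := C.deg a ha
  have h2 := C.deg b hb
  have h3 := C.mono a ha b hb h hp
  omega
/-- every node of a class outside `Gen` has offset at least two -/
theorem two_le_c_of_L {a : σ →₀ ℕ} (ha : a ∈ C.O) (h : C.cls a ∈ C.L) : 2 ≤ C.c a := by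
  obtain ⟨b, hb, hba, hb0⟩ := C.left _ (C.L_sub h)
  have h1 : b ≠ 0 := C.ne_zero_of_cls (by rw [hba]; exact C.L_sub h)
  have h2 := C.deg b hb
  have h3 : b.degree ≠ 0 := fun h4 => h1 ((Finsupp.degree_eq_zero_iff b).1 h4)
  have h5 : b.degree ≠ 1 := by
    intro h4
    obtain ⟨i, hi, rfl⟩ := C.eq_single_of_degree_one hb h4
    refine C.not_Gen_of_L h ?_
    rw [← hba]
    exact Finset.mem_image.2 ⟨i, hi, rfl⟩
  rcases Nat.eq_zero_or_pos (C.pos a) with h6 | h6
  · have : a = b := C.inj a ha b hb hba.symm (h6.trans hb0.symm)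
    rw [this]
    omega
  · have := C.mono b hb a ha hba (by omega)
    omega
theorem one_le_c {a : σ →₀ ℕ} (ha : a ∈ C.O) (h : a ≠ 0) : 1 ≤ C.c a := by
  rcases C.mem_Gen_or_L (C.cls_mem a ha h) with h1 | h1
  · obtain ⟨j, hj, hj'⟩ := Finset.mem_image.1 h1
    have h2 := C.c_single hj
    rcases Nat.eq_zero_or_pos (C.pos a) with h6 | h6
    · have : a = Finsupp.single j 1 :=
        C.inj a ha _ (C.single_mem j hj) hj'.symm (h6.trans (C.pos_single j hj).symm)
      rw [this]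
      omega
    · have := C.mono _ (C.single_mem j hj) a ha hj' (by rw [C.pos_single j hj]; exact h6)
      omega
  · have := C.two_le_c_of_L ha h1
    omega
theorem deg_two {a : σ →₀ ℕ} (ha : a ∈ C.O) (h : a.degree = 2) :
    C.cls a ∈ C.L ∧ C.pos a = 0 := by
  have hne : a ≠ 0 := by
    rintro rfl
    simp at h
  obtain ⟨i, hi⟩ := Finsupp.ne_iff.1 hne
  have hi' : a i ≠ 0 := by simpa using hi
  have hrm := C.down a ha i hi'
  have h0 := rm_ne_zero hi' (by omega)
  have h1 := degree_rm hi'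
  obtain ⟨k, hk, hk'⟩ := C.eq_single_of_degree_one hrm (by omega)
  have hc1 : C.c (rm a i) = 1 := by rw [hk']; exact C.c_single hk
  have hd := C.deg a ha
  rcases C.mem_Gen_or_L (C.cls_mem a ha hne) with h2 | h2
  · exfalso
    have h3 := C.c_step_Gen ha hi' h0 h2
    obtain ⟨j, hj, hj'⟩ := Finset.mem_image.1 h2
    have h4 := C.c_single hj
    rcases Nat.eq_zero_or_pos (C.pos a) with h6 | h6
    · have h7 : a = Finsupp.single j 1 :=
        C.inj a ha _ (C.single_mem j hj) hj'.symm (h6.trans (C.pos_single j hj).symm)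
      rw [h7, Finsupp.degree_single] at h
      omega
    · have := C.mono _ (C.single_mem j hj) a ha hj' (by rw [C.pos_single j hj]; exact h6)
      omega
  · have h3 := C.two_le_c_of_L ha h2
    exact ⟨h2, by omega⟩
theorem two_le_c {a : σ →₀ ℕ} (ha : a ∈ C.O) (h : 2 ≤ a.degree) : 2 ≤ C.c a := by
  have hne : a ≠ 0 := by
    rintro rfl
    simp at h
  have hd := C.deg a ha
  rcases Nat.eq_zero_or_pos (C.pos a) with h6 | h6
  · omega
  · obtain ⟨b, hb, hba, hb0⟩ := C.left _ (C.cls_mem a ha hne)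
    have h1 : b ≠ 0 := C.ne_zero_of_cls (by rw [hba]; exact C.cls_mem a ha hne)
    have h2 := C.one_le_c hb h1
    have h3 := C.mono b hb a ha hba (by omega)
    omega

end Core

end Pool.Agent.Helper733.HS
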