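import Pool.Agent.Helper733.HS.C1

set_option autoImplicit false

open Finset

namespace Pool.Agent.Helper733.HS

namespace Core

variable {σ : Type} [DecidableEq σ] (C : Core σ)

theorem last_mem {x : ℕ} (hx : x ∈ C.X) : C.last x ∈ C.O ∧ C.cls (C.last x) = x ∧
    ∀ b ∈ C.O, C.cls b = x → C.pos b ≤ C.pos (C.last x) := by
  have h : ∃ a ∈ C.O, C.cls a = x ∧ ∀ b ∈ C.O, C.cls b = x → C.pos b ≤ C.pos a := by
    obtain ⟨a, ha, hax, -⟩ := C.left x hx
    have hne : (C.O.filter (fun a => C.cls a = x)).Nonempty :=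
      ⟨a, Finset.mem_filter.2 ⟨ha, hax⟩⟩
    obtain ⟨b, hb, hmax⟩ := Finset.exists_max_image _ C.pos hne
    rw [Finset.mem_filter] at hb
    exact ⟨b, hb.1, hb.2, fun b' hb' hx' => hmax b' (Finset.mem_filter.2 ⟨hb', hx'⟩)⟩
  unfold last
  rw [dif_pos h]
  exact h.choose_spec

theorem c_le_cl {a : σ →₀ ℕ} (ha : a ∈ C.O) (h0 : a ≠ 0) : C.c a ≤ C.cl (C.cls a) := by
  obtain ⟨h1, h2, h3⟩ := C.last_mem (C.cls_mem a ha h0)
  unfold cl
  rcases (h3 a ha rfl).lt_or_eq with h | h
  · exact (C.mono a ha _ h1 h2.symm h).le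
  · exact (congrArg C.c (C.inj a ha _ h1 h2.symm h)).le

theorem last_rm {x : ℕ} (hx : x ∈ C.X) {i : σ} (hi : C.last x i ≠ 0) (h0 : rm (C.last x) i ≠ 0) :
    C.last (C.cls (rm (C.last x) i)) = rm (C.last x) i := by
  obtain ⟨h1, h2, h3⟩ := C.last_mem hx
  have hP := C.down _ h1 i hi
  obtain ⟨k1, k2, k3⟩ := C.last_mem (C.cls_mem _ hP h0)
  rcases (k3 _ hP rfl).lt_or_eq with h | h
  · exfalso
    obtain ⟨b, hb, hbc, hlt⟩ := C.lift _ h1 i hi _ k1 k2 h
    rcases (h3 b hb (hbc.trans h2)).lt_or_eq with h' | h'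
    · have := C.mono b hb _ h1 hbc h'
      omega
    · have := C.inj b hb _ h1 hbc h'
      rw [this] at hlt
      omega
  · exact (C.inj _ hP _ k1 k2.symm h).symm

private theorem last_ne_zero {x : ℕ} (hx : x ∈ C.X) : C.last x ≠ 0 := by
  intro h
  obtain ⟨h1, h2, h3⟩ := C.last_mem hx
  rw [h] at h2
  exact C.cls_zero (h2 ▸ hx)

private theorem Dl_pos {x : ℕ} (hx : x ∈ C.X) : 1 ≤ C.Dl x := by
  unfold Dl
  rw [Nat.one_le_iff_ne_zero]
  intro h
  exact C.last_ne_zero hx ((Finsupp.degree_eq_zero_iff _).1 h)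

private theorem Dl_one {x : ℕ} (hx : x ∈ C.X) (h : C.Dl x = 1) : x ∈ C.Gen ∧ C.cl x = 1 := by
  obtain ⟨h1, h2, h3⟩ := C.last_mem hx
  obtain ⟨i, hi, he⟩ := C.eq_single_of_degree_one h1 h
  constructor
  · unfold Gen
    rw [Finset.mem_image]
    exact ⟨i, hi, by rw [← he]; exact h2⟩
  · unfold cl
    rw [he]
    exact C.c_single hi

private theorem Dl_step {x : ℕ} (hx : x ∈ C.X) (h : 2 ≤ C.Dl x) : ∃ i : σ, C.last x i ≠ 0 ∧
    rm (C.last x) i ≠ 0 ∧ C.cls (rm (C.last x) i) ∈ C.X ∧
    C.last (C.cls (rm (C.last x) i)) = rm (C.last x) i ∧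
    C.Dl (C.cls (rm (C.last x) i)) + 1 = C.Dl x ∧
    C.cl (C.cls (rm (C.last x) i)) = C.c (rm (C.last x) i) := by
  obtain ⟨h1, h2, h3⟩ := C.last_mem hx
  obtain ⟨i, hi⟩ : ∃ i, C.last x i ≠ 0 := by
    by_contra hcon
    push Not at hcon
    exact C.last_ne_zero hx (Finsupp.ext hcon)
  have h0 := rm_ne_zero hi h
  have hl := C.last_rm hx hi h0
  refine ⟨i, hi, h0, C.cls_mem _ (C.down _ h1 i hi) h0, hl, ?_, ?_⟩
  · unfold Dl
    rw [hl]
    exact degree_rm hi
  · unfold cl
    rw [hl]

/-- some letter is the last node of its class -/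
theorem exists_low : ∃ x ∈ C.Gen, C.cl x = 1 ∧ C.Dl x = 1 := by
  have key : ∀ n x, x ∈ C.X → C.Dl x ≤ n → ∃ x ∈ C.Gen, C.cl x = 1 ∧ C.Dl x = 1 := by
    intro n
    induction n with
    | zero =>
      intro x hx h
      have := C.Dl_pos hx
      omega
    | succ n ih =>
      intro x hx h
      by_cases h1 : C.Dl x = 1
      · obtain ⟨h2, h3⟩ := C.Dl_one hx h1
        exact ⟨x, h2, h3, h1⟩
      · have h2 := C.Dl_pos hx
        obtain ⟨i, -, -, h3, -, h4, -⟩ := C.Dl_step hx (by omega)
        exact ih _ h3 (by omega)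
  obtain ⟨i, hi⟩ := C.hT
  refine key _ (C.cls (Finsupp.single i 1)) (C.Gen_sub ?_) le_rfl
  unfold Gen
  exact Finset.mem_image_of_mem _ hi

theorem cl_bound {x : ℕ} (hx : x ∈ C.X) :
    C.cl x ≤ 1 + (C.L.filter (fun l => C.Dl l < C.Dl x)).card + (if x ∈ C.L then 1 else 0) := by
  have key : ∀ n x, x ∈ C.X → C.Dl x ≤ n →
      C.cl x ≤ 1 + (C.L.filter (fun l => C.Dl l < C.Dl x)).card + (if x ∈ C.L then 1 else 0) := by
    intro n
    induction n with
    | zero =>
      intro x hx h
      have := C.Dl_pos hx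
      omega
    | succ n ih =>
      intro x hx h
      by_cases h1 : C.Dl x = 1
      · obtain ⟨h2, h3⟩ := C.Dl_one hx h1
        omega
      · have h2 := C.Dl_pos hx
        obtain ⟨hl1, hl2, hl3⟩ := C.last_mem hx
        obtain ⟨i, hi, h0, h3, hl, h4, h5⟩ := C.Dl_step hx (by omega)
        have h6 := ih _ h3 (by omega)
        set y := C.cls (rm (C.last x) i) with hy
        have h7 : (C.L.filter (fun l => C.Dl l < C.Dl y)).card + (if y ∈ C.L then 1 else 0) ≤
            (C.L.filter (fun l => C.Dl l < C.Dl x)).card := by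
          by_cases hyL : y ∈ C.L
          · rw [if_pos hyL]
            have hnot : y ∉ C.L.filter (fun l => C.Dl l < C.Dl y) := by
              rw [Finset.mem_filter]
              rintro ⟨-, hlt⟩
              exact lt_irrefl _ hlt
            rw [← Finset.card_insert_of_notMem hnot]
            apply Finset.card_le_card
            intro z hz
            rw [Finset.mem_insert] at hz
            rw [Finset.mem_filter]
            rcases hz with rfl | hz
            · exact ⟨hyL, by omega⟩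
            · rw [Finset.mem_filter] at hz
              exact ⟨hz.1, by omega⟩
          · rw [if_neg hyL, add_zero]
            apply Finset.card_le_card
            intro z hz
            rw [Finset.mem_filter] at hz ⊢
            exact ⟨hz.1, by omega⟩
        have h8 : C.cl x ≤ C.cl y + (if x ∈ C.L then 1 else 0) := by
          rw [h5]
          rcases C.mem_Gen_or_L hx with hg | hL
          · have := C.c_step_Gen hl1 hi h0 (by rw [hl2]; exact hg)
            exact this.trans (Nat.le_add_right _ _)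
          · rw [if_pos hL]
            exact C.c_step hl1 hi h0
        omega
  exact key _ x hx le_rfl

theorem cl_le {x : ℕ} (hx : x ∈ C.X) : C.cl x ≤ C.d + 1 := by
  have h1 := C.cl_bound hx
  by_cases hL : x ∈ C.L
  · rw [if_pos hL] at h1
    have h2 : C.L.filter (fun l => C.Dl l < C.Dl x) ⊆ C.L.erase x := by
      intro z hz
      rw [Finset.mem_filter] at hz
      rw [Finset.mem_erase]
      refine ⟨?_, hz.1⟩
      rintro rfl
      exact lt_irrefl _ hz.2
    have h3 := Finset.card_le_card h2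
    rw [Finset.card_erase_of_mem hL] at h3
    have h4 : 0 < C.L.card := Finset.card_pos.2 ⟨x, hL⟩
    unfold d
    omega
  · rw [if_neg hL] at h1
    have h2 := Finset.card_le_card (Finset.filter_subset (fun l => C.Dl l < C.Dl x) C.L)
    unfold d
    omega

theorem A_card (t : ℕ) (ht : 1 ≤ t) : (C.L.filter (fun x => t < C.cl x)).card ≤ C.d + 1 - t := by
  rcases (C.L.filter (fun x => t < C.cl x)).eq_empty_or_nonempty with h | h
  · rw [h]; simp
  · obtain ⟨x, hx, hmin⟩ := Finset.exists_min_image _ C.Dl h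
    rw [Finset.mem_filter] at hx
    have h1 := C.cl_bound (C.L_sub hx.1)
    rw [if_pos hx.1] at h1
    have hdis : Disjoint (C.L.filter (fun x => t < C.cl x))
        (C.L.filter (fun l => C.Dl l < C.Dl x)) := by
      rw [Finset.disjoint_left]
      intro z hz hz'
      rw [Finset.mem_filter] at hz'
      have := hmin z hz
      omega
    have h2 : (C.L.filter (fun x => t < C.cl x)).card +
        (C.L.filter (fun l => C.Dl l < C.Dl x)).card ≤ C.L.card := by
      rw [← Finset.card_union_of_disjoint hdis]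
      exact Finset.card_le_card (Finset.union_subset (Finset.filter_subset _ _)
        (Finset.filter_subset _ _))
    unfold d
    omega

end Core

end Pool.Agent.Helper733.HS
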