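import Pool.Agent.Helper733.HS.C2

set_option autoImplicit false

open Finset

namespace Pool.Agent.Helper733.HS

namespace Core

variable {σ : Type} [DecidableEq σ] (C : Core σ)

private theorem c3_mem_prev {a b : σ →₀ ℕ} :
    b ∈ C.O.filter (fun b => C.cls b = C.cls a ∧ C.pos b < C.pos a) ↔
      b ∈ C.O ∧ C.cls b = C.cls a ∧ C.pos b < C.pos a := by
  rw [Finset.mem_filter]

private theorem c3_c_inj {a b : σ →₀ ℕ} (ha : a ∈ C.O) (hb : b ∈ C.O) (h : C.cls a = C.cls b)
    (hc : C.c a = C.c b) : a = b := by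
  rcases lt_trichotomy (C.pos a) (C.pos b) with h1 | h1 | h1
  · have := C.mono a ha b hb h h1
    omega
  · exact C.inj a ha b hb h h1
  · have := C.mono b hb a ha h.symm h1
    omega

theorem idx_le_pos {a : σ →₀ ℕ} (ha : a ∈ C.O) (h0 : a ≠ 0) : C.idx a ≤ C.pos a := by
  unfold idx
  have h1 := Finset.card_le_card_of_injOn (s := C.O.filter (fun b => C.cls b = C.cls a ∧ C.pos b < C.pos a))
    (t := Finset.range (C.pos a)) C.pos (by
      intro b hb
      have hb' := C.c3_mem_prev.1 hb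
      simpa using hb'.2.2) (by
      intro b hb b' hb' hbb
      have h2 := C.c3_mem_prev.1 hb
      have h3 := C.c3_mem_prev.1 hb'
      exact C.inj b h2.1 b' h3.1 (h2.2.1.trans h3.2.1.symm) hbb)
  rwa [Finset.card_range] at h1
theorem idx_lt_c {a : σ →₀ ℕ} (ha : a ∈ C.O) (h0 : a ≠ 0) : C.idx a + 1 ≤ C.c a := by
  have h1 := Finset.card_le_card_of_injOn (s := C.O.filter (fun b => C.cls b = C.cls a ∧ C.pos b < C.pos a))
    (t := Finset.Ico 1 (C.c a)) C.c (by
      intro b hb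
      have hb' := C.c3_mem_prev.1 hb
      have hb0 : b ≠ 0 := C.ne_zero_of_cls (by rw [hb'.2.1]; exact C.cls_mem a ha h0)
      have h2 := C.one_le_c hb'.1 hb0
      have h3 := C.mono b hb'.1 a ha hb'.2.1 hb'.2.2
      simp only [Finset.coe_Ico, Set.mem_Ico]
      exact ⟨h2, h3⟩) (by
      intro b hb b' hb' hbb
      have h2 := C.c3_mem_prev.1 hb
      have h3 := C.c3_mem_prev.1 hb'
      exact C.c3_c_inj h2.1 h3.1 (h2.2.1.trans h3.2.1.symm) hbb)
  rw [Nat.card_Ico] at h1
  have h2 := C.one_le_c ha h0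
  unfold idx
  omega
theorem idx_lt_c_L {a : σ →₀ ℕ} (ha : a ∈ C.O) (h : C.cls a ∈ C.L) : C.idx a + 2 ≤ C.c a := by
  have h1 := Finset.card_le_card_of_injOn (s := C.O.filter (fun b => C.cls b = C.cls a ∧ C.pos b < C.pos a))
    (t := Finset.Ico 2 (C.c a)) C.c (by
      intro b hb
      have hb' := C.c3_mem_prev.1 hb
      have h2 := C.two_le_c_of_L hb'.1 (by rw [hb'.2.1]; exact h)
      have h3 := C.mono b hb'.1 a ha hb'.2.1 hb'.2.2
      simp only [Finset.coe_Ico, Set.mem_Ico]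
      exact ⟨h2, h3⟩) (by
      intro b hb b' hb' hbb
      have h2 := C.c3_mem_prev.1 hb
      have h3 := C.c3_mem_prev.1 hb'
      exact C.c3_c_inj h2.1 h3.1 (h2.2.1.trans h3.2.1.symm) hbb)
  rw [Nat.card_Ico] at h1
  have h2 := C.two_le_c_of_L ha h
  unfold idx
  omega
theorem idx_pos_iff {a : σ →₀ ℕ} (ha : a ∈ C.O) (h0 : a ≠ 0) : 0 < C.idx a ↔ 0 < C.pos a := by
  constructor
  · intro h
    exact h.trans_le (C.idx_le_pos ha h0)
  · intro h
    obtain ⟨b, hb, hba, hb0⟩ := C.left _ (C.cls_mem a ha h0)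
    refine Finset.card_pos.2 ⟨b, ?_⟩
    exact C.c3_mem_prev.2 ⟨hb, hba, by omega⟩

private theorem c3_idx_lt {a b : σ →₀ ℕ} (ha : a ∈ C.O) (hb : b ∈ C.O) (h : C.cls a = C.cls b)
    (hp : C.pos a < C.pos b) : C.idx a < C.idx b := by
  unfold idx
  refine Finset.card_lt_card ?_
  rw [Finset.ssubset_iff_of_subset]
  · refine ⟨a, C.c3_mem_prev.2 ⟨ha, h, hp⟩, ?_⟩
    intro h1
    exact lt_irrefl _ (C.c3_mem_prev.1 h1).2.2
  · intro x hx
    obtain ⟨h1, h2, h3⟩ := C.c3_mem_prev.1 hx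
    exact C.c3_mem_prev.2 ⟨h1, h2.trans h, h3.trans hp⟩

theorem idx_count (r : ℕ) (hr : 1 ≤ r) :
    (C.O.filter (fun a => a ≠ 0 ∧ C.idx a = r)).card ≤ if r ≤ C.d then C.m - 2 - r else 0 := by
  obtain ⟨x0, hx0, hx1, -⟩ := C.exists_low
  have hmem : ∀ a ∈ C.O.filter (fun a => a ≠ 0 ∧ C.idx a = r),
      C.cls a ∈ C.Gen.erase x0 ∪ C.L.filter (fun x => r + 1 < C.cl x) := by
    intro a ha
    obtain ⟨ha, h0, hi⟩ := Finset.mem_filter.1 ha
    have h1 := C.c_le_cl ha h0
    have h2 := C.idx_lt_c ha h0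
    rw [Finset.mem_union]
    rcases C.mem_Gen_or_L (C.cls_mem a ha h0) with h3 | h3
    · left
      refine Finset.mem_erase.2 ⟨?_, h3⟩
      intro h4
      rw [h4] at h1
      omega
    · right
      have h4 := C.idx_lt_c_L ha h3
      exact Finset.mem_filter.2 ⟨h3, by omega⟩
  have hinj : Set.InjOn C.cls (C.O.filter (fun a => a ≠ 0 ∧ C.idx a = r) : Finset (σ →₀ ℕ)) := by
    intro a ha b hb hab
    obtain ⟨ha, h0, hi⟩ := Finset.mem_filter.1 ha
    obtain ⟨hb, h0', hi'⟩ := Finset.mem_filter.1 hb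
    rcases lt_trichotomy (C.pos a) (C.pos b) with h1 | h1 | h1
    · have := C.c3_idx_lt ha hb hab h1
      omega
    · exact C.inj a ha b hb hab h1
    · have := C.c3_idx_lt hb ha hab.symm h1
      omega
  have hcard := Finset.card_le_card_of_injOn C.cls hmem hinj
  have hu := Finset.card_union_le (C.Gen.erase x0) (C.L.filter (fun x => r + 1 < C.cl x))
  have he := Finset.card_erase_of_mem hx0
  have hA := C.A_card (r + 1) (by omega)
  have hG := C.card_Gen
  have hm := C.m_eq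
  have hT := C.hT.card_pos
  split_ifs with hrd
  · omega
  · rw [Nat.le_zero, Finset.card_eq_zero, Finset.filter_eq_empty_iff]
    rintro a ha ⟨h0, hi⟩
    have h1 := C.c_le_cl ha h0
    have h2 := C.idx_lt_c ha h0
    have h3 := C.cl_le (C.cls_mem a ha h0)
    rcases C.mem_Gen_or_L (C.cls_mem a ha h0) with h4 | h4
    · -- all classes of `Gen`
      by_cases hr2 : r = C.d
      · omega
      · omega
    · have := C.idx_lt_c_L ha h4
      omega
theorem left_count : (C.O.filter (fun a => 2 ≤ a.degree ∧ C.pos a = 0)).card = C.d := by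
  unfold d
  refine Finset.card_nbij C.cls ?_ ?_ ?_
  · intro a ha
    obtain ⟨ha, h2, hp⟩ := Finset.mem_filter.1 ha
    have h0 : a ≠ 0 := by
      rintro rfl
      simp at h2
    rcases C.mem_Gen_or_L (C.cls_mem a ha h0) with h3 | h3
    · exfalso
      obtain ⟨j, hj, hj'⟩ := Finset.mem_image.1 h3
      have : a = Finsupp.single j 1 :=
        C.inj a ha _ (C.single_mem j hj) hj'.symm (hp.trans (C.pos_single j hj).symm)
      rw [this, Finsupp.degree_single] at h2
      omega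
    · exact h3
  · intro a ha b hb hab
    obtain ⟨ha, h2, hp⟩ := Finset.mem_filter.1 ha
    obtain ⟨hb, h2', hp'⟩ := Finset.mem_filter.1 hb
    exact C.inj a ha b hb hab (hp.trans hp'.symm)
  · intro x hx
    have hx' : x ∈ C.L := hx
    obtain ⟨a, ha, hax, hp⟩ := C.left x (C.L_sub hx')
    have h1 := C.two_le_c_of_L ha (by rw [hax]; exact hx')
    have h2 := C.deg a ha
    exact ⟨a, Finset.mem_coe.2 (Finset.mem_filter.2 ⟨ha, by omega, hp⟩), hax⟩

end Core

end Pool.Agent.Helper733.HS
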