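import Pool.Agent.Helper733.HS.C3

set_option autoImplicit false

open Finset

namespace Pool.Agent.Helper733.HS

namespace Core

variable {σ : Type} [DecidableEq σ] (C : Core σ)

private theorem c4_pos_zero : C.pos 0 = 0 := by
  have := C.deg 0 C.zero_mem
  rw [map_zero] at this
  omega

/-- telescoping inside one class -/
private theorem c4_tele (a0 : σ →₀ ℕ) (h0 : a0 ∈ C.O) (hp0 : C.pos a0 = 0) (n : ℕ) :
    ∀ a ∈ C.O, C.cls a = C.cls a0 → C.pos a = n →
      ∑ b ∈ C.O.filter (fun b => C.cls b = C.cls a0 ∧ 0 < C.pos b ∧ C.pos b ≤ C.pos a), C.inc b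
        + C.c a0 = C.c a := by
  induction n using Nat.strong_induction_on with
  | _ n ih =>
    intro a ha hcl hpn
    rcases Nat.eq_zero_or_pos (C.pos a) with h1 | h1
    · have : a = a0 := C.inj a ha a0 h0 hcl (h1.trans hp0.symm)
      subst this
      have he : C.O.filter (fun b => C.cls b = C.cls a ∧ 0 < C.pos b ∧ C.pos b ≤ C.pos a) = ∅ := by
        rw [Finset.filter_eq_empty_iff]
        rintro b _ ⟨_, h2, h3⟩
        omega
      rw [he, Finset.sum_empty, zero_add]
    · obtain ⟨b, hb, hbcl, hbp, hbc, hbmax⟩ := C.inc_prev a ha h1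
      have h2 := ih (C.pos b) (by omega) b hb (hbcl.trans hcl) rfl
      have he : C.O.filter (fun b' => C.cls b' = C.cls a0 ∧ 0 < C.pos b' ∧ C.pos b' ≤ C.pos a) =
          insert a (C.O.filter (fun b' => C.cls b' = C.cls a0 ∧ 0 < C.pos b' ∧ C.pos b' ≤ C.pos b)) := by
        ext x
        rw [Finset.mem_insert, Finset.mem_filter, Finset.mem_filter]
        constructor
        · rintro ⟨hx, hx1, hx2, hx3⟩
          rcases Nat.lt_or_ge (C.pos x) (C.pos a) with h3 | h3
          · right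
            exact ⟨hx, hx1, hx2, hbmax x hx (hx1.trans hcl.symm) h3⟩
          · left
            exact C.inj x hx a ha (hx1.trans hcl.symm) (le_antisymm hx3 h3)
        · rintro (rfl | ⟨hx, hx1, hx2, hx3⟩)
          · exact ⟨ha, hcl, h1, le_rfl⟩
          · exact ⟨hx, hx1, hx2, hx3.trans hbp.le⟩
      have hna : a ∉ C.O.filter (fun b' => C.cls b' = C.cls a0 ∧ 0 < C.pos b' ∧ C.pos b' ≤ C.pos b) := by
        intro h3
        have := (Finset.mem_filter.1 h3).2.2.2
        omega
      rw [he, Finset.sum_insert hna]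
      omega

private theorem c4_class {x : ℕ} (hx : x ∈ C.X) :
    ∑ a ∈ (C.O.filter (fun a => 0 < C.pos a)).filter (fun a => C.cls a = x), C.inc a + 1 ≤ C.cl x ∧
    (x ∈ C.L → ∑ a ∈ (C.O.filter (fun a => 0 < C.pos a)).filter (fun a => C.cls a = x), C.inc a + 2
      ≤ C.cl x) := by
  obtain ⟨a0, h0, hcl0, hp0⟩ := C.left x hx
  obtain ⟨hl, hlc, hlmax⟩ := C.last_mem hx
  have h1 := C.c4_tele a0 h0 hp0 _ (C.last x) hl (hlc.trans hcl0.symm) rfl
  have he : C.O.filter (fun b => C.cls b = C.cls a0 ∧ 0 < C.pos b ∧ C.pos b ≤ C.pos (C.last x)) =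
      (C.O.filter (fun a => 0 < C.pos a)).filter (fun a => C.cls a = x) := by
    ext b
    rw [Finset.mem_filter, Finset.mem_filter, Finset.mem_filter, hcl0]
    constructor
    · rintro ⟨h2, h3, h4, _⟩
      exact ⟨⟨h2, h4⟩, h3⟩
    · rintro ⟨⟨h2, h4⟩, h3⟩
      exact ⟨h2, h3, h4, hlmax b h2 h3⟩
  rw [he] at h1
  have hne : a0 ≠ 0 := C.ne_zero_of_cls (by rw [hcl0]; exact hx)
  have h2 := C.one_le_c h0 hne
  unfold cl
  refine ⟨by omega, fun hL => ?_⟩
  have h3 := C.two_le_c_of_L h0 (by rw [hcl0]; exact hL)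
  omega

private theorem c4_sum_range (n : ℕ) : ∑ s ∈ Finset.range n, (n - s) = (n + 1) * n / 2 := by
  rw [← Finset.sum_range_reflect]
  have h1 : ∀ j ∈ Finset.range n, n - (n - 1 - j) = j + 1 := by
    intro j hj
    have := Finset.mem_range.1 hj
    omega
  rw [Finset.sum_congr rfl h1]
  have h2 := Finset.sum_range_succ' (fun i => i) n
  rw [Finset.sum_range_id] at h2
  simp only [add_zero] at h2
  rw [← h2]
  simp

private theorem c4_L_sum : ∑ x ∈ C.L, (C.cl x - 2) ≤ C.d * (C.d - 1) / 2 := by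
  rcases Nat.eq_zero_or_pos C.d with hd | hd
  · have : C.L = ∅ := Finset.card_eq_zero.1 hd
    rw [this]
    simp
  have h1 : ∀ x ∈ C.L, C.cl x - 2 = ∑ s ∈ Finset.range (C.d - 1), if s + 2 < C.cl x then 1 else 0 := by
    intro x hx
    have h2 := C.cl_le (C.L_sub hx)
    rw [← Finset.sum_filter, Finset.sum_const, smul_eq_mul, mul_one]
    have h3 : (Finset.range (C.d - 1)).filter (fun s => s + 2 < C.cl x) = Finset.range (C.cl x - 2) := by
      ext s
      rw [Finset.mem_filter, Finset.mem_range, Finset.mem_range]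
      omega
    rw [h3, Finset.card_range]
  rw [Finset.sum_congr rfl h1, Finset.sum_comm]
  have h4 : ∀ s ∈ Finset.range (C.d - 1), ∑ x ∈ C.L, (if s + 2 < C.cl x then 1 else 0) ≤ C.d - 1 - s := by
    intro s hs
    have h5 := C.A_card (s + 2) (by omega)
    rw [← Finset.sum_filter, Finset.sum_const, smul_eq_mul, mul_one]
    omega
  refine (Finset.sum_le_sum h4).trans ?_
  rw [c4_sum_range]
  have : C.d - 1 + 1 = C.d := by omega
  rw [this]

/-- total increment -/
theorem sum_inc : ∑ a ∈ C.O.filter (fun a => 0 < C.pos a), C.inc a ≤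
    (C.T.card - 1) * C.d + C.d * (C.d - 1) / 2 := by
  have hmaps : ∀ a ∈ C.O.filter (fun a => 0 < C.pos a), C.cls a ∈ C.X := by
    intro a ha
    obtain ⟨ha, hp⟩ := Finset.mem_filter.1 ha
    refine C.cls_mem a ha ?_
    rintro rfl
    rw [C.c4_pos_zero] at hp
    exact lt_irrefl _ hp
  rw [← Finset.sum_fiberwise_of_maps_to hmaps]
  have hX : C.X = C.Gen ∪ C.L := by
    unfold L
    rw [Finset.union_sdiff_of_subset C.Gen_sub]
  have hdis : Disjoint C.Gen C.L := by
    unfold L
    exact Finset.disjoint_sdiff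
  rw [hX, Finset.sum_union hdis]
  refine add_le_add ?_ ?_
  · obtain ⟨x0, hx0, hx1, -⟩ := C.exists_low
    rw [← Finset.add_sum_erase _ _ hx0]
    have h1 : ∑ a ∈ (C.O.filter (fun a => 0 < C.pos a)).filter (fun a => C.cls a = x0), C.inc a = 0 := by
      have := (C.c4_class (C.Gen_sub hx0)).1
      omega
    rw [h1, zero_add]
    have h2 : ∀ x ∈ C.Gen.erase x0,
        ∑ a ∈ (C.O.filter (fun a => 0 < C.pos a)).filter (fun a => C.cls a = x), C.inc a ≤ C.d := by
      intro x hx
      have hx' := C.Gen_sub (Finset.mem_of_mem_erase hx)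
      have h3 := (C.c4_class hx').1
      have h4 := C.cl_le hx'
      omega
    refine (Finset.sum_le_sum h2).trans ?_
    rw [Finset.sum_const, smul_eq_mul, Finset.card_erase_of_mem hx0, C.card_Gen]
  · refine le_trans (Finset.sum_le_sum (fun x hx => ?_)) C.c4_L_sum
    have := (C.c4_class (C.L_sub hx)).2 hx
    omega

end Core

end Pool.Agent.Helper733.HS
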