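import Pool.Agent.Helper733.HS.MacC

set_option autoImplicit false

open Finset

namespace Pool.Agent.Helper733.HS

private theorem mac_cancel {σ : Type*} [DecidableEq σ] {a : σ →₀ ℕ} {v : σ} (h : a v ≠ 0) :
    a - Finsupp.single v 1 + Finsupp.single v 1 = a := by
  apply tsub_add_cancel_of_le
  rw [Finsupp.single_le_iff]
  omega

private theorem mac_degree {σ : Type*} [DecidableEq σ] {a : σ →₀ ℕ} {v : σ} (h : a v ≠ 0) :
    (a - Finsupp.single v 1).degree + 1 = a.degree := by
  have h1 := congrArg Finsupp.degree (mac_cancel h)
  rw [map_add, Finsupp.degree_single] at h1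
  exact h1

private theorem mac_apply {σ : Type*} [DecidableEq σ] (a : σ →₀ ℕ) (i v : σ) :
    (a - Finsupp.single i 1 : σ →₀ ℕ) v = if i = v then a v - 1 else a v := by
  rw [Finsupp.tsub_apply, Finsupp.single_apply]
  split_ifs <;> simp

private theorem gq_nonneg (j n : ℕ) : 0 ≤ gq j n := by
  unfold gq
  positivity

/-- the inner induction, with the outer hypothesis as an assumption -/
private theorem mac_inner {σ : Type*} [DecidableEq σ] (j : ℕ) (hj : 1 ≤ j)
    (ih : ∀ G C : Finset (σ →₀ ℕ), 2 ≤ j → (∀ a ∈ C, a.degree = j) →
      (∀ a ∈ C, ∀ i, a i ≠ 0 → a - Finsupp.single i 1 ∈ G) → (C.card : ℚ) ≤ gq (j - 1) G.card)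
    (s : Finset σ) : ∀ G C : Finset (σ →₀ ℕ), (∀ a ∈ C, a.degree = j + 1) →
      (∀ a ∈ C, ∀ i, a i ≠ 0 → a - Finsupp.single i 1 ∈ G) → (∀ a ∈ C, a.support ⊆ s) →
      (C.card : ℚ) ≤ gq j G.card := by
  induction s using Finset.induction_on with
  | empty =>
    intro G C hC _ hs
    have hCe : C = ∅ := by
      rw [Finset.eq_empty_iff_forall_notMem]
      intro a ha
      have h1 : a = 0 := by
        rw [← Finsupp.support_eq_empty]
        exact Finset.subset_empty.1 (hs a ha)
      have h2 := hC a ha
      rw [h1, map_zero] at h2
      omega
    rw [hCe, Finset.card_empty, Nat.cast_zero]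
    exact gq_nonneg _ _
  | insert v s' hv hin =>
    intro G C hC hsh hs
    have hC01 : (C.filter (fun a => a v = 0)).card + (C.filter (fun a => ¬ a v = 0)).card =
        C.card := Finset.card_filter_add_card_filter_not _
    have hG01 : (G.filter (fun a => a v = 0)).card + (G.filter (fun a => ¬ a v = 0)).card =
        G.card := Finset.card_filter_add_card_filter_not _
    have hC0 : ((C.filter (fun a => a v = 0)).card : ℚ) ≤
        gq j (G.filter (fun a => a v = 0)).card := by
      apply hin
      · intro a ha
        exact hC a (Finset.mem_filter.1 ha).1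
      · intro a ha i hi
        rw [Finset.mem_filter] at ha ⊢
        refine ⟨hsh a ha.1 i hi, ?_⟩
        rw [mac_apply, ha.2]
        split_ifs <;> rfl
      · intro a ha i hi
        rw [Finset.mem_filter] at ha
        have h1 := hs a ha.1 hi
        rw [Finset.mem_insert] at h1
        rcases h1 with rfl | h1
        · rw [Finsupp.mem_support_iff] at hi
          exact absurd ha.2 hi
        · exact h1
    have hinj : Set.InjOn (fun a : σ →₀ ℕ => a - Finsupp.single v 1)
        (C.filter (fun a => ¬ a v = 0)) := by
      intro a ha b hb hab
      have ha' : a v ≠ 0 := (Finset.mem_filter.1 ha).2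
      have hb' : b v ≠ 0 := (Finset.mem_filter.1 hb).2
      have hab' : a - Finsupp.single v 1 = b - Finsupp.single v 1 := hab
      rw [← mac_cancel ha', ← mac_cancel hb', hab']
    have hC1G : (C.filter (fun a => ¬ a v = 0)).card ≤ G.card := by
      rw [← Finset.card_image_of_injOn hinj]
      apply Finset.card_le_card
      intro b hb
      rw [Finset.mem_image] at hb
      obtain ⟨a, ha, rfl⟩ := hb
      rw [Finset.mem_filter] at ha
      exact hsh a ha.1 v ha.2
    rcases Nat.lt_or_ge j 2 with hj2 | hj2
    · have hj1 : j = 1 := by omega
      subst hj1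
      by_cases hne : (C.filter (fun a => ¬ a v = 0)) = ∅
      · have h1 : C.card = (C.filter (fun a => a v = 0)).card := by
          rw [← hC01, hne, Finset.card_empty, add_zero]
        rw [h1]
        refine hC0.trans (gq_mono ?_)
        omega
      · obtain ⟨M, hM⟩ := Finset.nonempty_iff_ne_empty.2 hne
        rw [Finset.mem_filter] at hM
        have hd : 1 ≤ (G.filter (fun a => ¬ a v = 0)).card := by
          have hdeg := mac_degree hM.2
          rw [hC M hM.1] at hdeg
          have hN : M - Finsupp.single v 1 ≠ 0 := by
            intro h0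
            rw [h0, map_zero] at hdeg
            omega
          obtain ⟨i, hi⟩ := Finsupp.ne_iff.1 hN
          rw [Finsupp.zero_apply, mac_apply] at hi
          have hMi : M i ≠ 0 := by
            split_ifs at hi with h1 <;> omega
          apply Finset.card_pos.2
          refine ⟨M - Finsupp.single i 1, Finset.mem_filter.2 ⟨hsh M hM.1 i hMi, ?_⟩⟩
          rw [mac_apply]
          split_ifs with h1
          · subst h1
            simpa using hi
          · exact hM.2
        have h1 : gq 1 (G.filter (fun a => a v = 0)).card ≤ gq 1 (G.card - 1) := by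
          apply gq_mono
          omega
        have h2 : gq 1 (G.card - 1) + G.card = gq 1 G.card := by
          have h3 : 1 ≤ G.card := by omega
          rw [gq_one, gq_one, Nat.cast_sub h3]
          push_cast
          ring
        have h3 : (C.card : ℚ) = (C.filter (fun a => a v = 0)).card +
            (C.filter (fun a => ¬ a v = 0)).card := by
          rw [← hC01]
          push_cast
          ring
        have h4 : ((C.filter (fun a => ¬ a v = 0)).card : ℚ) ≤ G.card := by exact_mod_cast hC1G
        rw [h3, ← h2]
        linarith
    · obtain ⟨j', rfl⟩ : ∃ j', j = j' + 1 := ⟨j - 1, by omega⟩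
      have hj' : 1 ≤ j' := by omega
      have hC1 : ((C.filter (fun a => ¬ a v = 0)).card : ℚ) ≤
          gq j' (G.filter (fun a => ¬ a v = 0)).card := by
        have h1 := ih ((G.filter (fun a => ¬ a v = 0)).image (fun a => a - Finsupp.single v 1))
          ((C.filter (fun a => ¬ a v = 0)).image (fun a => a - Finsupp.single v 1)) hj2 ?_ ?_
        · rw [Finset.card_image_of_injOn hinj] at h1
          rw [Nat.add_sub_cancel] at h1
          exact h1.trans (gq_mono Finset.card_image_le)
        · intro b hb
          rw [Finset.mem_image] at hb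
          obtain ⟨a, ha, rfl⟩ := hb
          rw [Finset.mem_filter] at ha
          have h2 := mac_degree ha.2
          rw [hC a ha.1] at h2
          omega
        · intro b hb i hi
          rw [Finset.mem_image] at hb
          obtain ⟨a, ha, rfl⟩ := hb
          rw [Finset.mem_filter] at ha
          rw [mac_apply] at hi
          have hai : a i ≠ 0 := by
            split_ifs at hi with h1 <;> omega
          rw [Finset.mem_image]
          refine ⟨a - Finsupp.single i 1, Finset.mem_filter.2 ⟨hsh a ha.1 i hai, ?_⟩,
            tsub_right_comm⟩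
          rw [mac_apply]
          split_ifs with h1
          · subst h1
            simpa using hi
          · exact ha.2
      have hstep := gq_step hj' (G.filter (fun a => a v = 0)).card
        (G.filter (fun a => ¬ a v = 0)).card
      rw [hG01] at hstep
      have h3 : (C.card : ℚ) = (C.filter (fun a => a v = 0)).card +
          (C.filter (fun a => ¬ a v = 0)).card := by
        rw [← hC01]
        push_cast
        ring
      have h4 : ((C.filter (fun a => ¬ a v = 0)).card : ℚ) ≤
          ((G.filter (fun a => a v = 0)).card : ℚ) + (G.filter (fun a => ¬ a v = 0)).card := by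
        have h5 : ((C.filter (fun a => ¬ a v = 0)).card : ℚ) ≤ G.card := by exact_mod_cast hC1G
        rw [← hG01] at h5
        push_cast at h5
        exact h5
      have h6 := le_min h4 hC1
      rw [h3]
      linarith

theorem macaulay {σ : Type*} [DecidableEq σ] (j : ℕ) (hj : 1 ≤ j) (G C : Finset (σ →₀ ℕ))
    (hC : ∀ a ∈ C, a.degree = j + 1)
    (h : ∀ a ∈ C, ∀ i, a i ≠ 0 → a - Finsupp.single i 1 ∈ G) :
    (C.card : ℚ) ≤ gq j G.card := by
  induction j using Nat.strong_induction_on generalizing G C with
  | _ j ih =>
    apply mac_inner j hj _ (C.biUnion Finsupp.support) G C hC h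
    · intro a ha
      exact Finset.subset_biUnion_of_mem (fun a : σ →₀ ℕ => a.support) ha
    · intro G' C' hj2 hC' h'
      apply ih (j - 1) (by omega) (by omega) G' C' _ h'
      intro a ha
      rw [hC' a ha]
      omega

end Pool.Agent.Helper733.HS
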