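import Pool.Agent.Helper733.HS.C4
import Pool.Agent.Helper733.HS.Mac

set_option autoImplicit false

open Finset

namespace Pool.Agent.Helper733.HS

namespace Core

variable {σ : Type} [DecidableEq σ] (C : Core σ)

theorem h_two_le : C.h 2 ≤ C.d := by
  unfold h d
  apply Finset.card_le_card_of_injOn C.cls
  · intro a ha
    have ha' := Finset.mem_filter.1 ha
    exact (C.deg_two ha'.1 ha'.2).1
  · intro a ha b hb hab
    have ha' := Finset.mem_filter.1 ha
    have hb' := Finset.mem_filter.1 hb
    exact C.inj a ha'.1 b hb'.1 hab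
      ((C.deg_two ha'.1 ha'.2).2.trans (C.deg_two hb'.1 hb'.2).2.symm)

theorem h_two_three : C.h 2 + C.h 3 + 2 ≤ C.m := by
  obtain ⟨x0, hx0, hcl, -⟩ := C.exists_low
  have hX0 : x0 ∈ C.X := C.Gen_sub hx0
  have h1 : C.h 2 + C.h 3 = (C.O.filter (fun a => a.degree = 2 ∨ a.degree = 3)).card := by
    unfold h
    rw [Finset.filter_or, Finset.card_union_of_disjoint]
    rw [Finset.disjoint_filter]
    intro a _ h2 h3
    omega
  have h2 : (C.O.filter (fun a => a.degree = 2 ∨ a.degree = 3)).card ≤ (C.X.erase x0).card := by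
    apply Finset.card_le_card_of_injOn C.cls
    · intro a ha
      have ha' := Finset.mem_filter.1 ha
      have hd : 2 ≤ a.degree := by rcases ha'.2 with h | h <;> omega
      have hne : a ≠ 0 := by
        rintro rfl
        simp at hd
      rw [Finset.mem_coe, Finset.mem_erase]
      refine ⟨?_, C.cls_mem a ha'.1 hne⟩
      intro hx
      have h3 := C.two_le_c ha'.1 hd
      have h4 := C.c_le_cl ha'.1 hne
      rw [hx, hcl] at h4
      omega
    · intro a ha b hb hab
      have ha' := Finset.mem_filter.1 ha
      have hb' := Finset.mem_filter.1 hb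
      rcases lt_trichotomy (C.pos a) (C.pos b) with h | h | h
      · have := C.deg_gap ha'.1 hb'.1 hab h
        rcases ha'.2 with h5 | h5 <;> rcases hb'.2 with h6 | h6 <;> omega
      · exact C.inj a ha'.1 b hb'.1 hab h
      · have := C.deg_gap hb'.1 ha'.1 hab.symm h
        rcases ha'.2 with h5 | h5 <;> rcases hb'.2 with h6 | h6 <;> omega
  have h3 : (C.X.erase x0).card + 1 = C.X.card := Finset.card_erase_add_one hX0
  unfold m
  omega

theorem h_two_F : C.h 2 ≤ F C.T.card 2 := by
  unfold h F
  rw [← Finset.card_finsuppAntidiag_nat_eq_multichoose]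
  apply Finset.card_le_card
  intro a ha
  have ha' := Finset.mem_filter.1 ha
  rw [Finset.mem_finsuppAntidiag]
  have hs : a.support ⊆ C.T := fun i hi => C.supp a ha'.1 i (Finsupp.mem_support_iff.1 hi)
  refine ⟨?_, hs⟩
  rw [← ha'.2, Finsupp.degree]
  symm
  apply Finset.sum_subset hs
  intro i _ hi
  simpa using hi

end Core

end Pool.Agent.Helper733.HS
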