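import Pool.Agent.Helper733.HS.C5
import Pool.Agent.Helper733.HS.Mac

set_option autoImplicit false

open Finset

namespace Pool.Agent.Helper733.HS

namespace Core

variable {σ : Type} [DecidableEq σ] (C : Core σ)

private theorem aux_shadow {P : Finset (σ →₀ ℕ)} (hP : C.Ideal' P) {a : σ →₀ ℕ} {j : ℕ} (ha : a ∈ P)
    (hd : a.degree = j + 1) {i : σ} (hi : a i ≠ 0) : rm a i ∈ P ∧ (rm a i).degree = j := by
  refine ⟨hP.down a ha i hi, ?_⟩
  have := degree_rm hi
  omega

/-- growth with an integer number of letters -/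
theorem level_le {P : Finset (σ →₀ ℕ)} (hP : C.Ideal' P) {K j0 : ℕ} (hj0 : 1 ≤ j0) (hK : 1 ≤ K)
    (h0 : (P.filter (fun a => a.degree = j0)).card ≤ F K j0) {j : ℕ} (hj : j0 ≤ j) :
    (P.filter (fun a => a.degree = j)).card ≤ F K j := by
  induction j, hj using Nat.le_induction with
  | base => exact h0
  | succ j hj ih =>
    have hj1 : 1 ≤ j := hj0.trans hj
    have h1 := macaulay j hj1 (P.filter (fun a => a.degree = j)) (P.filter (fun a => a.degree = j + 1))
      (fun a ha => (Finset.mem_filter.1 ha).2) (by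
        intro a ha i hi
        rw [Finset.mem_filter] at ha
        exact Finset.mem_filter.2 (C.aux_shadow hP ha.1 ha.2 hi))
    have h2 : gq j (P.filter (fun a => a.degree = j)).card ≤ gq j (F K j) := gq_mono ih
    rw [gq_F hj1] at h2
    exact_mod_cast h1.trans h2

private theorem aux_gq_add (j n k : ℕ) : gq j n + k ≤ gq j (n + k) := by
  unfold gq
  have h1 : (gam j n : ℚ) ≤ gam j (n + k) := by exact_mod_cast gam_mono (Nat.le_add_right n k)
  have h2 : (gam j n : ℚ) / j ≤ (gam j (n + k) : ℚ) / j := div_le_div_of_nonneg_right h1 (by positivity)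
  push_cast
  linarith

/-- the cut bound -/
theorem cut {P : Finset (σ →₀ ℕ)} (hP : C.Ideal' P) {K t : ℕ} (ht : 1 ≤ t) (hK : 1 ≤ K)
    (h0 : C.d + 1 - t ≤ F K (t + 1)) (j : ℕ) :
    (P.filter (fun a => a.degree = j ∧ t < C.c a)).card ≤ F K j := by
  obtain ⟨Λ, hΛ⟩ : ∃ Λ, Λ = P.filter (fun a => C.cls a ∈ C.L ∧ C.c a = t + 1) := ⟨_, rfl⟩
  obtain ⟨S, hS⟩ : ∃ S : ℕ → Finset (σ →₀ ℕ), S = fun j => P.filter (fun a => a.degree = j ∧ t < C.c a) :=
    ⟨_, rfl⟩
  have hSm : ∀ j a, a ∈ S j ↔ a ∈ P ∧ a.degree = j ∧ t < C.c a := by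
    intro j a; rw [hS]; exact Finset.mem_filter
  have hΛm : ∀ a, a ∈ Λ ↔ a ∈ P ∧ C.cls a ∈ C.L ∧ C.c a = t + 1 := by
    intro a; rw [hΛ]; exact Finset.mem_filter
  have hΛcard : Λ.card ≤ C.d + 1 - t := by
    refine le_trans ?_ (C.A_card t ht)
    refine Finset.card_le_card_of_injOn C.cls ?_ ?_
    · intro a ha
      rw [Finset.mem_coe, hΛm] at ha
      rw [Finset.mem_coe, Finset.mem_filter]
      refine ⟨ha.2.1, ?_⟩
      have h1 := C.c_le_cl (hP.sub ha.1) (C.ne_zero_of_cls (C.L_sub ha.2.1))
      omega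
    · intro a ha b hb hab
      rw [Finset.mem_coe, hΛm] at ha hb
      have haO := hP.sub ha.1
      have hbO := hP.sub hb.1
      rcases lt_trichotomy (C.pos a) (C.pos b) with h | h | h
      · have := C.mono a haO b hbO hab h
        omega
      · exact C.inj a haO b hbO hab h
      · have := C.mono b hbO a haO hab.symm h
        omega
  have hle : ∀ a ∈ P, C.c a ≤ a.degree := by
    intro a ha
    have := C.deg a (hP.sub ha)
    omega
  have hempty : ∀ j, j ≤ t → S j = ∅ := by
    intro j hj
    rw [Finset.eq_empty_iff_forall_notMem]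
    intro a ha
    rw [hSm] at ha
    have := hle a ha.1
    omega
  have hkey : ∀ j, 1 ≤ j → ∀ a ∈ S (j + 1), a ∉ Λ → ∀ i, a i ≠ 0 → rm a i ∈ S j := by
    intro j hj a ha hna i hi
    rw [hSm] at ha
    obtain ⟨haP, had, hac⟩ := ha
    have hsh := C.aux_shadow hP haP had hi
    rw [hSm]
    refine ⟨hsh.1, hsh.2, ?_⟩
    have hr0 : rm a i ≠ 0 := rm_ne_zero hi (by omega)
    have ha0 : a ≠ 0 := by
      rintro rfl
      exact hi rfl
    have haO := hP.sub haP
    rcases C.mem_Gen_or_L (C.cls_mem a haO ha0) with hg | hl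
    · have := C.c_step_Gen haO hi hr0 hg
      omega
    · have h1 := C.c_step haO hi hr0
      have h2 : C.c a ≠ t + 1 := fun h => hna ((hΛm a).2 ⟨haP, hl, h⟩)
      omega
  have hmain : ∀ j, t + 1 ≤ j → ∀ b, (∑ i ∈ range (j + 1), (Λ.filter (fun a => a.degree = i)).card) + b
      ≤ F K (t + 1) → (S j).card + b ≤ F K j := by
    intro j hj
    induction j, hj using Nat.le_induction with
    | base =>
      intro b hb
      have h1 : S (t + 1) ⊆ Λ.filter (fun a => a.degree = t + 1) := by
        intro a ha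
        rw [Finset.mem_filter]
        have ha' := (hSm _ _).1 ha
        refine ⟨?_, ha'.2.1⟩
        by_contra hna
        have ha0 : a ≠ 0 := by
          rintro rfl
          have := ha'.2.1
          simp at this
        obtain ⟨i, hi⟩ := Finsupp.ne_iff.1 ha0
        have := hkey t ht a ha hna i (by simpa using hi)
        rw [hempty t le_rfl] at this
        simp at this
      have h2 := Finset.card_le_card h1
      have h3 : (Λ.filter (fun a => a.degree = t + 1)).card ≤
          ∑ i ∈ range (t + 1 + 1), (Λ.filter (fun a => a.degree = i)).card :=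
        Finset.single_le_sum (f := fun i => (Λ.filter (fun a => a.degree = i)).card)
          (fun i _ => Nat.zero_le _) (Finset.mem_range.2 (by omega))
      omega
    | succ j hj ih =>
      intro b hb
      have hj1 : 1 ≤ j := by omega
      rw [Finset.sum_range_succ] at hb
      have h1 := ih ((Λ.filter (fun a => a.degree = j + 1)).card + b) (by omega)
      have h2 := macaulay j hj1 (S j) (S (j + 1) \ Λ)
        (fun a ha => ((hSm _ _).1 (Finset.mem_sdiff.1 ha).1).2.1) (by
          intro a ha i hi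
          rw [Finset.mem_sdiff] at ha
          exact hkey j hj1 a ha.1 ha.2 i hi)
      have h3 : (S (j + 1)).card ≤ (Λ.filter (fun a => a.degree = j + 1)).card + (S (j + 1) \ Λ).card := by
        have h4 : S (j + 1) ⊆ Λ.filter (fun a => a.degree = j + 1) ∪ (S (j + 1) \ Λ) := by
          intro a ha
          by_cases hΛa : a ∈ Λ
          · exact Finset.mem_union_left _ (Finset.mem_filter.2 ⟨hΛa, ((hSm _ _).1 ha).2.1⟩)
          · exact Finset.mem_union_right _ (Finset.mem_sdiff.2 ⟨ha, hΛa⟩)
        exact (Finset.card_le_card h4).trans (Finset.card_union_le _ _)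
      have h5 := aux_gq_add j (S j).card ((Λ.filter (fun a => a.degree = j + 1)).card + b)
      have h6 : gq j ((S j).card + ((Λ.filter (fun a => a.degree = j + 1)).card + b)) ≤ gq j (F K j) :=
        gq_mono h1
      rw [gq_F hj1] at h6
      have h7 : ((S (j + 1)).card : ℚ) ≤ (Λ.filter (fun a => a.degree = j + 1)).card + (S (j + 1) \ Λ).card := by
        exact_mod_cast h3
      have h8 : (((S (j + 1)).card + b : ℕ) : ℚ) ≤ (F K (j + 1) : ℚ) := by
        push_cast at h5 ⊢
        linarith
      exact_mod_cast h8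
  have hgoal : (S j).card ≤ F K j := by
    rcases Nat.lt_or_ge t j with hj | hj
    · have h1 : (∑ i ∈ range (j + 1), (Λ.filter (fun a => a.degree = i)).card) ≤ Λ.card := by
        rw [Finset.sum_card_fiberwise_eq_card_filter]
        exact Finset.card_filter_le _ _
      have := hmain j hj 0 (by omega)
      omega
    · rw [hempty j hj]; simp
  rw [hS] at hgoal
  exact hgoal

end Core

end Pool.Agent.Helper733.HS
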