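import Pool.Agent.Helper733.HS.C6

set_option autoImplicit false

open Finset

namespace Pool.Agent.Helper733.HS

namespace Core

variable {σ : Type} [DecidableEq σ] (C : Core σ)

private theorem level_gam_ne {a : σ →₀ ℕ} {j : ℕ} (hj : 1 ≤ j) (h : a.degree = j) : a ≠ 0 := by
  intro h0
  rw [h0] at h
  simp at h
  omega

private theorem level_gam_letter {a : σ →₀ ℕ} (h : a ≠ 0) : ∃ i, a i ≠ 0 := by
  by_contra hc
  apply h
  ext i
  by_contra h1
  exact hc ⟨i, h1⟩

private theorem level_gam_empty {P : Finset (σ →₀ ℕ)} (hP : C.Ideal' P)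
    (h2 : P.filter (fun a => a.degree = 2) = ∅) (k : ℕ) :
    P.filter (fun a => a.degree = 2 + k) = ∅ := by
  induction k with
  | zero => exact h2
  | succ k ih =>
    rw [Finset.filter_eq_empty_iff] at ih ⊢
    intro a ha hd
    obtain ⟨i, hi⟩ := level_gam_letter (level_gam_ne (by omega) hd)
    have h1 := hP.down a ha i hi
    have h3 := degree_rm hi
    exact ih h1 (by omega)

private theorem level_gam_card {P : Finset (σ →₀ ℕ)} (hP : C.Ideal' P) (j : ℕ) :
    (P.filter (fun a => a.degree = j)).card ≤ C.h j := by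
  unfold h
  exact Finset.card_le_card (Finset.filter_subset_filter _ hP.sub)

private theorem level_gam_kap {P : Finset (σ →₀ ℕ)} (hP : C.Ideal' P) {j t : ℕ} (hj : 3 ≤ j)
    (ht : 1 ≤ t) (htd : t ≤ C.d) :
    (P.filter (fun a => a.degree = j ∧ t < C.c a)).card ≤ F (C.kap t) j := by
  have hle : (P.filter (fun a => a.degree = j ∧ t < C.c a)).card ≤
      (P.filter (fun a => a.degree = j)).card := by
    apply Finset.card_le_card
    intro a ha
    rw [Finset.mem_filter] at ha ⊢
    exact ⟨ha.1, ha.2.1⟩
  have h1 : (P.filter (fun a => a.degree = j ∧ t < C.c a)).card ≤ F (kk 2 (C.h 2)) j := by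
    refine hle.trans ?_
    rcases Nat.eq_zero_or_pos (C.h 2) with h0 | h0
    · have h2 : P.filter (fun a => a.degree = 2) = ∅ := by
        rw [← Finset.card_eq_zero]
        have := level_gam_card C hP 2
        omega
      have h3 := level_gam_empty C hP h2 (j - 2)
      have h4 : 2 + (j - 2) = j := by omega
      rw [h4] at h3
      rw [h3]
      simp
    · exact level_le C hP (by norm_num) (kk_pos (by norm_num) h0)
        ((level_gam_card C hP 2).trans ((kk_le_iff (by norm_num)).1 le_rfl)) (by omega)
  have h2 : (P.filter (fun a => a.degree = j ∧ t < C.c a)).card ≤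
      F (max 1 (kk 3 (C.h 3))) j := by
    refine hle.trans ?_
    refine level_le C hP (j0 := 3) (by norm_num) (le_max_left _ _) ?_ hj
    exact (level_gam_card C hP 3).trans (((kk_le_iff (by norm_num)).1 le_rfl).trans
      (F_mono 3 (le_max_right _ _)))
  have h3 : (P.filter (fun a => a.degree = j ∧ t < C.c a)).card ≤
      F (kk (t + 1) (C.d + 1 - t)) j :=
    cut C hP ht (kk_pos (by omega) (by omega)) ((kk_le_iff (by omega)).1 le_rfl) j
  unfold kap
  rcases min_choice (kk 2 (C.h 2)) (min (max 1 (kk 3 (C.h 3))) (kk (t + 1) (C.d + 1 - t)))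
    with h | h
  · rw [h]; exact h1
  · rw [h]
    rcases min_choice (max 1 (kk 3 (C.h 3))) (kk (t + 1) (C.d + 1 - t)) with h | h
    · rw [h]; exact h2
    · rw [h]; exact h3

private theorem level_gam_rec {P : Finset (σ →₀ ℕ)} (hP : C.Ideal' P) {j : ℕ} (hj : 3 ≤ j) (k : ℕ) :
    ∀ t, t + k = C.d + 1 → 1 ≤ t →
      gam j (P.filter (fun a => a.degree = j ∧ t < C.c a)).card ≤
        ∑ a ∈ P.filter (fun a => a.degree = j ∧ t < C.c a), (C.kap (C.c a - 1) - 1) := by
  induction k with
  | zero =>
    intro t ht _
    have h0 : P.filter (fun a => a.degree = j ∧ t < C.c a) = ∅ := by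
      rw [Finset.filter_eq_empty_iff]
      rintro a ha ⟨hd, hc⟩
      have hne : a ≠ 0 := level_gam_ne (by omega) hd
      have h1 := C.c_le_cl (hP.sub ha) hne
      have h2 := C.cl_le (C.cls_mem a (hP.sub ha) hne)
      omega
    rw [h0]
    simp [gam]
  | succ k ih =>
    intro t ht ht1
    have hih := ih (t + 1) (by omega) (by omega)
    have e1 : (P.filter (fun a => a.degree = j ∧ t < C.c a)).filter (fun a => t + 1 < C.c a) =
        P.filter (fun a => a.degree = j ∧ t + 1 < C.c a) := by
      ext a
      simp only [Finset.mem_filter]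
      constructor
      · rintro ⟨⟨h1, h2, h3⟩, h4⟩
        exact ⟨h1, h2, h4⟩
      · rintro ⟨h1, h2, h4⟩
        exact ⟨⟨h1, h2, by omega⟩, h4⟩
    have hcard := Finset.card_filter_add_card_filter_not
      (s := P.filter (fun a => a.degree = j ∧ t < C.c a)) (fun a => t + 1 < C.c a)
    have hsum := Finset.sum_filter_add_sum_filter_not
      (P.filter (fun a => a.degree = j ∧ t < C.c a)) (fun a => t + 1 < C.c a)
      (fun a => C.kap (C.c a - 1) - 1)
    have hconst : ∑ a ∈ (P.filter (fun a => a.degree = j ∧ t < C.c a)).filter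
        (fun a => ¬ t + 1 < C.c a), (C.kap (C.c a - 1) - 1) =
        ((P.filter (fun a => a.degree = j ∧ t < C.c a)).filter
          (fun a => ¬ t + 1 < C.c a)).card * (C.kap t - 1) := by
      rw [← smul_eq_mul, ← Finset.sum_const]
      apply Finset.sum_congr rfl
      intro a ha
      simp only [Finset.mem_filter] at ha
      have h1 : C.c a - 1 = t := by omega
      rw [h1]
    rw [e1] at hcard hsum
    rw [hconst] at hsum
    have hg := gam_upper (j := j) (a := (P.filter (fun a => a.degree = j ∧ t + 1 < C.c a)).card)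
      (b := (P.filter (fun a => a.degree = j ∧ t < C.c a)).card) (K := C.kap t) (by omega)
      (by omega) (level_gam_kap C hP hj ht1 (by omega))
    have h5 : (P.filter (fun a => a.degree = j ∧ t < C.c a)).card -
        (P.filter (fun a => a.degree = j ∧ t + 1 < C.c a)).card =
        ((P.filter (fun a => a.degree = j ∧ t < C.c a)).filter
          (fun a => ¬ t + 1 < C.c a)).card := by omega
    rw [h5] at hg
    rw [← hsum]
    exact hg.trans (Nat.add_le_add_right hih _)

/-- bound for one level -/
theorem level_gam {P : Finset (σ →₀ ℕ)} (hP : C.Ideal' P) {j : ℕ} (hj : 3 ≤ j) :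
    gam j (P.filter (fun a => a.degree = j)).card ≤
      ∑ a ∈ P.filter (fun a => a.degree = j), (C.kap (C.c a - 1) - 1) := by
  have h := level_gam_rec C hP hj C.d 1 (by omega) le_rfl
  have e : P.filter (fun a => a.degree = j ∧ 1 < C.c a) = P.filter (fun a => a.degree = j) := by
    apply Finset.filter_congr
    intro a ha
    constructor
    · exact fun h => h.1
    · intro hd
      have := C.two_le_c (hP.sub ha) (by omega : 2 ≤ a.degree)
      exact ⟨hd, by omega⟩
  rw [e] at h
  exact h

end Core

end Pool.Agent.Helper733.HS
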