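import Pool.Agent.Helper733.HS.C7

set_option autoImplicit false

open Finset

namespace Pool.Agent.Helper733.HS

namespace Core

variable {σ : Type} [DecidableEq σ] (C : Core σ)

private theorem exists_deg_two : ∀ (n : ℕ) (a : σ →₀ ℕ), a ∈ C.O → a.degree = n + 2 →
    ∃ b ∈ C.O, b.degree = 2 := by
  intro n
  induction n with
  | zero => exact fun a ha hd => ⟨a, ha, hd⟩
  | succ n ih =>
    intro a ha hd
    have hne : ∃ i, a i ≠ 0 := by
      by_contra hcon
      push Not at hcon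
      have h0 : a = 0 := Finsupp.ext hcon
      rw [h0, map_zero] at hd
      omega
    obtain ⟨i, hi⟩ := hne
    refine ih (rm a i) (C.down a ha i hi) ?_
    have := degree_rm hi
    omega

private theorem h_two_pos_of {a : σ →₀ ℕ} (ha : a ∈ C.O) (h : 2 ≤ a.degree) : 1 ≤ C.h 2 := by
  obtain ⟨b, hb, hbd⟩ := C.exists_deg_two (a.degree - 2) a ha (by omega)
  unfold Core.h
  rw [Nat.one_le_iff_ne_zero, ← Nat.pos_iff_ne_zero, Finset.card_pos]
  exact ⟨b, Finset.mem_filter.2 ⟨hb, hbd⟩⟩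

private theorem h_two_pos (hd : 1 ≤ C.d) : 1 ≤ C.h 2 := by
  unfold d at hd
  obtain ⟨x, hx⟩ := Finset.card_pos.1 hd
  obtain ⟨a, ha, hax, -⟩ := C.left x (C.L_sub hx)
  refine C.h_two_pos_of ha ?_
  by_contra hcon
  have h0 : a ≠ 0 := C.ne_zero_of_cls (by rw [hax]; exact C.L_sub hx)
  have h1 : a.degree ≠ 0 := by
    intro h
    exact h0 (by
      have := Finsupp.degree_eq_zero_iff a
      exact this.1 h)
  obtain ⟨i, hi, rfl⟩ := C.eq_single_of_degree_one ha (by omega)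
  apply C.not_Gen_of_L hx
  rw [← hax]
  exact Finset.mem_image.2 ⟨i, hi, rfl⟩

private theorem kap_anti {t t' : ℕ} (h : t ≤ t') (h' : t' ≤ C.d) : C.kap t' ≤ C.kap t := by
  unfold kap
  refine min_le_min le_rfl (min_le_min le_rfl ?_)
  exact (kk_mono (by omega) (by omega : C.d + 1 - t' ≤ C.d + 1 - t)).trans
    (kk_anti (by omega) (by omega) (by omega))

private theorem kap_le (t : ℕ) : C.kap t ≤ kk 2 (C.h 2) := min_le_left _ _

private theorem kap_pos (hd : 1 ≤ C.d) {t : ℕ} (ht : t ≤ C.d) : 1 ≤ C.kap t := by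
  unfold kap
  refine le_min (kk_pos (by norm_num) (C.h_two_pos hd)) (le_min (le_max_left _ _) ?_)
  exact kk_pos (by omega) (by omega)

private theorem no_node (hd : C.d = 0) {a : σ →₀ ℕ} (ha : a ∈ C.O) (h : 2 ≤ a.degree) : False := by
  have := C.h_two_pos_of ha h
  have := C.h_two_le
  omega

private theorem left_card : (C.O.filter (fun a => 3 ≤ a.degree ∧ C.pos a = 0)).card + C.h 2 = C.d := by
  classical
  rw [← C.left_count]
  unfold h
  rw [← Finset.card_union_of_disjoint]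
  · congr 1
    ext a
    simp only [Finset.mem_union, Finset.mem_filter]
    constructor
    · rintro (⟨h1, h2, h3⟩ | ⟨h1, h2⟩)
      · exact ⟨h1, by omega, h3⟩
      · exact ⟨h1, by omega, (C.deg_two h1 h2).2⟩
    · rintro ⟨h1, h2, h3⟩
      by_cases h4 : a.degree = 2
      · exact Or.inr ⟨h1, h4⟩
      · exact Or.inl ⟨h1, by omega, h3⟩
  · rw [Finset.disjoint_left]
    intro a ha hb
    simp only [Finset.mem_filter] at ha hb
    omega

private theorem sum_left {P : Finset (σ →₀ ℕ)} (hP : C.Ideal' P) (hd : 1 ≤ C.d) :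
    ∑ a ∈ (P.filter (fun a => 3 ≤ a.degree)).filter (fun a => C.pos a = 0),
      ((C.kap (C.c a - 1) - 1 : ℕ) : ℚ) / a.degree ≤
      ((C.d : ℚ) - C.h 2) * (((kk 2 (C.h 2) : ℚ) - 1) / 3) := by
  have hk : 1 ≤ kk 2 (C.h 2) := kk_pos (by norm_num) (C.h_two_pos hd)
  have hc : ∀ a ∈ (P.filter (fun a => 3 ≤ a.degree)).filter (fun a => C.pos a = 0),
      ((C.kap (C.c a - 1) - 1 : ℕ) : ℚ) / a.degree ≤ ((kk 2 (C.h 2) : ℚ) - 1) / 3 := by
    intro a ha
    simp only [Finset.mem_filter] at ha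
    have h1 : ((C.kap (C.c a - 1) - 1 : ℕ) : ℚ) ≤ (kk 2 (C.h 2) : ℚ) - 1 := by
      have h2 : C.kap (C.c a - 1) - 1 ≤ kk 2 (C.h 2) - 1 := Nat.sub_le_sub_right (C.kap_le _) 1
      have h3 : ((C.kap (C.c a - 1) - 1 : ℕ) : ℚ) ≤ ((kk 2 (C.h 2) - 1 : ℕ) : ℚ) := by
        exact_mod_cast h2
      rwa [Nat.cast_sub hk, Nat.cast_one] at h3
    have h4 : (3 : ℚ) ≤ (a.degree : ℚ) := by exact_mod_cast ha.1.2
    exact div_le_div₀ (le_trans (Nat.cast_nonneg _) h1) h1 (by norm_num) h4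
  refine (Finset.sum_le_card_nsmul _ _ _ hc).trans ?_
  rw [nsmul_eq_mul]
  refine mul_le_mul_of_nonneg_right ?_ ?_
  · have h5 : ((P.filter (fun a => 3 ≤ a.degree)).filter (fun a => C.pos a = 0)).card ≤
        (C.O.filter (fun a => 3 ≤ a.degree ∧ C.pos a = 0)).card := by
      apply Finset.card_le_card
      intro a ha
      simp only [Finset.mem_filter] at ha ⊢
      exact ⟨hP.sub ha.1.1, ha.1.2, ha.2⟩
    have h6 := C.left_card
    have h7 : (((P.filter (fun a => 3 ≤ a.degree)).filter (fun a => C.pos a = 0)).card : ℚ) +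
        C.h 2 ≤ C.d := by
      exact_mod_cast (by omega : ((P.filter (fun a => 3 ≤ a.degree)).filter
        (fun a => C.pos a = 0)).card + C.h 2 ≤ C.d)
    linarith
  · have : (1 : ℚ) ≤ (kk 2 (C.h 2) : ℚ) := by exact_mod_cast hk
    exact div_nonneg (by linarith) (by norm_num)

private theorem sum_right {P : Finset (σ →₀ ℕ)} (hP : C.Ideal' P) (hd : 1 ≤ C.d) :
    ∑ a ∈ (P.filter (fun a => 3 ≤ a.degree)).filter (fun a => ¬ C.pos a = 0),
      ((C.kap (C.c a - 1) - 1 : ℕ) : ℚ) / a.degree ≤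
      ∑ r ∈ Icc 1 C.d, ((C.m : ℚ) - 2 - r) * ((C.kap r : ℚ) - 1) / (2 * r + 1) := by
  have key : ∀ a ∈ (P.filter (fun a => 3 ≤ a.degree)).filter (fun a => ¬ C.pos a = 0),
      a ∈ C.O ∧ a ≠ 0 ∧ 1 ≤ C.idx a ∧ C.idx a ≤ C.c a - 1 ∧ C.c a - 1 ≤ C.d ∧
      2 * C.idx a + 1 ≤ a.degree := by
    intro a ha
    simp only [Finset.mem_filter] at ha
    obtain ⟨⟨h1, h2⟩, h3⟩ := ha
    have hO := hP.sub h1
    have h0 : a ≠ 0 := by
      rintro rfl
      rw [map_zero] at h2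
      omega
    have h4 := (C.idx_pos_iff hO h0).2 (Nat.pos_of_ne_zero h3)
    have h5 := C.idx_lt_c hO h0
    have h6 := C.c_le_cl hO h0
    have h7 := C.cl_le (C.cls_mem a hO h0)
    have h8 := C.idx_le_pos hO h0
    have h9 := C.deg a hO
    exact ⟨hO, h0, h4, by omega, by omega, by omega⟩
  have hmaps : ∀ a ∈ (P.filter (fun a => 3 ≤ a.degree)).filter (fun a => ¬ C.pos a = 0),
      C.idx a ∈ Icc 1 C.d := by
    intro a ha
    obtain ⟨-, -, h1, h2, h3, -⟩ := key a ha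
    exact Finset.mem_Icc.2 ⟨h1, h2.trans h3⟩
  rw [← Finset.sum_fiberwise_of_maps_to hmaps]
  refine Finset.sum_le_sum fun r hr => ?_
  obtain ⟨hr1, hr2⟩ := Finset.mem_Icc.1 hr
  have hkr : 1 ≤ C.kap r := C.kap_pos hd hr2
  have hc : ∀ a ∈ ((P.filter (fun a => 3 ≤ a.degree)).filter (fun a => ¬ C.pos a = 0)).filter
      (fun a => C.idx a = r),
      ((C.kap (C.c a - 1) - 1 : ℕ) : ℚ) / a.degree ≤ ((C.kap r : ℚ) - 1) / (2 * r + 1) := by
    intro a ha
    obtain ⟨ha1, ha2⟩ := Finset.mem_filter.1 ha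
    obtain ⟨-, -, h1, h2, h3, h4⟩ := key a ha1
    rw [ha2] at h1 h2 h4
    have h5 : ((C.kap (C.c a - 1) - 1 : ℕ) : ℚ) ≤ (C.kap r : ℚ) - 1 := by
      have h6 : C.kap (C.c a - 1) - 1 ≤ C.kap r - 1 := Nat.sub_le_sub_right (C.kap_anti h2 h3) 1
      have h7 : ((C.kap (C.c a - 1) - 1 : ℕ) : ℚ) ≤ ((C.kap r - 1 : ℕ) : ℚ) := by
        exact_mod_cast h6
      rwa [Nat.cast_sub hkr, Nat.cast_one] at h7
    have h8 : (2 * (r : ℚ) + 1) ≤ (a.degree : ℚ) := by exact_mod_cast h4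
    exact div_le_div₀ (le_trans (Nat.cast_nonneg _) h5) h5 (by positivity) h8
  refine (Finset.sum_le_card_nsmul _ _ _ hc).trans ?_
  rw [nsmul_eq_mul, mul_div_assoc]
  have hkq : (1 : ℚ) ≤ (C.kap r : ℚ) := by exact_mod_cast hkr
  refine mul_le_mul_of_nonneg_right ?_ (div_nonneg (by linarith) (by positivity))
  have h9 := C.idx_count r hr1
  rw [if_pos hr2] at h9
  have h10 : (((P.filter (fun a => 3 ≤ a.degree)).filter (fun a => ¬ C.pos a = 0)).filter
      (fun a => C.idx a = r)).card ≤ (C.O.filter (fun a => a ≠ 0 ∧ C.idx a = r)).card := by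
    apply Finset.card_le_card
    intro a ha
    obtain ⟨ha1, ha2⟩ := Finset.mem_filter.1 ha
    obtain ⟨h1, h2, -⟩ := key a ha1
    exact Finset.mem_filter.2 ⟨h1, h2, ha2⟩
  have h11 : 2 + r ≤ C.m := by
    have := C.m_eq
    have := Finset.card_pos.2 C.hT
    omega
  have h12 : (((P.filter (fun a => 3 ≤ a.degree)).filter (fun a => ¬ C.pos a = 0)).filter
      (fun a => C.idx a = r)).card + 2 + r ≤ C.m := by omega
  have h13 : ((((P.filter (fun a => 3 ≤ a.degree)).filter (fun a => ¬ C.pos a = 0)).filter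
      (fun a => C.idx a = r)).card : ℚ) + 2 + r ≤ C.m := by exact_mod_cast h12
  linarith

theorem sum_cost {P : Finset (σ →₀ ℕ)} (hP : C.Ideal' P) :
    (C.h 2 : ℚ) * ((kk 2 (C.h 2) : ℚ) - 1) / 3 +
      ∑ a ∈ P.filter (fun a => 3 ≤ a.degree), ((C.kap (C.c a - 1) - 1 : ℕ) : ℚ) / a.degree ≤ C.Bd := by
  by_cases hd : C.d = 0
  · have h1 : P.filter (fun a => 3 ≤ a.degree) = ∅ := by
      apply Finset.filter_eq_empty_iff.2
      intro a ha h
      exact C.no_node hd (hP.sub ha) (by omega)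
    have h2 : C.h 2 = 0 := by have := C.h_two_le; omega
    unfold Bd
    rw [h1, h2, hd]
    simp
  · have hd1 : 1 ≤ C.d := Nat.one_le_iff_ne_zero.2 hd
    rw [← Finset.sum_filter_add_sum_filter_not (P.filter (fun a => 3 ≤ a.degree))
      (fun a => C.pos a = 0)]
    have h1 := C.sum_left hP hd1
    have h2 := C.sum_right hP hd1
    unfold Bd
    have h3 : (C.h 2 : ℚ) * ((kk 2 (C.h 2) : ℚ) - 1) / 3 +
        ((C.d : ℚ) - C.h 2) * (((kk 2 (C.h 2) : ℚ) - 1) / 3) =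
        (C.d : ℚ) * ((kk 2 (C.h 2) : ℚ) - 1) / 3 := by ring
    linarith

end Core

end Pool.Agent.Helper733.HS
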