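import Pool.Agent.Helper733.HS.C8

set_option autoImplicit false

open Finset

namespace Pool.Agent.Helper733.HS

namespace Core

variable {σ : Type} [DecidableEq σ] (C : Core σ)

private theorem cand_filter {P : Finset (σ →₀ ℕ)} (k j : ℕ) (hj : k ≤ j) :
    (P.filter (fun a => k ≤ a.degree)).filter (fun a => a.degree = j) =
      P.filter (fun a => a.degree = j) := by
  rw [Finset.filter_filter]
  apply Finset.filter_congr
  intro a _
  constructor
  · exact fun h => h.2
  · exact fun h => ⟨h ▸ hj, h⟩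

private theorem cand_P2 {P : Finset (σ →₀ ℕ)} (hP : C.Ideal' P) :
    (P.filter (fun a => a.degree = 2)).card = C.h 2 := by
  unfold h
  congr 1
  ext a
  rw [Finset.mem_filter, Finset.mem_filter]
  constructor
  · rintro ⟨h1, h2⟩
    exact ⟨hP.sub h1, h2⟩
  · rintro ⟨h1, h2⟩
    exact ⟨hP.left a h1 (C.deg_two h1 h2).2, h2⟩

private theorem cand_step {P : Finset (σ →₀ ℕ)} (D : Finset (σ →₀ ℕ))
    (hD : ∀ a ∈ D, 3 ≤ a.degree ∧ ∀ i, a i ≠ 0 → rm a i ∈ P) (j : ℕ) (hj : 2 ≤ j) :
    ((D.filter (fun a => a.degree = j + 1)).card : ℚ) ≤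
      (P.filter (fun a => a.degree = j)).card +
        (gam j (P.filter (fun a => a.degree = j)).card : ℚ) / j := by
  have h := macaulay j (by omega) (P.filter (fun a => a.degree = j))
    (D.filter (fun a => a.degree = j + 1)) (fun a ha => (Finset.mem_filter.1 ha).2)
    (fun a ha i hi => by
      obtain ⟨h1, h2⟩ := Finset.mem_filter.1 ha
      refine Finset.mem_filter.2 ⟨(hD a h1).2 i hi, ?_⟩
      have h3 := Core.degree_rm hi
      unfold rm at h3
      omega)
  exact h

/-- number of candidates over an order ideal -/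
theorem cand {P : Finset (σ →₀ ℕ)} (hP : C.Ideal' P) (D : Finset (σ →₀ ℕ))
    (hD : ∀ a ∈ D, 3 ≤ a.degree ∧ ∀ i, a i ≠ 0 → rm a i ∈ P) :
    (D.card : ℚ) ≤ (P.filter (fun a => 2 ≤ a.degree)).card + C.Bd := by
  classical
  set N := max 2 ((D ∪ P).sup (fun a => a.degree)) with hN
  have hN2 : 2 ≤ N := le_max_left _ _
  have hND : ∀ a ∈ D, a.degree ≤ N := fun a ha =>
    (Finset.le_sup (f := fun a : σ →₀ ℕ => a.degree) (Finset.mem_union_left _ ha)).trans
      (le_max_right _ _)
  have hNP : ∀ a ∈ P, a.degree ≤ N := fun a ha =>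
    (Finset.le_sup (f := fun a : σ →₀ ℕ => a.degree) (Finset.mem_union_right _ ha)).trans
      (le_max_right _ _)
  have e1 : D.card = ∑ j ∈ Icc 2 N, (D.filter (fun a => a.degree = j + 1)).card := by
    rw [Finset.card_eq_sum_card_fiberwise (f := fun a : σ →₀ ℕ => a.degree - 1) (t := Icc 2 N)]
    · apply Finset.sum_congr rfl
      intro j _
      congr 1
      apply Finset.filter_congr
      intro a ha
      have := (hD a ha).1
      omega
    · intro a ha
      have h1 := (hD a ha).1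
      have h2 := hND a ha
      rw [Finset.mem_coe, Finset.mem_Icc]
      show 2 ≤ a.degree - 1 ∧ a.degree - 1 ≤ N
      omega
  have e2 : (P.filter (fun a => 2 ≤ a.degree)).card =
      ∑ j ∈ Icc 2 N, (P.filter (fun a => a.degree = j)).card := by
    rw [Finset.card_eq_sum_card_fiberwise (f := fun a : σ →₀ ℕ => a.degree) (t := Icc 2 N)]
    · apply Finset.sum_congr rfl
      intro j hj
      rw [cand_filter 2 j (Finset.mem_Icc.1 hj).1]
    · intro a ha
      obtain ⟨h1, h2⟩ := Finset.mem_filter.1 ha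
      rw [Finset.mem_coe, Finset.mem_Icc]
      exact ⟨h2, hNP a h1⟩
  have e3 : ∑ a ∈ P.filter (fun a => 3 ≤ a.degree),
      ((C.kap (C.c a - 1) - 1 : ℕ) : ℚ) / a.degree =
      ∑ j ∈ Icc 3 N, ∑ a ∈ P.filter (fun a => a.degree = j),
        ((C.kap (C.c a - 1) - 1 : ℕ) : ℚ) / a.degree := by
    rw [← Finset.sum_fiberwise_of_maps_to (g := fun a : σ →₀ ℕ => a.degree) (t := Icc 3 N)]
    · apply Finset.sum_congr rfl
      intro j hj
      rw [cand_filter 3 j (Finset.mem_Icc.1 hj).1]
    · intro a ha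
      obtain ⟨h1, h2⟩ := Finset.mem_filter.1 ha
      rw [Finset.mem_Icc]
      exact ⟨h2, hNP a h1⟩
  have e4 : Icc 2 N = insert 2 (Icc 3 N) := by
    ext j
    rw [Finset.mem_insert, Finset.mem_Icc, Finset.mem_Icc]
    omega
  have h2 : (gam 2 (P.filter (fun a => a.degree = 2)).card : ℚ) / (2 : ℕ) ≤
      (C.h 2 : ℚ) * ((kk 2 (C.h 2) : ℚ) - 1) / 3 := by
    rw [cand_P2 C hP]
    have hc := gq_chord (j := 2) (d := C.h 2) (K := kk 2 (C.h 2)) (by norm_num)
      ((kk_le_iff (by norm_num)).1 le_rfl)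
    unfold gq at hc
    push_cast at hc ⊢
    linarith
  have h3 : ∀ j ∈ Icc 3 N, (gam j (P.filter (fun a => a.degree = j)).card : ℚ) / j ≤
      ∑ a ∈ P.filter (fun a => a.degree = j),
        ((C.kap (C.c a - 1) - 1 : ℕ) : ℚ) / a.degree := by
    intro j hj
    have hj3 := (Finset.mem_Icc.1 hj).1
    have hl := C.level_gam hP hj3
    have e5 : ∑ a ∈ P.filter (fun a => a.degree = j),
        ((C.kap (C.c a - 1) - 1 : ℕ) : ℚ) / a.degree =
        ((∑ a ∈ P.filter (fun a => a.degree = j), (C.kap (C.c a - 1) - 1) : ℕ) : ℚ) / j := by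
      rw [Nat.cast_sum, Finset.sum_div]
      apply Finset.sum_congr rfl
      intro a ha
      rw [(Finset.mem_filter.1 ha).2]
    rw [e5]
    apply div_le_div_of_nonneg_right _ (Nat.cast_nonneg j)
    exact_mod_cast hl
  have hsc := C.sum_cost hP
  rw [e3] at hsc
  calc (D.card : ℚ) = ∑ j ∈ Icc 2 N, ((D.filter (fun a => a.degree = j + 1)).card : ℚ) := by
        rw [e1, Nat.cast_sum]
    _ ≤ ∑ j ∈ Icc 2 N, (((P.filter (fun a => a.degree = j)).card : ℚ) +
        (gam j (P.filter (fun a => a.degree = j)).card : ℚ) / j) :=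
        Finset.sum_le_sum fun j hj => cand_step D hD j (Finset.mem_Icc.1 hj).1
    _ = (P.filter (fun a => 2 ≤ a.degree)).card +
        ∑ j ∈ Icc 2 N, (gam j (P.filter (fun a => a.degree = j)).card : ℚ) / j := by
        rw [Finset.sum_add_distrib, e2, Nat.cast_sum]
    _ = (P.filter (fun a => 2 ≤ a.degree)).card +
        ((gam 2 (P.filter (fun a => a.degree = 2)).card : ℚ) / (2 : ℕ) +
        ∑ j ∈ Icc 3 N, (gam j (P.filter (fun a => a.degree = j)).card : ℚ) / j) := by
        rw [e4, Finset.sum_insert]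
        rw [Finset.mem_Icc]
        omega
    _ ≤ (P.filter (fun a => 2 ≤ a.degree)).card + C.Bd := by
        have h4 := Finset.sum_le_sum h3
        linarith

end Core

end Pool.Agent.Helper733.HS
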