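import Pool.Agent.Helper733.HS.MacDef

set_option autoImplicit false

open Finset

namespace Pool.Agent.Helper733.HS

/-- `a` with the letter `i` removed once -/
noncomputable def rm {σ : Type} (a : σ →₀ ℕ) (i : σ) : σ →₀ ℕ := a - Finsupp.single i 1

/-- Abstract structure of the corners of a numerical semigroup. `O` is the set of nodes (standard
monomials without the letter of the multiplicity), `T` the set of letters, `X` the set of nonzero
classes; `pos`, `c` are position and offset in the class, `inc` the jump of the offset. -/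
structure Core (σ : Type) [DecidableEq σ] where
  T : Finset σ
  O : Finset (σ →₀ ℕ)
  X : Finset ℕ
  cls : (σ →₀ ℕ) → ℕ
  pos : (σ →₀ ℕ) → ℕ
  c : (σ →₀ ℕ) → ℕ
  inc : (σ →₀ ℕ) → ℕ
  hT : T.Nonempty
  zero_mem : 0 ∈ O
  single_mem : ∀ i ∈ T, Finsupp.single i 1 ∈ O
  supp : ∀ a ∈ O, ∀ i, a i ≠ 0 → i ∈ T
  down : ∀ a ∈ O, ∀ i, a i ≠ 0 → rm a i ∈ O
  deg : ∀ a ∈ O, a.degree = c a + pos a
  cls_mem : ∀ a ∈ O, a ≠ 0 → cls a ∈ X
  cls_zero : cls 0 ∉ X
  inj : ∀ a ∈ O, ∀ b ∈ O, cls a = cls b → pos a = pos b → a = b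
  mono : ∀ a ∈ O, ∀ b ∈ O, cls a = cls b → pos a < pos b → c a < c b
  pos_single : ∀ i ∈ T, pos (Finsupp.single i 1) = 0
  pos_le : ∀ a ∈ O, ∀ i, a i ≠ 0 → rm a i ≠ 0 → pos (rm a i) ≤ pos a
  pos_lt : ∀ a ∈ O, ∀ i, a i ≠ 0 → rm a i ≠ 0 →
    (∃ j ∈ T, cls a = cls (Finsupp.single j 1)) → pos (rm a i) < pos a
  lift : ∀ a ∈ O, ∀ i, a i ≠ 0 → ∀ b ∈ O, cls b = cls (rm a i) → pos (rm a i) < pos b →
    ∃ b' ∈ O, cls b' = cls a ∧ c a < c b'
  left : ∀ x ∈ X, ∃ a ∈ O, cls a = x ∧ pos a = 0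
  inc_prev : ∀ a ∈ O, 0 < pos a → ∃ b ∈ O, cls b = cls a ∧ pos b < pos a ∧ c b + inc a = c a ∧
    ∀ b' ∈ O, cls b' = cls a → pos b' < pos a → pos b' ≤ pos b
  inc_mono : ∀ a ∈ O, ∀ i, a i ≠ 0 → 0 < pos (rm a i) → inc a ≤ inc (rm a i)

namespace Core

variable {σ : Type} [DecidableEq σ] (C : Core σ)

/-- classes of the letters -/
noncomputable def Gen : Finset ℕ := C.T.image (fun i => C.cls (Finsupp.single i 1))

/-- the other nonzero classes -/
noncomputable def L : Finset ℕ := C.X \ C.Gen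

/-- number of the other nonzero classes -/
noncomputable def d : ℕ := C.L.card

/-- the multiplicity -/
noncomputable def m : ℕ := C.X.card + 1

/-- the node of largest position in the class `x` -/
noncomputable def last (x : ℕ) : σ →₀ ℕ :=
  if h : ∃ a ∈ C.O, C.cls a = x ∧ ∀ b ∈ C.O, C.cls b = x → C.pos b ≤ C.pos a then h.choose else 0

/-- offset of the last node -/
noncomputable def cl (x : ℕ) : ℕ := C.c (C.last x)

/-- degree of the last node -/
noncomputable def Dl (x : ℕ) : ℕ := (C.last x).degree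

/-- number of earlier nodes in the class of `a` -/
noncomputable def idx (a : σ →₀ ℕ) : ℕ := (C.O.filter (fun b => C.cls b = C.cls a ∧ C.pos b < C.pos a)).card

/-- number of nodes of degree `j` -/
noncomputable def h (j : ℕ) : ℕ := (C.O.filter (fun a => a.degree = j)).card

/-- an order ideal of nodes -/
structure Ideal' (P : Finset (σ →₀ ℕ)) : Prop where
  sub : P ⊆ C.O
  down : ∀ a ∈ P, ∀ i, a i ≠ 0 → rm a i ∈ P
  left : ∀ a ∈ C.O, C.pos a = 0 → a ∈ P

/-- bound for the number of letters at level `t` -/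
noncomputable def kap (t : ℕ) : ℕ := min (kk 2 (C.h 2)) (min (max 1 (kk 3 (C.h 3))) (kk (t + 1) (C.d + 1 - t)))

/-- the final bound -/
noncomputable def Bd : ℚ := (C.d : ℚ) * ((kk 2 (C.h 2) : ℚ) - 1) / 3 +
  ∑ r ∈ Icc 1 C.d, ((C.m : ℚ) - 2 - r) * ((C.kap r : ℚ) - 1) / (2 * r + 1)

end Core

end Pool.Agent.Helper733.HS
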