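import Pool.Agent.Helper733.HS.MacDef

set_option autoImplicit false

open Finset

namespace Pool.Agent.Helper733.HS

theorem F_zero {j : ℕ} (hj : 1 ≤ j) : F 0 j = 0 := by
  obtain ⟨j', rfl⟩ : ∃ j', j = j' + 1 := ⟨j - 1, by omega⟩
  exact Nat.multichoose_zero_succ j'
theorem F_one (j : ℕ) : F 1 j = 1 := Nat.multichoose_one j
theorem F_deg_one (K : ℕ) : F K 1 = K := Nat.multichoose_one_right K
theorem F_succ (K j : ℕ) : F (K + 1) (j + 1) = F K (j + 1) + F (K + 1) j :=
  Nat.multichoose_succ_succ K j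
theorem F_mul (K j : ℕ) : (j + 1) * F K (j + 1) = (K + j) * F K j := by
  unfold F
  rw [Nat.multichoose_eq, Nat.multichoose_eq]
  rcases Nat.eq_zero_or_pos (K + j) with h | h
  · have h1 : K = 0 := by omega
    have h2 : j = 0 := by omega
    subst h1; subst h2
    simp
  · obtain ⟨m, hm⟩ : ∃ m, K + j = m + 1 := ⟨K + j - 1, by omega⟩
    have e1 : K + (j + 1) - 1 = m + 1 := by omega
    have e2 : K + j - 1 = m := by omega
    rw [e1, e2, hm]
    have := Nat.add_one_mul_choose_eq m j
    rw [this, mul_comm]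
theorem F_mul' (K j : ℕ) : K * F (K + 1) j = (K + j) * F K j := by
  unfold F
  rw [Nat.multichoose_eq, Nat.multichoose_eq]
  rcases Nat.eq_zero_or_pos (K + j) with h | h
  · have h1 : K = 0 := by omega
    have h2 : j = 0 := by omega
    subst h1; subst h2
    simp
  · obtain ⟨m, hm⟩ : ∃ m, K + j = m + 1 := ⟨K + j - 1, by omega⟩
    have e1 : K + 1 + j - 1 = m + 1 := by omega
    have e2 : K + j - 1 = m := by omega
    rw [e1, e2, hm]
    have := Nat.choose_mul_succ_eq m j
    have e3 : m + 1 - j = K := by omega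
    rw [e3] at this
    rw [mul_comm K, ← this, mul_comm]
theorem F_mono {K K' : ℕ} (j : ℕ) (h : K ≤ K') : F K j ≤ F K' j := by
  have : Monotone fun K => F K j := by
    apply monotone_nat_of_le_succ
    intro n
    cases j with
    | zero => simp [F]
    | succ j => rw [F_succ]; omega
  exact this h
theorem F_mono_right {K : ℕ} (hK : 1 ≤ K) {j j' : ℕ} (h : j ≤ j') : F K j ≤ F K j' := by
  obtain ⟨K', rfl⟩ : ∃ K', K = K' + 1 := ⟨K - 1, by omega⟩
  have : Monotone fun j => F (K' + 1) j := by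
    apply monotone_nat_of_le_succ
    intro n
    beta_reduce
    rw [F_succ]; omega
  exact this h
theorem le_F {n j : ℕ} (hj : 1 ≤ j) : n ≤ F n j := by
  rcases Nat.eq_zero_or_pos n with h | h
  · rw [h]; exact Nat.zero_le _
  · conv_lhs => rw [← F_deg_one n]
    exact F_mono_right h hj

private theorem kk_mem {j n : ℕ} (hj : 1 ≤ j) : n ≤ F (kk j n) j := by
  have h : ({K | n ≤ F K j} : Set ℕ).Nonempty := ⟨n, le_F hj⟩
  exact Nat.sInf_mem h

theorem kk_le_iff {j n K : ℕ} (hj : 1 ≤ j) : kk j n ≤ K ↔ n ≤ F K j := by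
  constructor
  · intro h
    exact (kk_mem hj).trans (F_mono j h)
  · intro h
    exact Nat.sInf_le h
theorem kk_pos {j n : ℕ} (hj : 1 ≤ j) (hn : 1 ≤ n) : 1 ≤ kk j n := by
  by_contra h
  have h1 : kk j n ≤ 0 := by omega
  rw [kk_le_iff hj, F_zero hj] at h1
  omega
theorem kk_mono {j n n' : ℕ} (hj : 1 ≤ j) (h : n ≤ n') : kk j n ≤ kk j n' := by
  rw [kk_le_iff hj]
  exact h.trans (kk_mem hj)
theorem kk_anti {j j' n : ℕ} (hj : 1 ≤ j) (h : j ≤ j') (hn : 1 ≤ n) : kk j' n ≤ kk j n := by
  rw [kk_le_iff (hj.trans h)]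
  exact (kk_mem hj).trans (F_mono_right (kk_pos hj hn) h)
theorem gam_succ (j n : ℕ) : gam j (n + 1) = gam j n + (kk j (n + 1) - 1) := by
  unfold gam
  rw [Finset.sum_range_succ]
theorem gam_mono {j a b : ℕ} (h : a ≤ b) : gam j a ≤ gam j b := by
  have : Monotone fun n => gam j n := by
    apply monotone_nat_of_le_succ
    intro n
    beta_reduce
    rw [gam_succ]; omega
  exact this h
/-- Lipschitz bound from above below `F K j` -/
theorem gam_upper {j a b K : ℕ} (hj : 1 ≤ j) (hab : a ≤ b) (hb : b ≤ F K j) :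
    gam j b ≤ gam j a + (b - a) * (K - 1) := by
  induction b, hab using Nat.le_induction with
  | base => simp
  | succ b hab ih =>
    have h1 := ih (by omega)
    have h2 : kk j (b + 1) ≤ K := (kk_le_iff hj).mpr hb
    have h3 : b + 1 - a = (b - a) + 1 := by omega
    rw [gam_succ, h3, add_mul, one_mul]
    omega
/-- Lipschitz bound from below above `F l j` -/
theorem gam_lower {j a b l : ℕ} (hj : 1 ≤ j) (hab : a ≤ b) (ha : F l j ≤ a) :
    gam j a + (b - a) * l ≤ gam j b := by
  induction b, hab using Nat.le_induction with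
  | base => simp
  | succ b hab ih =>
    have h2 : l + 1 ≤ kk j (b + 1) := by
      by_contra hcon
      have h4 : kk j (b + 1) ≤ l := by omega
      rw [kk_le_iff hj] at h4
      omega
    have h3 : b + 1 - a = (b - a) + 1 := by omega
    rw [gam_succ, h3, add_mul, one_mul]
    omega

end Pool.Agent.Helper733.HS
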