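import Pool.Agent.Helper733.HS.MacA

set_option autoImplicit false

open Finset

namespace Pool.Agent.Helper733.HS

theorem gam_F {j : ℕ} (hj : 1 ≤ j) (l : ℕ) : j * F l j + gam j (F l j) = j * F l (j + 1) := by
  induction l with
  | zero =>
    rw [F_zero hj, F_zero (Nat.le_add_left 1 j)]
    simp [gam]
  | succ l ih =>
    obtain ⟨m, rfl⟩ : ∃ m, j = m + 1 := ⟨j - 1, by omega⟩
    have h1 := gam_upper (j := m + 1) (a := F l (m + 1)) (b := F (l + 1) (m + 1)) (K := l + 1) hj
      (F_mono _ (Nat.le_succ l)) le_rfl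
    have h2 := gam_lower (j := m + 1) (a := F l (m + 1)) (b := F (l + 1) (m + 1)) (l := l) hj
      (F_mono _ (Nat.le_succ l)) le_rfl
    rw [Nat.add_sub_cancel] at h1
    have h3 := le_antisymm h1 h2
    have h4 : F (l + 1) (m + 1) - F l (m + 1) = F (l + 1) m := by
      rw [F_succ]; omega
    rw [h4] at h3
    rw [h3, F_succ l (m + 1), mul_add, ← ih]
    have h5 := F_mul' l m
    have h6 := F_mul l m
    have h7 : (m + 1) * F l (m + 1) = l * F (l + 1) m := by rw [h6, h5]
    nlinarith [h7]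

theorem gq_F {j : ℕ} (hj : 1 ≤ j) (l : ℕ) : gq j (F l j) = F l (j + 1) := by
  have h : ((j * F l j + gam j (F l j) : ℕ) : ℚ) = ((j * F l (j + 1) : ℕ) : ℚ) := by
    rw [gam_F hj l]
  push_cast at h
  have hj0 : (0 : ℚ) < j := by exact_mod_cast hj
  unfold gq
  field_simp
  linarith

theorem gq_mono {j a b : ℕ} (h : a ≤ b) : gq j a ≤ gq j b := by
  have h1 : (gam j a : ℚ) ≤ gam j b := by exact_mod_cast gam_mono h
  have h2 : (a : ℚ) ≤ b := by exact_mod_cast h
  unfold gq
  have h3 : (gam j a : ℚ) / j ≤ gam j b / j := div_le_div_of_nonneg_right h1 (Nat.cast_nonneg j)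
  linarith

private theorem kk_one (n : ℕ) : kk 1 n = n := by
  refine le_antisymm ?_ ?_
  · rw [kk_le_iff le_rfl, F_deg_one]
  · have h := (kk_le_iff (j := 1) (n := n) (K := kk 1 n) le_rfl).1 le_rfl
    rwa [F_deg_one] at h

theorem gq_one (n : ℕ) : gq 1 n = n * (n + 1) / 2 := by
  have h : ∀ n : ℕ, (gam 1 n : ℚ) = n * (n - 1) / 2 := by
    intro n
    induction n with
    | zero => simp [gam]
    | succ n ih =>
      rw [gam_succ, kk_one, Nat.add_sub_cancel]
      push_cast
      rw [ih]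
      ring
  unfold gq
  rw [h]
  push_cast
  ring

theorem gq_upper {j a b K : ℕ} (hj : 1 ≤ j) (hK : 1 ≤ K) (hab : a ≤ b) (hb : b ≤ F K j) :
    gq j b ≤ gq j a + ((b : ℚ) - a) * (K + j - 1) / j := by
  have h : ((gam j b : ℕ) : ℚ) ≤ ((gam j a + (b - a) * (K - 1) : ℕ) : ℚ) := by
    exact_mod_cast gam_upper hj hab hb
  rw [Nat.cast_add, Nat.cast_mul, Nat.cast_sub hab, Nat.cast_sub hK, Nat.cast_one] at h
  have hj0 : (0 : ℚ) < j := by exact_mod_cast hj
  unfold gq
  have h2 : (gam j b : ℚ) / j ≤ (gam j a + (b - a) * (K - 1)) / j :=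
    div_le_div_of_nonneg_right h hj0.le
  have h3 : ((gam j a : ℚ) + (b - a) * (K - 1)) / j =
      gam j a / j + (b - a) * (K + j - 1) / j - (b - a) := by
    field_simp
    ring
  linarith

theorem gq_lower {j a b l : ℕ} (hj : 1 ≤ j) (hab : a ≤ b) (ha : F l j ≤ a) :
    gq j a + ((b : ℚ) - a) * (l + j) / j ≤ gq j b := by
  have h : ((gam j a + (b - a) * l : ℕ) : ℚ) ≤ ((gam j b : ℕ) : ℚ) := by
    exact_mod_cast gam_lower hj hab ha
  rw [Nat.cast_add, Nat.cast_mul, Nat.cast_sub hab] at h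
  have hj0 : (0 : ℚ) < j := by exact_mod_cast hj
  unfold gq
  have h2 : ((gam j a : ℚ) + (b - a) * l) / j ≤ (gam j b : ℚ) / j :=
    div_le_div_of_nonneg_right h hj0.le
  have h3 : ((gam j a : ℚ) + (b - a) * l) / j =
      gam j a / j + (b - a) * (l + j) / j - (b - a) := by
    field_simp
    ring
  linarith

private theorem gam_avg {j : ℕ} (hj : 1 ≤ j) (d : ℕ) : ∀ D, d ≤ D → D * gam j d ≤ d * gam j D := by
  intro D hD
  induction D, hD using Nat.le_induction with
  | base => exact le_rfl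
  | succ D hD ih =>
    have h1 : gam j d ≤ d * (kk j (D + 1) - 1) := by
      unfold gam
      have h2 : ∀ i ∈ range d, kk j (i + 1) - 1 ≤ kk j (D + 1) - 1 := by
        intro i hi
        have hi' : i < d := Finset.mem_range.1 hi
        exact Nat.sub_le_sub_right (kk_mono hj (by omega)) 1
      refine (Finset.sum_le_sum h2).trans ?_
      rw [Finset.sum_const, Finset.card_range, smul_eq_mul]
    rw [gam_succ, mul_add, add_mul, one_mul]
    exact Nat.add_le_add ih h1

theorem gq_chord {j d K : ℕ} (hj : 1 ≤ j) (hd : d ≤ F K j) :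
    gq j d ≤ (d : ℚ) * (K + j) / (j + 1) := by
  rcases Nat.eq_zero_or_pos d with rfl | hd0
  · simp [gq, gam]
  · have hD : (0 : ℚ) < F K j := by exact_mod_cast lt_of_lt_of_le hd0 hd
    have hj0 : (0 : ℚ) < j := by exact_mod_cast hj
    have h1 : ((F K j : ℕ) : ℚ) * gam j d ≤ d * gam j (F K j) := by
      exact_mod_cast gam_avg hj d (F K j) hd
    have h2 := gq_F hj K
    have h3 : ((j : ℚ) + 1) * F K (j + 1) = (K + j) * F K j := by exact_mod_cast F_mul K j
    have h4 : (F K j : ℚ) * gq j d ≤ d * gq j (F K j) := by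
      have e1 : (F K j : ℚ) * gq j d = F K j * d + (F K j * gam j d) / j := by
        unfold gq; ring
      have e2 : (d : ℚ) * gq j (F K j) = F K j * d + (d * gam j (F K j)) / j := by
        unfold gq; ring
      rw [e1, e2]
      have := div_le_div_of_nonneg_right h1 hj0.le
      linarith
    rw [h2] at h4
    have h5 : (F K (j + 1) : ℚ) = (K + j) * F K j / (j + 1) := by
      rw [eq_div_iff (by positivity)]
      linarith
    rw [h5] at h4
    have h6 : (F K j : ℚ) * gq j d ≤ F K j * ((d : ℚ) * (K + j) / (j + 1)) := by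
      refine h4.trans (le_of_eq ?_)
      ring
    exact le_of_mul_le_mul_left h6 hD

end Pool.Agent.Helper733.HS
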