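import Pool.Agent.Helper733.HS.MacB

set_option autoImplicit false

open Finset

namespace Pool.Agent.Helper733.HS

private theorem gq_step_zero (j : ℕ) : gq j 0 = 0 := by
  simp [gq, gam]

private theorem gq_step_le (j n : ℕ) : (n : ℚ) ≤ gq j n := by
  unfold gq
  have : (0 : ℚ) ≤ (gam j n : ℚ) / j := by positivity
  linarith

private theorem gq_step_B1 (A al de l j : ℚ) (hj : 0 < j) (t1 t2 : ℚ)
    (h1 : t1 = (al + de) * (l + (j + 1)) / (j + 1)) (h2 : t2 = al * (l + (j + 1) - 1) / (j + 1))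
    (h : j * al ≤ l * de) : A + al + de ≤ A + t1 - t2 := by
  have e1 : t1 * (j + 1) = (al + de) * (l + (j + 1)) := by
    rw [h1]; field_simp
  have e2 : t2 * (j + 1) = al * (l + (j + 1) - 1) := by
    rw [h2]; field_simp
  have h3 : (al + de) * (j + 1) ≤ (t1 - t2) * (j + 1) := by
    rw [sub_mul, e1, e2]; nlinarith
  have h4 : al + de ≤ t1 - t2 := le_of_mul_le_mul_right h3 (by linarith)
  linarith

private theorem gq_step_B2 (A al de l j : ℚ) (hj : 0 < j) (t1 t2 t3 : ℚ)
    (h1 : t1 = (al + de) * (l + (j + 1)) / (j + 1)) (h2 : t2 = al * (l + (j + 1) - 1) / (j + 1))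
    (h3 : t3 = de * ((l + 1) + j - 1) / j)
    (h : l * de ≤ j * al) : A + t3 ≤ A + t1 - t2 := by
  have e1 : t1 * (j + 1) = (al + de) * (l + (j + 1)) := by
    rw [h1]; field_simp
  have e2 : t2 * (j + 1) = al * (l + (j + 1) - 1) := by
    rw [h2]; field_simp
  have e3 : t3 * j = de * ((l + 1) + j - 1) := by
    rw [h3]; field_simp
  have h4 : t3 * (j * (j + 1)) ≤ (t1 - t2) * (j * (j + 1)) := by
    have f1 : t3 * (j * (j + 1)) = (de * ((l + 1) + j - 1)) * (j + 1) := by rw [← e3]; ring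
    have f2 : (t1 - t2) * (j * (j + 1)) =
        ((al + de) * (l + (j + 1)) - al * (l + (j + 1) - 1)) * j := by rw [← e1, ← e2]; ring
    rw [f1, f2]; nlinarith
  have h5 : t3 ≤ t1 - t2 := le_of_mul_le_mul_right h4 (by positivity)
  linarith

theorem gq_step {j : ℕ} (hj : 1 ≤ j) (a d : ℕ) :
    gq (j + 1) a + min ((a : ℚ) + d) (gq j d) ≤ gq (j + 1) (a + d) := by
  rcases Nat.eq_zero_or_pos d with rfl | hd
  · have h1 : min ((a : ℚ) + (0 : ℕ)) (gq j 0) ≤ 0 := by
      rw [gq_step_zero]; exact min_le_right _ _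
    rw [add_zero]
    linarith
  rcases Nat.eq_zero_or_pos a with rfl | ha
  · have h1 : min (((0 : ℕ) : ℚ) + d) (gq j d) ≤ d := by
      refine (min_le_left _ _).trans ?_
      simp
    rw [gq_step_zero, zero_add]
    have h2 := gq_step_le (j + 1) d
    rw [zero_add]
    linarith
  have hjQ : (0 : ℚ) < j := by exact_mod_cast hj
  obtain ⟨k, hk⟩ : ∃ k, k = kk j d := ⟨_, rfl⟩
  have hk1 : 1 ≤ k := by rw [hk]; exact kk_pos hj hd
  have hdk : d ≤ F k j := (kk_le_iff hj).1 hk.ge
  have hdk' : F (k - 1) j < d := by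
    by_contra h1
    have h2 := (kk_le_iff hj).2 (not_lt.1 h1)
    omega
  rcases le_or_gt (F (k - 1) (j + 1)) a with hA | hB
  · have h1 := gq_lower (j := j + 1) (a := a) (b := a + d) (l := k - 1) (by omega) (by omega) hA
    have h2 := gq_chord hj hdk
    have h3 : min ((a : ℚ) + d) (gq j d) ≤ gq j d := min_le_right _ _
    have h4 : (((a + d : ℕ) : ℚ) - a) * (((k - 1 : ℕ) : ℚ) + ((j + 1 : ℕ) : ℚ)) / ((j + 1 : ℕ) : ℚ)
        = (d : ℚ) * (k + j) / (j + 1) := by
      rw [Nat.cast_sub hk1]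
      push_cast
      congr 1
      ring
    rw [h4] at h1
    linarith
  · obtain ⟨l, hl⟩ : ∃ l, l = kk (j + 1) a := ⟨_, rfl⟩
    have hl1 : 1 ≤ l := by rw [hl]; exact kk_pos (by omega) ha
    have hal : a ≤ F l (j + 1) := (kk_le_iff (by omega)).1 hl.ge
    have hal' : F (l - 1) (j + 1) < a := by
      by_contra h1
      have h2 := (kk_le_iff (j := j + 1) (by omega)).2 (not_lt.1 h1)
      omega
    have hlk : l ≤ k - 1 := by
      rw [hl]; exact (kk_le_iff (by omega)).2 hB.le
    have hFl : F l (j + 1) = F (l - 1) (j + 1) + F l j := by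
      have := F_succ (l - 1) j
      rwa [show l - 1 + 1 = l by omega] at this
    have hFl2 : F l (j + 2) = F (l - 1) (j + 2) + F l (j + 1) := by
      have := F_succ (l - 1) (j + 1)
      rwa [show l - 1 + 1 = l by omega] at this
    have hFd : F l j < d := (F_mono j hlk).trans_lt hdk'
    have h1 := gq_lower (j := j + 1) (a := F l (j + 1)) (b := a + d) (l := l) (by omega)
      (by omega) le_rfl
    have h2 := gq_upper (j := j + 1) (a := F (l - 1) (j + 1)) (b := a) (K := l) (by omega) hl1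
      hal'.le hal
    rw [gq_F (by omega)] at h1 h2
    have e0 : ((F l (j + 1 + 1) : ℕ) : ℚ) = (F (l - 1) (j + 1 + 1) : ℚ) + F l (j + 1) := by
      exact_mod_cast hFl2
    have eF : ((F l (j + 1) : ℕ) : ℚ) = (F (l - 1) (j + 1) : ℚ) + F l j := by
      exact_mod_cast hFl
    obtain ⟨al, hald⟩ : ∃ al : ℚ, al = (a : ℚ) - F (l - 1) (j + 1) := ⟨_, rfl⟩
    obtain ⟨de, hde⟩ : ∃ de : ℚ, de = (d : ℚ) - F l j := ⟨_, rfl⟩
    have hade : ((a + d : ℕ) : ℚ) - F l (j + 1) = al + de := by
      push_cast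
      rw [eF, hald, hde]; ring
    rw [hade] at h1
    rw [← hald] at h2
    have had : (a : ℚ) + d = (F l (j + 1) : ℚ) + al + de := by
      rw [eF, hald, hde]; ring
    push_cast at h1 h2
    rcases le_or_gt ((j : ℚ) * al) (l * de) with hc | hc
    · have h3 := gq_step_B1 (F l (j + 1) : ℚ) al de l j hjQ _ _ rfl rfl hc
      have h4 : min ((a : ℚ) + d) (gq j d) ≤ (a : ℚ) + d := min_le_left _ _
      linarith
    · have hdF : d ≤ F (l + 1) j := by
        have g1 : (al : ℚ) ≤ F l j := by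
          rw [hald]
          have : (a : ℚ) ≤ F l (j + 1) := by exact_mod_cast hal
          linarith
        have g2 := F_mul' l j
        have g3 : (l : ℚ) * F (l + 1) j = (l + j) * F l j := by exact_mod_cast g2
        have g4 : (l : ℚ) * d < l * F (l + 1) j := by
          rw [g3]
          have : (j : ℚ) * al ≤ j * F l j := mul_le_mul_of_nonneg_left g1 hjQ.le
          rw [hde] at hc
          nlinarith
        have g5 : (d : ℚ) < F (l + 1) j := lt_of_mul_lt_mul_left g4 (by positivity)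
        exact_mod_cast g5.le
      have h5 := gq_upper (j := j) (a := F l j) (b := d) (K := l + 1) hj (by omega) hFd.le hdF
      rw [gq_F hj, ← hde] at h5
      push_cast at h5
      have h3 := gq_step_B2 (F l (j + 1) : ℚ) al de l j hjQ _ _ _ rfl rfl rfl hc.le
      have h4 : min ((a : ℚ) + d) (gq j d) ≤ gq j d := min_le_right _ _
      linarith

end Pool.Agent.Helper733.HS
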