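import Mathlib

set_option autoImplicit false

open Finset

namespace Pool.Agent.Helper733.HS

/-- number of monomials of degree `j` in `K` letters -/
def F (K j : ℕ) : ℕ := Nat.multichoose K j

/-- the least `K` with `n ≤ F K j` -/
noncomputable def kk (j n : ℕ) : ℕ := sInf {K | n ≤ F K j}

/-- scaled growth -/
noncomputable def gam (j n : ℕ) : ℕ := ∑ i ∈ range n, (kk j (i + 1) - 1)

/-- the growth bound as a rational number -/
noncomputable def gq (j n : ℕ) : ℚ := n + (gam j n : ℚ) / j

end Pool.Agent.Helper733.HS
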