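import Pool.Agent.Helper733.HS.NumDef

set_option autoImplicit false

open Finset

namespace Pool.Agent.Helper733.HS

private theorem kl_inv834 {j n : ℕ} (hj : 1 ≤ j) (f : ℕ) : ∀ K : ℕ, 1 ≤ K →
    kk j n ≤ kl j n f K (F K j) := by
  induction f with
  | zero =>
    intro K _
    rw [kl, kk_le_iff hj]
    exact le_F hj
  | succ f ih =>
    intro K hK
    rw [kl]
    split_ifs with h
    · rw [kk_le_iff hj]; exact h
    · have h1 : F K j * (K + j) / K = F (K + 1) j := by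
        apply Nat.div_eq_of_eq_mul_right (by omega)
        rw [F_mul', mul_comm]
      rw [h1]
      exact ih (K + 1) (by omega)

theorem kk_le_kl {j n : ℕ} (hj : 1 ≤ j) : kk j n ≤ kl j n 60 1 1 := by
  have h := kl_inv834 (n := n) hj 60 1 le_rfl
  rwa [F_one] at h

private theorem sum_Icc_range834 (d : ℕ) (f : ℕ → ℚ) :
    ∑ r ∈ Icc 1 d, f r = ∑ i ∈ range d, f (i + 1) := by
  induction d with
  | zero => simp
  | succ d ih => rw [Finset.sum_Icc_succ_top (by omega), Finset.sum_range_succ, ih]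

/-- the truncated values -/
private noncomputable def mm834 (d y i : ℕ) : ℕ := min y (kk (i + 2) (d - i))

private theorem mm_pos834 {d y i : ℕ} (hy : 1 ≤ y) (hi : i < d) : 1 ≤ mm834 d y i :=
  le_min hy (kk_pos (by omega) (by omega))

private theorem mm_last834 {d y : ℕ} (hd : 1 ≤ d) (hy : 1 ≤ y) : mm834 d y (d - 1) = 1 := by
  apply le_antisymm _ (mm_pos834 hy (by omega))
  unfold mm834
  refine (min_le_right _ _).trans ?_
  rw [kk_le_iff (by omega), F_one]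
  omega

private theorem term834 (d y i : ℕ) (hy : 1 ≤ y) (hi : i < d) :
    (M0 : ℚ) * (((mm834 d y i : ℕ) : ℚ) - 1) / (2 * ((i : ℚ) + 1) + 1) ≤
      (((min y (kl (i + 2) (d - i) 60 1 1) - 1) * (M0 / (2 * i + 3) + 1) : ℕ) : ℚ) := by
  have h1 : mm834 d y i ≤ min y (kl (i + 2) (d - i) 60 1 1) :=
    min_le_min_left y (kk_le_kl (by omega))
  have h2 := mm_pos834 hy hi
  have h3 : ((mm834 d y i : ℕ) : ℚ) - 1 ≤ ((min y (kl (i + 2) (d - i) 60 1 1) - 1 : ℕ) : ℚ) := by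
    rw [Nat.cast_sub (h2.trans h1)]
    have : ((mm834 d y i : ℕ) : ℚ) ≤ ((min y (kl (i + 2) (d - i) 60 1 1) : ℕ) : ℚ) := by
      exact_mod_cast h1
    push_cast at this ⊢
    linarith
  have h4 : (M0 : ℚ) / (2 * ((i : ℚ) + 1) + 1) ≤ ((M0 / (2 * i + 3) + 1 : ℕ) : ℚ) := by
    rw [div_le_iff₀ (by positivity)]
    have h5 : M0 < (M0 / (2 * i + 3) + 1) * (2 * i + 3) := by
      have := Nat.lt_div_mul_add (a := M0) (show 0 < 2 * i + 3 by omega)
      rw [add_mul, one_mul]; exact this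
    have h6 : ((M0 : ℕ) : ℚ) ≤ (((M0 / (2 * i + 3) + 1) * (2 * i + 3) : ℕ) : ℚ) := by
      exact_mod_cast h5.le
    rw [Nat.cast_mul] at h6
    have h7 : ((2 * i + 3 : ℕ) : ℚ) = 2 * ((i : ℚ) + 1) + 1 := by push_cast; ring
    rw [h7] at h6
    exact h6
  have h0 : (0 : ℚ) ≤ ((mm834 d y i : ℕ) : ℚ) - 1 := by
    have : (1 : ℚ) ≤ ((mm834 d y i : ℕ) : ℚ) := by exact_mod_cast h2
    linarith
  rw [Nat.cast_mul]
  calc (M0 : ℚ) * (((mm834 d y i : ℕ) : ℚ) - 1) / (2 * ((i : ℚ) + 1) + 1) =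
        (((mm834 d y i : ℕ) : ℚ) - 1) * ((M0 : ℚ) / (2 * ((i : ℚ) + 1) + 1)) := by ring
    _ ≤ _ := mul_le_mul h3 h4 (by positivity) (by positivity)

private theorem accA_ge834 (d y : ℕ) (hy : 1 ≤ y) (t : ℕ) (ht : t ≤ d) :
    (M0 : ℚ) * ∑ i ∈ range t, (((mm834 d y i : ℕ) : ℚ) - 1) / (2 * ((i : ℚ) + 1) + 1) ≤
      (accA d y t : ℚ) := by
  induction t with
  | zero => simp [accA]
  | succ t ih =>
    rw [Finset.sum_range_succ, mul_add, accA, Nat.cast_add]
    have h1 := ih (by omega)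
    have h2 := term834 d y t hy (by omega)
    rw [mul_div_assoc] at h2
    linarith

private theorem accB_ge834 (d y : ℕ) (hy : 1 ≤ y) (t : ℕ) (ht : t ≤ d) :
    (M0 : ℚ) * ∑ i ∈ range t, ((d : ℚ) - 2 - i) *
      ((((mm834 d y i : ℕ) : ℚ) - 1) / (2 * ((i : ℚ) + 1) + 1)) ≤ (accB d y t : ℚ) := by
  induction t with
  | zero => simp [accB]
  | succ t ih =>
    rw [Finset.sum_range_succ, mul_add, accB, Nat.cast_add]
    have h1 := ih (by omega)
    have h2 := term834 d y t hy (by omega)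
    rw [mul_div_assoc] at h2
    have h3 : (M0 : ℚ) * (((d : ℚ) - 2 - t) *
        ((((mm834 d y t : ℕ) : ℚ) - 1) / (2 * ((t : ℚ) + 1) + 1))) ≤
        (((min y (kl (t + 2) (d - t) 60 1 1) - 1) * (M0 / (2 * t + 3) + 1) * (d - 2 - t) : ℕ) : ℚ) := by
      rcases Nat.lt_or_ge t (d - 1) with h | h
      · rw [Nat.cast_mul]
        have h4 : ((d - 2 - t : ℕ) : ℚ) = (d : ℚ) - 2 - t := by
          rw [Nat.cast_sub (by omega), Nat.cast_sub (by omega)]; norm_num
        rw [h4]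
        have h5 : (0 : ℚ) ≤ (d : ℚ) - 2 - t := by rw [← h4]; positivity
        calc _ = ((M0 : ℚ) * ((((mm834 d y t : ℕ) : ℚ) - 1) / (2 * ((t : ℚ) + 1) + 1))) *
              ((d : ℚ) - 2 - t) := by ring
          _ ≤ _ := mul_le_mul_of_nonneg_right h2 h5
      · have h6 : t = d - 1 := by omega
        rw [h6, mm_last834 (by omega) hy]
        simp only [Nat.cast_one, sub_self, zero_div, mul_zero]
        positivity
    linarith

private theorem Lq_eq834 (d k y e : ℕ) : Lq d k y e = (d : ℚ) * ((k : ℚ) - 1) / 3 +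
    e * (∑ i ∈ range d, (((mm834 d y i : ℕ) : ℚ) - 1) / (2 * ((i : ℚ) + 1) + 1)) +
    ∑ i ∈ range d, ((d : ℚ) - 2 - i) *
      ((((mm834 d y i : ℕ) : ℚ) - 1) / (2 * ((i : ℚ) + 1) + 1)) := by
  rw [Lq, sum_Icc_range834, add_assoc, Finset.mul_sum, ← Finset.sum_add_distrib]
  congr 1
  refine Finset.sum_congr rfl fun i _ => ?_
  have h1 : min y (kk (i + 1 + 1) (d + 1 - (i + 1))) = mm834 d y i := by
    unfold mm834
    rw [show d + 1 - (i + 1) = d - i by omega]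
  rw [h1]
  push_cast
  ring

theorem chk_sound {d k y e0 e : ℕ} (hd : 1 ≤ d) (hk : 1 ≤ k) (hy : 1 ≤ y) (h : chk d k y e0 = true)
    (he : e0 ≤ e) : Lq d k y e ≤ Rq d e := by
  rw [chk, Bool.and_eq_true, decide_eq_true_eq, decide_eq_true_eq] at h
  obtain ⟨h1, h2⟩ := h
  rw [Lq_eq834]
  have hA := accA_ge834 d y hy d le_rfl
  have hB := accB_ge834 d y hy d le_rfl
  generalize (∑ i ∈ range d, (((mm834 d y i : ℕ) : ℚ) - 1) / (2 * ((i : ℚ) + 1) + 1)) = A at *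
  generalize (∑ i ∈ range d, ((d : ℚ) - 2 - i) *
      ((((mm834 d y i : ℕ) : ℚ) - 1) / (2 * ((i : ℚ) + 1) + 1))) = B at *
  generalize accA d y d = a at *
  generalize accB d y d = b at *
  have hM : (0 : ℚ) < (M0 : ℚ) := by unfold M0; norm_num
  have h1' : 3 * (a : ℚ) ≤ d * (M0 : ℚ) := by exact_mod_cast h1
  have hev : ((d * (d - 1) / 2 : ℕ) : ℚ) = (d : ℚ) * (d - 1) / 2 := by
    rw [Nat.cast_div (even_iff_two_dvd.1 (Nat.even_mul_pred_self d)) (by norm_num), Nat.cast_mul,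
      Nat.cast_sub hd]
    norm_num
  have h2' : (M0 : ℚ) * (d * ((k : ℚ) - 1)) + 3 * (e0 * a) + 3 * b ≤
      M0 * (d * ((e0 : ℚ) + 1) + d * (d - 1) / 2 + d) := by
    have h3 : ((M0 * (d * (k - 1)) + 3 * (e0 * a) + 3 * b : ℕ) : ℚ) ≤
        ((M0 * (d * (e0 + 1) + d * (d - 1) / 2 + d) : ℕ) : ℚ) := by exact_mod_cast h2
    rw [Nat.cast_mul M0, Nat.cast_add _ d, Nat.cast_add _ (d * (d - 1) / 2), hev] at h3
    push_cast [Nat.cast_sub hk] at h3
    exact h3
  have he' : (e0 : ℚ) ≤ e := by exact_mod_cast he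
  have hA3 : A ≤ d / 3 := by
    rw [le_div_iff₀ (by norm_num)]
    have : (M0 : ℚ) * (A * 3) ≤ M0 * d := by linarith
    exact le_of_mul_le_mul_left this hM
  have hE0 : (d : ℚ) * ((k : ℚ) - 1) / 3 + e0 * A + B ≤
      (d * ((e0 : ℚ) + 1) + d * (d - 1) / 2 + d) / 3 := by
    have h4 : (M0 : ℚ) * ((d : ℚ) * ((k : ℚ) - 1) / 3 + e0 * A + B) ≤
        M0 * ((d * ((e0 : ℚ) + 1) + d * (d - 1) / 2 + d) / 3) := by
      have h5 : (e0 : ℚ) * (M0 * A) ≤ e0 * a := mul_le_mul_of_nonneg_left hA (by positivity)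
      nlinarith
    exact le_of_mul_le_mul_left h4 hM
  unfold Rq
  have h6 : ((e : ℚ) - e0) * A ≤ (e - e0) * (d / 3) := mul_le_mul_of_nonneg_left hA3 (by linarith)
  linarith

theorem Lq_mono {d k k' y y' e : ℕ} (hd : 1 ≤ d) (he : 1 ≤ e) (hk : k ≤ k') (hy1 : 1 ≤ y) (hy : y ≤ y') :
    Lq d k y e ≤ Lq d k' y' e := by
  unfold Lq
  apply add_le_add
  · have : (k : ℚ) ≤ k' := by exact_mod_cast hk
    have hd' : (0 : ℚ) ≤ d := by positivity
    apply div_le_div_of_nonneg_right _ (by norm_num)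
    exact mul_le_mul_of_nonneg_left (by linarith) hd'
  · refine Finset.sum_le_sum fun r hr => ?_
    rw [Finset.mem_Icc] at hr
    apply div_le_div_of_nonneg_right _ (by positivity)
    apply mul_le_mul_of_nonneg_left
    · have h1 : min y (kk (r + 1) (d + 1 - r)) ≤ min y' (kk (r + 1) (d + 1 - r)) :=
        min_le_min_right _ hy
      have h2 : ((min y (kk (r + 1) (d + 1 - r)) : ℕ) : ℚ) ≤
          ((min y' (kk (r + 1) (d + 1 - r)) : ℕ) : ℚ) := by exact_mod_cast h1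
      linarith
    · have h1 : (r : ℚ) ≤ d := by exact_mod_cast hr.2
      have h2 : (1 : ℚ) ≤ e := by exact_mod_cast he
      linarith

end Pool.Agent.Helper733.HS
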