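import Pool.Agent.Helper733.HS.NumA

set_option autoImplicit false

open Finset

namespace Pool.Agent.Helper733.HS


def fz (k : ℕ) : ℕ := (k - 1) * k / 2
def gz (y : ℕ) : ℕ := (y - 1) * y * (y + 1) / 6
def e0z (d k y : ℕ) : ℕ := max k (if y = 1 then 0 else gz y + fz k + 3 - d)

def chkS (lo hi : ℕ) : Bool :=
  (List.range (hi - lo)).all fun i => (List.range 8).all fun kk' => (List.range (kk' + 1)).all fun yy =>
    let d := lo + i; let k := kk' + 1; let y := yy + 1
    decide (d < fz k + 1) || chk d k y (e0z d k y)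

set_option maxRecDepth 100000 in
theorem evS1 : chkS 1 12 = true := by decide +kernel
set_option maxRecDepth 100000 in
theorem evS2 : chkS 12 20 = true := by decide +kernel
set_option maxRecDepth 100000 in
theorem evS3 : chkS 20 30 = true := by decide +kernel

def chkM (lo hi : ℕ) : Bool :=
  (List.range (hi - lo)).all fun i => (List.range 11).all fun kk' =>
    let d := lo + i; let k := kk' + 1
    decide (d < fz k + 1) || chk d k k k

set_option maxRecDepth 100000 in
theorem evM : chkM 30 60 = true := by decide +kernel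

def chkL (lo hi : ℕ) : Bool :=
  (List.range (hi - lo)).all fun i =>
    let d := lo + i
    chk d (kl 2 d 60 1 1) (kl 2 d 60 1 1) 1

set_option maxRecDepth 100000 in
theorem evL : chkL 60 100 = true := by decide +kernel

private theorem F_two_13689 (K : ℕ) : 2 * F K 2 = (K + 1) * K := by
  have h := F_mul K 1
  rw [F_deg_one] at h
  exact h

private theorem F_three_13689 (K : ℕ) : 6 * F K 3 = (K + 2) * ((K + 1) * K) := by
  have h := F_mul K 2
  have h2 := F_two_13689 K
  have h3 : 3 * F K 3 = (K + 2) * F K 2 := h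
  calc 6 * F K 3 = 2 * (3 * F K 3) := by ring
    _ = (K + 2) * (2 * F K 2) := by rw [h3]; ring
    _ = _ := by rw [h2]

private theorem fz_13689 (k : ℕ) (hk : 1 ≤ k) : fz k = F (k - 1) 2 := by
  obtain ⟨m, rfl⟩ : ∃ m, k = m + 1 := ⟨k - 1, by omega⟩
  have h := F_two_13689 m
  unfold fz
  simp only [Nat.add_sub_cancel]
  rw [show m * (m + 1) = 2 * F m 2 by rw [h]; ring]
  omega

private theorem gz_13689 (y : ℕ) (hy : 1 ≤ y) : gz y = F (y - 1) 3 := by
  obtain ⟨m, rfl⟩ : ∃ m, y = m + 1 := ⟨y - 1, by omega⟩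
  have h := F_three_13689 m
  unfold gz
  simp only [Nat.add_sub_cancel]
  rw [show m * (m + 1) * (m + 1 + 1) = 6 * F m 3 by rw [h]; ring]
  omega

private theorem chkS_use_13689 (lo hi : ℕ) (h : chkS lo hi = true) (d k y : ℕ) (h1 : lo ≤ d)
    (h2 : d < hi) (hk1 : 1 ≤ k) (hk8 : k ≤ 8) (hy1 : 1 ≤ y) (hyk : y ≤ k)
    (hf : fz k + 1 ≤ d) : chk d k y (e0z d k y) = true := by
  unfold chkS at h
  rw [List.all_eq_true] at h
  have a := h (d - lo) (List.mem_range.2 (by omega))
  rw [List.all_eq_true] at a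
  have b := a (k - 1) (List.mem_range.2 (by omega))
  rw [List.all_eq_true] at b
  have c := b (y - 1) (List.mem_range.2 (by omega))
  have e1 : lo + (d - lo) = d := by omega
  have e2 : k - 1 + 1 = k := by omega
  have e3 : y - 1 + 1 = y := by omega
  simp only [e1, e2, e3, Bool.or_eq_true, decide_eq_true_eq] at c
  rcases c with c | c
  · omega
  · exact c

private theorem chkM_use_13689 (lo hi : ℕ) (h : chkM lo hi = true) (d k : ℕ) (h1 : lo ≤ d)
    (h2 : d < hi) (hk1 : 1 ≤ k) (hk8 : k ≤ 11)
    (hf : fz k + 1 ≤ d) : chk d k k k = true := by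
  unfold chkM at h
  rw [List.all_eq_true] at h
  have a := h (d - lo) (List.mem_range.2 (by omega))
  rw [List.all_eq_true] at a
  have c := a (k - 1) (List.mem_range.2 (by omega))
  have e1 : lo + (d - lo) = d := by omega
  have e2 : k - 1 + 1 = k := by omega
  simp only [e1, e2, Bool.or_eq_true, decide_eq_true_eq] at c
  rcases c with c | c
  · omega
  · exact c

private theorem chkL_use_13689 (lo hi : ℕ) (h : chkL lo hi = true) (d : ℕ) (h1 : lo ≤ d)
    (h2 : d < hi) : chk d (kl 2 d 60 1 1) (kl 2 d 60 1 1) 1 = true := by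
  unfold chkL at h
  rw [List.all_eq_true] at h
  have c := h (d - lo) (List.mem_range.2 (by omega))
  have e1 : lo + (d - lo) = d := by omega
  simp only [e1] at c
  exact c

/-- small range, evaluated in the kernel -/
theorem num_small (d e k y : ℕ) (hd : 1 ≤ d) (hd' : d < 100) (hk : 1 ≤ k) (hke : k ≤ e)
    (hkd : F (k - 1) 2 + 1 ≤ d) (hy1 : 1 ≤ y) (hyk : y ≤ k)
    (hym : y = 1 ∨ F (y - 1) 3 + F (k - 1) 2 + 4 ≤ e + 1 + d) : Lq d k y e ≤ Rq d e := by
  have hfz := fz_13689 k hk
  rw [← hfz] at hkd hym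
  have he1 : 1 ≤ e := hk.trans hke
  rcases Nat.lt_or_ge d 30 with h30 | h30
  · have hk8 : k ≤ 8 := by
      by_contra hc
      have h1 : F 8 2 ≤ F (k - 1) 2 := F_mono 2 (by omega)
      have h2 := F_two_13689 8
      rw [hfz] at hkd
      omega
    have hchk : chk d k y (e0z d k y) = true := by
      rcases Nat.lt_or_ge d 12 with h12 | h12
      · exact chkS_use_13689 1 12 evS1 d k y hd h12 hk hk8 hy1 hyk hkd
      · rcases Nat.lt_or_ge d 20 with h20 | h20
        · exact chkS_use_13689 12 20 evS2 d k y h12 h20 hk hk8 hy1 hyk hkd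
        · exact chkS_use_13689 20 30 evS3 d k y h20 h30 hk hk8 hy1 hyk hkd
    apply chk_sound hd hk hy1 hchk
    unfold e0z
    apply max_le hke
    split_ifs with h
    · exact Nat.zero_le _
    · rcases hym with hym | hym
      · exact absurd hym h
      · rw [gz_13689 y hy1]
        omega
  · rcases Nat.lt_or_ge d 60 with h60 | h60
    · have hk11 : k ≤ 11 := by
        by_contra hc
        have h1 : F 11 2 ≤ F (k - 1) 2 := F_mono 2 (by omega)
        have h2 := F_two_13689 11
        rw [hfz] at hkd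
        omega
      have hchk := chkM_use_13689 30 60 evM d k h30 h60 hk hk11 hkd
      exact (Lq_mono hd he1 le_rfl hy1 hyk).trans (chk_sound hd hk hk hchk hke)
    · have hchk := chkL_use_13689 60 100 evL d h60 hd'
      have h1 : k ≤ kk 2 d := by
        by_contra hc
        have h2 : kk 2 d ≤ k - 1 := by omega
        have h3 := (kk_le_iff (by norm_num)).1 h2
        rw [hfz] at hkd
        omega
      have h2 : kk 2 d ≤ kl 2 d 60 1 1 := kk_le_kl (by norm_num)
      have h3 : k ≤ kl 2 d 60 1 1 := h1.trans h2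
      have h4 : 1 ≤ kl 2 d 60 1 1 := hk.trans h3
      exact (Lq_mono hd he1 h3 hy1 (hyk.trans h3)).trans (chk_sound hd h4 h4 hchk he1)

end Pool.Agent.Helper733.HS
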