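import Pool.Agent.Helper733.HS.Mac

set_option autoImplicit false

open Finset

namespace Pool.Agent.Helper733.HS

/-- left side of the numerical inequality -/
noncomputable def Lq (d k y e : ℕ) : ℚ := (d : ℚ) * ((k : ℚ) - 1) / 3 +
  ∑ r ∈ Icc 1 d, ((e : ℚ) + d - 1 - r) * (((min y (kk (r + 1) (d + 1 - r)) : ℕ) : ℚ) - 1) / (2 * r + 1)

/-- right side of the numerical inequality -/
noncomputable def Rq (d e : ℕ) : ℚ := ((d : ℚ) * (e + 1) + d * (d - 1) / 2 + d) / 3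

/-- computable upper bound for `kk` -/
def kl (j n : ℕ) : ℕ → ℕ → ℕ → ℕ
  | 0, _, _ => n
  | f + 1, K, FK => if n ≤ FK then K else kl j n f (K + 1) (FK * (K + j) / K)

def M0 : ℕ := 100000

def accA (d y : ℕ) : ℕ → ℕ
  | 0 => 0
  | r + 1 => accA d y r + (min y (kl (r + 2) (d - r) 60 1 1) - 1) * (M0 / (2 * r + 3) + 1)

def accB (d y : ℕ) : ℕ → ℕ
  | 0 => 0
  | r + 1 => accB d y r + (min y (kl (r + 2) (d - r) 60 1 1) - 1) * (M0 / (2 * r + 3) + 1) * (d - 2 - r)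

def chk (d k y e0 : ℕ) : Bool :=
  decide (3 * accA d y d ≤ d * M0) &&
  decide (M0 * (d * (k - 1)) + 3 * (e0 * accA d y d) + 3 * accB d y d ≤
    M0 * (d * (e0 + 1) + d * (d - 1) / 2 + d))


end Pool.Agent.Helper733.HS
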