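import Pool.Agent.Helper733.HS.C1

set_option autoImplicit false

open Finset

namespace Pool.Agent.Helper733.HS

theorem degree_rm {σ : Type} [DecidableEq σ] {a : σ →₀ ℕ} {i : σ} (h : a i ≠ 0) :
    (rm a i).degree + 1 = a.degree := Core.degree_rm h

theorem rm_add {σ : Type} [DecidableEq σ] {a : σ →₀ ℕ} {i : σ} (h : a i ≠ 0) :
    rm a i + Finsupp.single i 1 = a := Core.rm_add h

end Pool.Agent.Helper733.HS
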