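import Pool.Agent.Helper733.HS.SGDef

set_option autoImplicit false

open Finset

namespace Pool.Agent.Helper733.HS

namespace SG

variable {e : ℕ}

variable (g : Fin (e + 1) → ℕ)

theorem wt_add (a b : Fin (e + 1) →₀ ℕ) : wt g (a + b) = wt g a + wt g b := by
  unfold wt; rw [map_add]
theorem wt_single (i : Fin (e + 1)) : wt g (Finsupp.single i 1) = g i := by
  unfold wt; rw [Finsupp.weight_single]; simp
theorem wt_x0 : wt g (x0 : Fin (e + 1) →₀ ℕ) = g 0 := wt_single g 0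
theorem wt_smul_x0 (q : ℕ) : wt g (q • (x0 : Fin (e + 1) →₀ ℕ)) = q * g 0 := by
  have h := wt_x0 g
  unfold wt at h ⊢
  rw [map_nsmul, h, smul_eq_mul]
theorem wt_rm (a : Fin (e + 1) →₀ ℕ) (i : Fin (e + 1)) (h : a i ≠ 0) : wt g (rm a i) + g i = wt g a := by
  rw [← wt_single g i, ← wt_add, rm_add h]
theorem g0_le {g : Fin (e + 1) → ℕ} (H : Hyp g) (i : Fin (e + 1)) : g 0 ≤ g i :=
  H.mono.monotone (Fin.zero_le i)
theorem deg_le_wt {g : Fin (e + 1) → ℕ} (H : Hyp g) (a : Fin (e + 1) →₀ ℕ) : a.degree * g 0 ≤ wt g a := by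
  unfold wt
  rw [Finsupp.weight_eq_sum, Finsupp.degree_eq_sum, Finset.sum_mul]
  refine Finset.sum_le_sum fun i _ => ?_
  rw [smul_eq_mul]
  exact Nat.mul_le_mul_left _ (g0_le H i)
theorem deg_lt_wt {g : Fin (e + 1) → ℕ} (H : Hyp g) (a : Fin (e + 1) →₀ ℕ) (h0 : a 0 = 0) (ha : a ≠ 0) :
    a.degree * g 0 < wt g a := by
  unfold wt
  rw [Finsupp.weight_eq_sum, Finsupp.degree_eq_sum, Finset.sum_mul]
  obtain ⟨i, hi⟩ : ∃ i, a i ≠ 0 := by
    by_contra hcon
    push Not at hcon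
    exact ha (Finsupp.ext hcon)
  have hi0 : i ≠ 0 := fun h => hi (h ▸ h0)
  refine Finset.sum_lt_sum (fun i _ => ?_) ⟨i, Finset.mem_univ _, ?_⟩
  · rw [smul_eq_mul]
    exact Nat.mul_le_mul_left _ (g0_le H i)
  · rw [smul_eq_mul]
    exact Nat.mul_lt_mul_of_pos_left (H.mono (Fin.pos_iff_ne_zero.2 hi0)) (Nat.pos_of_ne_zero hi)
theorem wt_eq_zero {g : Fin (e + 1) → ℕ} (H : Hyp g) {a : Fin (e + 1) →₀ ℕ} (h : wt g a = 0) : a = 0 := by
  have h1 := deg_le_wt H a
  rw [h] at h1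
  have h2 : a.degree = 0 := by
    have := H.pos
    by_contra hcon
    have : 0 < a.degree * g 0 := Nat.mul_pos (Nat.pos_of_ne_zero hcon) this
    omega
  exact (Finsupp.degree_eq_zero_iff a).1 h2
theorem fib_finite {g : Fin (e + 1) → ℕ} (H : Hyp g) (n : ℕ) : {a : Fin (e + 1) →₀ ℕ | wt g a = n}.Finite :=
  Finsupp.finite_of_nat_weight_eq g (fun x => by
    have h1 := H.pos
    have h2 := g0_le H x
    omega) n
theorem exists_std {g : Fin (e + 1) → ℕ} (H : Hyp g) {n : ℕ} (hn : Gam g n) : ∃ a, wt g a = n ∧ St g a := by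
  obtain ⟨a, ha, hmax⟩ := Set.exists_max_image {a : Fin (e + 1) →₀ ℕ | wt g a = n}
    (fun a => toDegLex a) (fib_finite H n) hn
  refine ⟨a, ha, fun b hb => hmax b ?_⟩
  have : wt g a = n := ha
  exact hb.trans this
private theorem std_spec {g : Fin (e + 1) → ℕ} (H : Hyp g) {n : ℕ} (hn : Gam g n) :
    wt g (std g n) = n ∧ St g (std g n) := by
  have h := exists_std H hn
  unfold std
  rw [dif_pos h]
  exact h.choose_spec
theorem wt_std {g : Fin (e + 1) → ℕ} (H : Hyp g) {n : ℕ} (hn : Gam g n) : wt g (std g n) = n :=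
  (std_spec H hn).1
theorem St_std {g : Fin (e + 1) → ℕ} (H : Hyp g) {n : ℕ} (hn : Gam g n) : St g (std g n) :=
  (std_spec H hn).2
theorem St_unique {g : Fin (e + 1) → ℕ} {a b : Fin (e + 1) →₀ ℕ} (ha : St g a) (hb : St g b)
    (h : wt g a = wt g b) : a = b :=
  toDegLex_inj.1 (le_antisymm (hb a h) (ha b h.symm))
theorem Gam_wt (a : Fin (e + 1) →₀ ℕ) : Gam g (wt g a) := ⟨a, rfl⟩
theorem std_wt {g : Fin (e + 1) → ℕ} (H : Hyp g) {a : Fin (e + 1) →₀ ℕ} (ha : St g a) :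
    std g (wt g a) = a :=
  St_unique (St_std H (Gam_wt g a)) ha (wt_std H (Gam_wt g a))
theorem St_of_add {g : Fin (e + 1) → ℕ} {a b : Fin (e + 1) →₀ ℕ} (h : St g (a + b)) : St g a := by
  intro b' hb'
  have h1 := h (b' + b) (by rw [wt_add, wt_add, hb'])
  rw [toDegLex_add, toDegLex_add] at h1
  exact le_of_add_le_add_right h1
theorem St_rm {g : Fin (e + 1) → ℕ} {a : Fin (e + 1) →₀ ℕ} (h : St g a) (i : Fin (e + 1)) : St g (rm a i) := by
  by_cases hi : a i = 0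
  · have : rm a i = a := by
      ext j
      unfold rm
      rw [Finsupp.tsub_apply]
      by_cases hj : i = j
      · subst hj
        simp [hi]
      · simp [Finsupp.single_apply, hj]
    rwa [this]
  · rw [← rm_add hi] at h
    exact St_of_add h
theorem St_zero {g : Fin (e + 1) → ℕ} (H : Hyp g) : St g 0 := by
  intro b hb
  have h0 : wt g (0 : Fin (e + 1) →₀ ℕ) = 0 := by unfold wt; rw [map_zero]
  rw [h0] at hb
  rw [wt_eq_zero H hb]
theorem deg_le_tp {g : Fin (e + 1) → ℕ} (H : Hyp g) (a : Fin (e + 1) →₀ ℕ) : a.degree ≤ tp g (wt g a) :=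
  Finsupp.DegLex.monotone_degree (St_std H (Gam_wt g a) a (wt_std H (Gam_wt g a)).symm)
theorem deg_of_St {g : Fin (e + 1) → ℕ} (H : Hyp g) {a : Fin (e + 1) →₀ ℕ} (ha : St g a) :
    tp g (wt g a) = a.degree := by
  unfold tp
  rw [std_wt H ha]
theorem Gam_add {g : Fin (e + 1) → ℕ} {n k : ℕ} (hn : Gam g n) (hk : Gam g k) : Gam g (n + k) := by
  obtain ⟨a, rfl⟩ := hn
  obtain ⟨b, rfl⟩ := hk
  exact ⟨a + b, wt_add g a b⟩
theorem Gam_mul {g : Fin (e + 1) → ℕ} {n : ℕ} (hn : Gam g n) (q : ℕ) : Gam g (n + q * g 0) :=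
  Gam_add hn ⟨q • x0, wt_smul_x0 g q⟩
theorem tp_add {g : Fin (e + 1) → ℕ} (H : Hyp g) {n k : ℕ} (hn : Gam g n) (hk : Gam g k) :
    tp g n + tp g k ≤ tp g (n + k) := by
  have h := deg_le_tp H (std g n + std g k)
  rw [wt_add, wt_std H hn, wt_std H hk, map_add] at h
  exact h
theorem tp_gen {g : Fin (e + 1) → ℕ} (H : Hyp g) {n : ℕ} (hn : Gam g n) (i : Fin (e + 1)) :
    tp g n + 1 ≤ tp g (n + g i) := by
  have h := deg_le_tp H (std g n + Finsupp.single i 1)
  rw [wt_add, wt_std H hn, wt_single, map_add, Finsupp.degree_single] at h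
  exact h
theorem tp_mul {g : Fin (e + 1) → ℕ} (H : Hyp g) {n : ℕ} (hn : Gam g n) (q : ℕ) :
    tp g n + q ≤ tp g (n + q * g 0) := by
  have h := deg_le_tp H (std g n + q • x0)
  rw [wt_add, wt_std H hn, wt_smul_x0, map_add, map_nsmul] at h
  unfold x0 at h
  rw [Finsupp.degree_single, smul_eq_mul, mul_one] at h
  exact h
/-- a standard monomial without the letter `0` beats strictly in degree all monomials containing it -/
theorem deg_lt_of_St {g : Fin (e + 1) → ℕ} {a b : Fin (e + 1) →₀ ℕ} (ha : St g a) (h0 : a 0 = 0)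
    (h : wt g b = wt g a) (hb : b 0 ≠ 0) : b.degree < a.degree := by
  have h1 := ha b h
  rw [Finsupp.DegLex.le_iff] at h1
  rcases h1 with h1 | ⟨_, h1⟩
  · exact h1
  · exfalso
    have h2 : toLex a < toLex b := by
      refine ⟨0, fun j hj => absurd hj (Fin.not_lt_zero j), ?_⟩
      show a 0 < b 0
      omega
    exact absurd h1 (not_le.2 h2)

end SG

end Pool.Agent.Helper733.HS
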