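import Pool.Agent.Helper733.HS.SG1

set_option autoImplicit false

open Finset

namespace Pool.Agent.Helper733.HS

namespace SG

variable {e : ℕ}

variable (g : Fin (e + 1) → ℕ)

private theorem sg2_wt_sum (g : Fin (e + 1) → ℕ) (a : Fin (e + 1) →₀ ℕ) : wt g a = ∑ i, a i * g i := by
  unfold wt
  rw [Finsupp.weight_apply, Finsupp.sum_fintype _ _ (by simp)]
  simp

theorem single_unique {g : Fin (e + 1) → ℕ} (H : Hyp g) {b : Fin (e + 1) →₀ ℕ} {i : Fin (e + 1)}
    (h : wt g b = g i) : b = Finsupp.single i 1 := by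
  have hb : b i ≠ 0 := by
    intro hb
    apply H.min i
    rw [← h, sg2_wt_sum]
    apply AddSubmonoid.sum_mem
    intro j _
    by_cases hj : j = i
    · subst hj
      rw [hb, zero_mul]
      exact AddSubmonoid.zero_mem _
    · have h1 : g j ∈ AddSubmonoid.closure (g '' {j | j ≠ i}) :=
        AddSubmonoid.subset_closure ⟨j, hj, rfl⟩
      have h2 := AddSubmonoid.nsmul_mem _ h1 (b j)
      simpa using h2
  have h1 := wt_rm g b i hb
  have h2 : wt g (rm b i) = 0 := by omega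
  have h3 := wt_eq_zero H h2
  have h4 := rm_add hb
  rw [h3, zero_add] at h4
  exact h4.symm

private theorem sg2_bezout {g : Fin (e + 1) → ℕ} (H : Hyp g) : ∃ c : Fin (e + 1) → ℤ,
    ∑ i, c i * (g i : ℤ) = 1 := by
  have h1 : (1 : ℤ) ∈ Ideal.span (Set.range (fun i => (g i : ℤ))) := by
    obtain ⟨d, hd⟩ := (IsPrincipalIdealRing.principal
      (Ideal.span (Set.range (fun i => (g i : ℤ))))).principal
    have hdv : ∀ i, d ∣ (g i : ℤ) := by
      intro i
      have h2 : (g i : ℤ) ∈ Ideal.span (Set.range (fun i => (g i : ℤ))) :=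
        Ideal.subset_span ⟨i, rfl⟩
      rw [hd] at h2
      exact Ideal.mem_span_singleton.1 h2
    have h3 : d.natAbs ∣ Finset.univ.gcd g := by
      apply Finset.dvd_gcd
      intro i _
      have := Int.natAbs_dvd_natAbs.2 (hdv i)
      simpa using this
    rw [H.gcd] at h3
    have h4 : d.natAbs = 1 := Nat.dvd_one.1 h3
    have h5 : IsUnit d := Int.isUnit_iff_natAbs_eq.2 h4
    rw [hd]
    have h6 : Ideal.span {d} = ⊤ := Ideal.span_singleton_eq_top.2 h5
    have h7 : (Submodule.span ℤ {d} : Submodule ℤ ℤ) = Ideal.span {d} := rfl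
    rw [h7, h6]
    trivial
  obtain ⟨c, hc⟩ := (Ideal.mem_span_range_iff_exists_fun).1 h1
  exact ⟨c, hc⟩

theorem exists_class {g : Fin (e + 1) → ℕ} (H : Hyp g) (n : ℕ) : ∃ k, Gam g k ∧ k % g 0 = n % g 0 := by
  obtain ⟨c, hc⟩ := sg2_bezout H
  have hg0 : (0 : ℤ) < (g 0 : ℤ) := by exact_mod_cast H.pos
  let a : Fin (e + 1) →₀ ℕ := Finsupp.equivFunOnFinite.symm
    (fun i => (((n : ℤ) * c i) % (g 0 : ℤ)).toNat)
  have ha : ∀ i, ((a i : ℕ) : ℤ) = ((n : ℤ) * c i) % (g 0 : ℤ) := by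
    intro i
    show (((((n : ℤ) * c i) % (g 0 : ℤ)).toNat : ℕ) : ℤ) = _
    rw [Int.toNat_of_nonneg (Int.emod_nonneg _ hg0.ne')]
  refine ⟨wt g a, Gam_wt g a, ?_⟩
  have h1 : ((wt g a : ℕ) : ℤ) ≡ (n : ℤ) [ZMOD (g 0 : ℤ)] := by
    rw [sg2_wt_sum]
    push_cast
    have h2 : (n : ℤ) = ∑ i, ((n : ℤ) * c i) * (g i : ℤ) := by
      calc (n : ℤ) = n * ∑ i, c i * (g i : ℤ) := by rw [hc, mul_one]
        _ = _ := by rw [Finset.mul_sum]; apply Finset.sum_congr rfl; intro i _; ring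
    have h4 : ∀ s : Finset (Fin (e + 1)), ∑ i ∈ s, ((a i : ℕ) : ℤ) * (g i : ℤ) ≡
        ∑ i ∈ s, ((n : ℤ) * c i) * (g i : ℤ) [ZMOD (g 0 : ℤ)] := by
      intro s
      induction s using Finset.induction_on with
      | empty => simp
      | insert i s hi ih =>
        rw [Finset.sum_insert hi, Finset.sum_insert hi]
        apply Int.ModEq.add _ ih
        rw [ha i]
        exact (Int.mod_modEq _ _).mul_right _
    have h5 := h4 Finset.univ
    rw [← h2] at h5
    exact h5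
  have h3 : (wt g a) ≡ n [MOD (g 0)] := (Int.natCast_modEq_iff).1 h1
  exact h3

private theorem sg2_ap_spec {g : Fin (e + 1) → ℕ} (H : Hyp g) (n : ℕ) :
    Gam g (ap g n) ∧ ap g n % g 0 = n % g 0 := by
  have : ap g n ∈ {k | Gam g k ∧ k % g 0 = n % g 0} := Nat.sInf_mem (exists_class H n)
  exact this

theorem Gam_ap {g : Fin (e + 1) → ℕ} (H : Hyp g) (n : ℕ) : Gam g (ap g n) := (sg2_ap_spec H n).1
theorem ap_mod {g : Fin (e + 1) → ℕ} (H : Hyp g) (n : ℕ) : ap g n % g 0 = n % g 0 :=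
  (sg2_ap_spec H n).2
theorem ap_le {g : Fin (e + 1) → ℕ} (H : Hyp g) {n k : ℕ} (hk : Gam g k) (h : k % g 0 = n % g 0) :
    ap g n ≤ k := Nat.sInf_le ⟨hk, h⟩
theorem ap_congr {g : Fin (e + 1) → ℕ} {n k : ℕ} (h : n % g 0 = k % g 0) : ap g n = ap g k := by
  unfold ap
  rw [h]
private theorem sg2_Gam_zero (g : Fin (e + 1) → ℕ) : Gam g 0 := by
  have := Gam_wt g 0
  have h : wt g (0 : Fin (e + 1) →₀ ℕ) = 0 := by rw [sg2_wt_sum]; simp
  rwa [h] at this
theorem ap_zero {g : Fin (e + 1) → ℕ} (H : Hyp g) {n : ℕ} (h : n % g 0 = 0) : ap g n = 0 := by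
  have := ap_le H (n := n) (sg2_Gam_zero g) (by rw [h]; simp)
  omega
theorem ps_spec {g : Fin (e + 1) → ℕ} (H : Hyp g) {n : ℕ} (hn : Gam g n) : n = ap g n + ps g n * g 0 := by
  have h1 : ap g n ≤ n := ap_le H hn rfl
  have h2 : g 0 ∣ n - ap g n := (Nat.modEq_iff_dvd' h1).1 (ap_mod H n)
  unfold ps
  rw [Nat.div_mul_cancel h2]
  omega
theorem ps_eq {g : Fin (e + 1) → ℕ} (H : Hyp g) {n k q : ℕ} (hn : Gam g n) (h : k = n + q * g 0) :
    ps g k = ps g n + q := by
  have h1 : ap g k = ap g n := by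
    apply ap_congr
    rw [h, Nat.add_mul_mod_self_right]
  have h2 := ps_spec H hn
  have h3 : k - ap g k = (ps g n + q) * g 0 := by
    rw [h1, h, add_mul]
    omega
  show (k - ap g k) / g 0 = ps g n + q
  rw [h3, Nat.mul_div_cancel _ H.pos]
/-- going down inside a class stays in the semigroup above the least element -/
theorem Gam_of_ps {g : Fin (e + 1) → ℕ} (H : Hyp g) {n k q : ℕ} (hn : Gam g n) (hq : q ≤ ps g n)
    (h : n = k + q * g 0) : Gam g k ∧ ps g k + q = ps g n := by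
  have h1 := ps_spec H hn
  have h2 : (ps g n - q) * g 0 + q * g 0 = ps g n * g 0 := by
    rw [← add_mul]
    congr 1
    omega
  have h3 : k = ap g n + (ps g n - q) * g 0 := by omega
  have h4 : Gam g k := by
    rw [h3]
    exact Gam_mul (Gam_ap H n) _
  exact ⟨h4, (ps_eq H h4 h).symm⟩
theorem ps_le_tp {g : Fin (e + 1) → ℕ} (H : Hyp g) {n : ℕ} (hn : Gam g n) : ps g n ≤ tp g n := by
  have h1 := tp_mul H (Gam_ap H n) (ps g n)
  rw [← ps_spec H hn] at h1
  omega
theorem ps_pos_iff {g : Fin (e + 1) → ℕ} (H : Hyp g) {n : ℕ} (hn : Gam g n) :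
    0 < ps g n ↔ (g 0 ≤ n ∧ Gam g (n - g 0)) := by
  constructor
  · intro h
    have h1 := ps_spec H hn
    have h2 : g 0 ≤ ps g n * g 0 := Nat.le_mul_of_pos_left _ h
    have h3 : g 0 ≤ n := by omega
    refine ⟨h3, (Gam_of_ps H hn (q := 1) h (by omega)).1⟩
  · rintro ⟨h1, h2⟩
    have h3 := ps_eq H (k := n) (q := 1) h2 (by omega)
    omega
theorem ps_add_gen {g : Fin (e + 1) → ℕ} (H : Hyp g) {n : ℕ} (hn : Gam g n) (i : Fin (e + 1)) :
    ps g n ≤ ps g (n + g i) := by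
  have h0 : Gam g (g i) := by
    have := Gam_wt g (Finsupp.single i 1)
    rwa [wt_single] at this
  have h1 : Gam g (ap g n + g i) := Gam_add (Gam_ap H n) h0
  have h2 : (ap g n + g i) % g 0 = (n + g i) % g 0 := by
    rw [Nat.add_mod, ap_mod H, ← Nat.add_mod]
  have h3 := ap_le H h1 h2
  have h4 : ap g n ≤ n := ap_le H hn rfl
  unfold ps
  apply Nat.div_le_div_right
  omega
/-- `x0`-free part of a standard monomial: `std n = b + k • x0` with `b` standard and `b 0 = 0` -/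
theorem std_split {g : Fin (e + 1) → ℕ} (H : Hyp g) {n : ℕ} (hn : Gam g n) :
    ∃ b ∈ OS g, ∃ k, std g n = b + k • (x0 : Fin (e + 1) →₀ ℕ) ∧ k ≤ ps g n ∧ wt g b + k * g 0 = n ∧
      b.degree + k = tp g n ∧ pos g b + k = ps g n := by
  have hx : ∀ k : ℕ, k • (x0 : Fin (e + 1) →₀ ℕ) = Finsupp.single 0 k := by
    intro k
    unfold x0
    rw [Finsupp.smul_single]; simp
  have hs : std g n = Finsupp.erase 0 (std g n) + (std g n 0) • (x0 : Fin (e + 1) →₀ ℕ) := by
    rw [hx]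
    exact (Finsupp.erase_add_single 0 (std g n)).symm
  have hst := St_std H hn
  have hw := wt_std H hn
  have h1 : wt g (Finsupp.erase 0 (std g n)) + (std g n 0) * g 0 = n := by
    have := hw
    rw [hs, wt_add, wt_smul_x0] at this
    exact this
  have hp : ps g n = ps g (wt g (Finsupp.erase 0 (std g n))) + std g n 0 :=
    ps_eq H (Gam_wt g _) h1.symm
  refine ⟨Finsupp.erase 0 (std g n), ⟨?_, ?_⟩, std g n 0, hs, ?_, h1, ?_, ?_⟩
  · rw [hs] at hst
    exact St_of_add hst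
  · simp
  · rw [hp]; exact Nat.le_add_left _ _
  · unfold tp
    conv_rhs => rw [hs]
    rw [map_add, hx, Finsupp.degree_single]
  · unfold pos
    exact hp.symm

end SG

end Pool.Agent.Helper733.HS
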