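import Pool.Agent.Helper733.HS.SG2

set_option autoImplicit false

open Finset

namespace Pool.Agent.Helper733.HS

namespace SG

variable {e : ℕ}

variable (g : Fin (e + 1) → ℕ)

theorem OS_rm {g : Fin (e + 1) → ℕ} {a : Fin (e + 1) →₀ ℕ} (h : a ∈ OS g) (i : Fin (e + 1)) : rm a i ∈ OS g := by
  refine ⟨St_rm h.1 i, ?_⟩
  have h0 : a 0 = 0 := h.2
  simp [rm, Finsupp.tsub_apply, h0]

theorem OS_zero {g : Fin (e + 1) → ℕ} (H : Hyp g) : (0 : Fin (e + 1) →₀ ℕ) ∈ OS g :=
  ⟨St_zero H, rfl⟩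

theorem OS_single {g : Fin (e + 1) → ℕ} (H : Hyp g) {i : Fin (e + 1)} (hi : i ≠ 0) :
    Finsupp.single i 1 ∈ OS g := by
  refine ⟨?_, ?_⟩
  · intro b hb
    rw [wt_single] at hb
    rw [single_unique H hb]
  · exact Finsupp.single_eq_of_ne hi.symm

theorem OS_cls {g : Fin (e + 1) → ℕ} (H : Hyp g) {a : Fin (e + 1) →₀ ℕ} (h : a ∈ OS g) (ha : a ≠ 0) :
    cls g a ≠ 0 := by
  intro hc
  obtain ⟨q, hq⟩ := Nat.dvd_of_mod_eq_zero hc
  have h1 := deg_lt_wt H a h.2 ha
  have h2 : wt g (q • (x0 : Fin (e + 1) →₀ ℕ)) = wt g a := by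
    rw [wt_smul_x0, hq, mul_comm]
  have h3 := deg_le_tp H (q • (x0 : Fin (e + 1) →₀ ℕ))
  rw [h2, deg_of_St H h.1] at h3
  have h4 : (q • (x0 : Fin (e + 1) →₀ ℕ)).degree = q := by
    rw [map_nsmul]
    simp [x0, Finsupp.degree_single]
  rw [h4] at h3
  rw [hq, mul_comm (g 0) q] at h1
  have := Nat.mul_le_mul_right (g 0) h3
  omega

private theorem chain_aux {g : Fin (e + 1) → ℕ} (H : Hyp g) (d : ℕ) : ∀ a : Fin (e + 1) →₀ ℕ, a ∈ OS g →
    a.degree = d → ∃ c : ℕ → (Fin (e + 1) →₀ ℕ), (∀ t, t ≤ d → c t ≤ a ∧ c t ∈ OS g ∧ (c t).degree = t) ∧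
      ∀ s t, s ≤ t → t ≤ d → c s ≤ c t := by
  classical
  induction d with
  | zero =>
    intro a ha hd
    refine ⟨fun _ => a, ?_, ?_⟩
    · intro t ht
      exact ⟨le_rfl, ha, by rw [hd]; omega⟩
    · intro s t _ _
      exact le_rfl
  | succ d ih =>
    intro a ha hd
    have hne : ∃ i, a i ≠ 0 := by
      by_contra hcon
      push Not at hcon
      have : a = 0 := Finsupp.ext hcon
      rw [this] at hd
      simp at hd
    obtain ⟨i, hi⟩ := hne
    have hdeg := degree_rm hi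
    obtain ⟨c, hc1, hc2⟩ := ih (rm a i) (OS_rm ha i) (by omega)
    have hle : rm a i ≤ a := by
      have := rm_add hi
      calc rm a i ≤ rm a i + Finsupp.single i 1 := le_self_add
        _ = a := this
    refine ⟨fun t => if t ≤ d then c t else a, ?_, ?_⟩
    · intro t ht
      by_cases h : t ≤ d
      · simp only [h, if_true]
        obtain ⟨h1, h2, h3⟩ := hc1 t h
        exact ⟨h1.trans hle, h2, h3⟩
      · simp only [h, if_false]
        exact ⟨le_rfl, ha, by omega⟩
    · intro s t hst ht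
      by_cases h : t ≤ d
      · have hs : s ≤ d := by omega
        simp only [h, hs, if_true]
        exact hc2 s t hst h
      · simp only [h, if_false]
        by_cases hs : s ≤ d
        · simp only [hs, if_true]
          exact (hc1 s hs).1.trans hle
        · simp only [hs, if_false]
          exact le_rfl

/-- along a chain of divisors the classes are distinct -/
theorem OS_degree {g : Fin (e + 1) → ℕ} (H : Hyp g) {a : Fin (e + 1) →₀ ℕ} (h : a ∈ OS g) :
    a.degree < g 0 := by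
  obtain ⟨c, hc1, hc2⟩ := chain_aux H a.degree a h rfl
  have key : ∀ s t, s < t → t ≤ a.degree → cls g (c s) ≠ cls g (c t) := by
    intro s t hst ht heq
    have hle := hc2 s t hst.le ht
    obtain ⟨b, hb⟩ : ∃ b, c t = b + c s := ⟨c t - c s, (tsub_add_cancel_of_le hle).symm⟩
    obtain ⟨-, h2, h3⟩ := hc1 t ht
    obtain ⟨-, h2', h3'⟩ := hc1 s (by omega)
    have hbO : b ∈ OS g := by
      refine ⟨St_of_add (b := c s) ?_, ?_⟩
      · rw [← hb]; exact h2.1
      · have : (c t) 0 = 0 := h2.2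
        rw [hb] at this
        simp only [Finsupp.add_apply] at this
        omega
    have hb0 : b ≠ 0 := by
      rintro rfl
      rw [zero_add] at hb
      rw [hb] at h3
      omega
    apply OS_cls H hbO hb0
    unfold cls at heq ⊢
    rw [hb, wt_add] at heq
    have h5 : (wt g b + wt g (c s)) % g 0 = (0 + wt g (c s)) % g 0 := by rw [zero_add]; exact heq.symm
    have h6 : wt g b ≡ 0 [MOD g 0] := Nat.ModEq.add_right_cancel' (wt g (c s)) h5
    simpa [Nat.ModEq] using h6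
  have hinj : Function.Injective (fun t : Fin (a.degree + 1) => (⟨cls g (c t.1), Nat.mod_lt _ H.pos⟩ : Fin (g 0))) := by
    intro s t hst
    simp only [Fin.mk.injEq] at hst
    by_contra hne
    have hne' : s.1 ≠ t.1 := fun h => hne (Fin.ext h)
    rcases lt_or_gt_of_ne hne' with hlt | hlt
    · exact key s.1 t.1 hlt (by omega) hst
    · exact key t.1 s.1 hlt (by omega) hst.symm
  have := Fintype.card_le_of_injective _ hinj
  simp at this
  omega

theorem OS_finite {g : Fin (e + 1) → ℕ} (H : Hyp g) : (OS g).Finite := by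
  refine Set.Finite.subset (Finsupp.finite_of_degree_le (σ := Fin (e + 1)) (g 0)) ?_
  intro a ha
  exact (OS_degree H ha).le

theorem OS_deg {g : Fin (e + 1) → ℕ} (H : Hyp g) {a : Fin (e + 1) →₀ ℕ} (h : a ∈ OS g) :
    a.degree = off g a + pos g a := by
  have h1 := ps_le_tp H (Gam_wt g a)
  rw [deg_of_St H h.1] at h1
  unfold off pos
  omega

private theorem OS_wt {g : Fin (e + 1) → ℕ} (H : Hyp g) {a b : Fin (e + 1) →₀ ℕ} 
    (hc : cls g a = cls g b) : ∃ k, wt g a = k + pos g a * g 0 ∧ wt g b = k + pos g b * g 0 := by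
  refine ⟨ap g (wt g a), ps_spec H (Gam_wt g a), ?_⟩
  rw [ap_congr hc]
  exact ps_spec H (Gam_wt g b)

theorem OS_inj {g : Fin (e + 1) → ℕ} (H : Hyp g) {a b : Fin (e + 1) →₀ ℕ} (ha : a ∈ OS g) (hb : b ∈ OS g)
    (hc : cls g a = cls g b) (hp : pos g a = pos g b) : a = b := by
  obtain ⟨k, h1, h2⟩ := OS_wt H hc
  apply St_unique ha.1 hb.1
  rw [h1, h2, hp]

/-- degree gap -/
theorem OS_gap {g : Fin (e + 1) → ℕ} (H : Hyp g) {a b : Fin (e + 1) →₀ ℕ} (ha : a ∈ OS g) (hb : b ∈ OS g)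
    (hc : cls g a = cls g b) (hp : pos g a < pos g b) :
    wt g b = wt g a + (pos g b - pos g a) * g 0 ∧ a.degree + (pos g b - pos g a) < b.degree := by
  obtain ⟨k, h1, h2⟩ := OS_wt H hc
  have h3 : wt g b = wt g a + (pos g b - pos g a) * g 0 := by
    rw [h1, h2, add_assoc, ← add_mul, Nat.add_sub_cancel' hp.le]
  refine ⟨h3, ?_⟩
  have h4 : wt g (a + (pos g b - pos g a) • (x0 : Fin (e + 1) →₀ ℕ)) = wt g b := by
    rw [wt_add, wt_smul_x0, h3]
  have h5 : (a + (pos g b - pos g a) • (x0 : Fin (e + 1) →₀ ℕ)) 0 ≠ 0 := by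
    simp [x0]
    omega
  have h6 := deg_lt_of_St hb.1 hb.2 h4 h5
  have h7 : (a + (pos g b - pos g a) • (x0 : Fin (e + 1) →₀ ℕ)).degree = a.degree + (pos g b - pos g a) := by
    rw [map_add, map_nsmul]
    simp [x0, Finsupp.degree_single]
  rw [h7] at h6
  exact h6

theorem OS_mono {g : Fin (e + 1) → ℕ} (H : Hyp g) {a b : Fin (e + 1) →₀ ℕ} (ha : a ∈ OS g) (hb : b ∈ OS g)
    (hc : cls g a = cls g b) (hp : pos g a < pos g b) : off g a < off g b := by
  have h1 := (OS_gap H ha hb hc hp).2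
  have h2 := OS_deg H ha
  have h3 := OS_deg H hb
  omega

end SG

end Pool.Agent.Helper733.HS
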