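import Pool.Agent.Helper733.HS.SG3

set_option autoImplicit false

open Finset

namespace Pool.Agent.Helper733.HS

namespace SG

variable {e : ℕ}

variable (g : Fin (e + 1) → ℕ)

theorem pos_single {g : Fin (e + 1) → ℕ} (H : Hyp g) {i : Fin (e + 1)} (hi : i ≠ 0) :
    pos g (Finsupp.single i 1) = 0 := by
  unfold pos
  rw [wt_single]
  have hG : Gam g (g i) := ⟨_, wt_single g i⟩
  by_contra h
  obtain ⟨h1, b, hb⟩ := (ps_pos_iff H hG).1 (Nat.pos_of_ne_zero h)
  have h2 : wt g (b + x0) = g i := by rw [wt_add, wt_x0, hb]; omega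
  have h3 := single_unique H h2
  have h4 := DFunLike.congr_fun h3 (0 : Fin (e + 1))
  unfold x0 at h4
  rw [Finsupp.add_apply, Finsupp.single_eq_same, Finsupp.single_eq_of_ne (Ne.symm hi)] at h4
  omega
theorem pos_le {g : Fin (e + 1) → ℕ} (H : Hyp g) {a : Fin (e + 1) →₀ ℕ} {i : Fin (e + 1)} (hi : a i ≠ 0) :
    pos g (rm a i) ≤ pos g a := by
  unfold pos
  rw [← wt_rm g a i hi]
  exact ps_add_gen H (Gam_wt g _) i
theorem pos_lt {g : Fin (e + 1) → ℕ} (H : Hyp g) {a : Fin (e + 1) →₀ ℕ} (ha : a ∈ OS g) {i : Fin (e + 1)}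
    (hi : a i ≠ 0) (h0 : rm a i ≠ 0) (hj : ∃ j : Fin (e + 1), j ≠ 0 ∧ cls g a = cls g (Finsupp.single j 1)) :
    pos g (rm a i) < pos g a := by
  obtain ⟨j, hj0, hj1⟩ := hj
  refine lt_of_le_of_ne (pos_le H hi) ?_
  intro hp
  have h1 := ps_spec H (Gam_wt g a)
  have h2 := ps_spec H (Gam_wt g (rm a i))
  have h3 := wt_rm g a i hi
  have h4 : ap g (wt g a) = ap g (wt g (Finsupp.single j 1)) := ap_congr hj1
  have h5 := ps_spec H (Gam_wt g (Finsupp.single j 1))
  have h6 := pos_single H hj0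
  unfold pos at h6 hp
  rw [h6, zero_mul, add_zero, wt_single] at h5
  rw [wt_single] at h4
  rw [← h5] at h4
  rw [h4] at h1
  rw [hp] at h2
  have h7 : ap g (wt g (rm a i)) + g i = g j := by omega
  obtain ⟨b', hb'⟩ := Gam_ap H (wt g (rm a i))
  have h8 : wt g (b' + Finsupp.single i 1) = g j := by rw [wt_add, wt_single, hb', h7]
  have h9 := single_unique H h8
  have hij : i = j := by
    by_contra hne
    have h10 := DFunLike.congr_fun h9 i
    rw [Finsupp.add_apply, Finsupp.single_eq_same, Finsupp.single_eq_of_ne hne] at h10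
    omega
  subst hij
  have hb0 : b' = 0 := by
    have := h9
    rwa [add_eq_right] at this
  subst hb0
  have h11 : ap g (wt g (rm a i)) = 0 := by
    rw [← hb']
    unfold wt
    simp
  have h12 : cls g (rm a i) = 0 := by
    unfold cls
    rw [← ap_mod H, h11]
    simp
  exact OS_cls H (OS_rm ha i) h0 h12
theorem left {g : Fin (e + 1) → ℕ} (H : Hyp g) {x : ℕ} (hx : x < g 0) :
    ∃ a ∈ OS g, cls g a = x ∧ pos g a = 0 := by
  have hG := Gam_ap H x
  have hw := wt_std H hG
  have hS := St_std H hG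
  refine ⟨std g (ap g x), ⟨hS, ?_⟩, ?_, ?_⟩
  · by_contra h0
    have h1 := wt_rm g _ _ h0
    rw [hw] at h1
    have h2 : wt g (rm (std g (ap g x)) 0) % g 0 = x % g 0 := by
      have h4 := ap_mod H x
      have h5 : ap g x % g 0 = wt g (rm (std g (ap g x)) 0) % g 0 := by
        conv_lhs => rw [← h1]
        simp
      rw [← h5, h4]
    have h3 := ap_le H (Gam_wt g (rm (std g (ap g x)) 0)) h2
    have := H.pos
    omega
  · unfold cls
    rw [hw, ap_mod H, Nat.mod_eq_of_lt hx]
  · unfold pos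
    rw [hw]
    have h1 := ps_spec H hG
    have h2 : ap g (ap g x) = ap g x := ap_congr (ap_mod H x)
    rw [h2] at h1
    have h3 : ps g (ap g x) * g 0 = 0 := by omega
    rcases Nat.mul_eq_zero.1 h3 with h | h
    · exact h
    · have := H.pos
      omega

end SG

end Pool.Agent.Helper733.HS
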