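import Pool.Agent.Helper733.HS.SG4

set_option autoImplicit false

open Finset

namespace Pool.Agent.Helper733.HS

namespace SG

variable {e : ℕ}

variable (g : Fin (e + 1) → ℕ)

private theorem tp_inc_14295 {g : Fin (e + 1) → ℕ} (H : Hyp g) {a : Fin (e + 1) →₀ ℕ} (ha : a ∈ OS g)
    (hp : 0 < pos g a) : tp g (wt g a - g 0) + 1 + inc g a = a.degree := by
  obtain ⟨h1, h2⟩ := (ps_pos_iff H (Gam_wt g a)).1 hp
  have h3 := wt_std H h2
  have h4 : wt g (std g (wt g a - g 0) + x0) = wt g a := by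
    rw [wt_add, wt_x0, h3]
    omega
  have h5 : (std g (wt g a - g 0) + x0 : Fin (e + 1) →₀ ℕ) 0 ≠ 0 := by
    rw [Finsupp.add_apply]
    unfold x0
    rw [Finsupp.single_eq_same]
    omega
  have h6 := deg_lt_of_St ha.1 ha.2 h4 h5
  have h7 : (std g (wt g a - g 0) + x0).degree = tp g (wt g a - g 0) + 1 := by
    unfold tp x0
    rw [map_add, Finsupp.degree_single]
  rw [h7] at h6
  unfold inc
  omega

theorem lift {g : Fin (e + 1) → ℕ} (H : Hyp g) {a : Fin (e + 1) →₀ ℕ} (ha : a ∈ OS g) {i : Fin (e + 1)}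
    (hi : a i ≠ 0) {b : Fin (e + 1) →₀ ℕ} (hb : b ∈ OS g) (hc : cls g b = cls g (rm a i))
    (hp : pos g (rm a i) < pos g b) : ∃ b' ∈ OS g, cls g b' = cls g a ∧ off g a < off g b' := by
  obtain ⟨h1, h2⟩ := OS_gap H (OS_rm ha i) hb hc.symm hp
  have h3 := wt_rm g a i hi
  obtain ⟨q, hq⟩ : ∃ q, q = pos g b - pos g (rm a i) := ⟨_, rfl⟩
  rw [← hq] at h1 h2
  have hy : wt g b + g i = wt g a + q * g 0 := by rw [h1, ← h3]; ring
  have hGy : Gam g (wt g b + g i) := by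
    rw [hy]
    exact Gam_mul (Gam_wt g a) q
  have h4 : ps g (wt g b + g i) = pos g a + q := ps_eq H (Gam_wt g a) hy
  have h5 := tp_gen H (Gam_wt g b) i
  rw [deg_of_St H hb.1] at h5
  have h6 := degree_rm hi
  obtain ⟨b', hb', k, -, hk1, hk2, hk3, hk4⟩ := std_split H hGy
  refine ⟨b', hb', ?_, ?_⟩
  · unfold cls
    have h7 : wt g b' + k * g 0 = wt g a + q * g 0 := hk2.trans hy
    have h8 := congrArg (· % g 0) h7
    simpa using h8
  · have h9 := OS_deg H hb'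
    have h10 := OS_deg H ha
    omega

theorem inc_prev {g : Fin (e + 1) → ℕ} (H : Hyp g) {a : Fin (e + 1) →₀ ℕ} (ha : a ∈ OS g) (hp : 0 < pos g a) :
    ∃ b ∈ OS g, cls g b = cls g a ∧ pos g b < pos g a ∧ off g b + inc g a = off g a ∧
    ∀ b' ∈ OS g, cls g b' = cls g a → pos g b' < pos g a → pos g b' ≤ pos g b := by
  obtain ⟨h1, h2⟩ := (ps_pos_iff H (Gam_wt g a)).1 hp
  have hinc := tp_inc_14295 H ha hp
  obtain ⟨y, hy⟩ : ∃ y, y = wt g a - g 0 := ⟨_, rfl⟩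
  rw [← hy] at h2 hinc
  have hya : wt g a = y + 1 * g 0 := by omega
  have hps : pos g a = ps g y + 1 := ps_eq H h2 hya
  obtain ⟨b, hb, k, -, hk1, hk2, hk3, hk4⟩ := std_split H h2
  have hcb : cls g b = cls g a := by
    unfold cls
    rw [hya, ← hk2]
    simp
  have hdb := OS_deg H hb
  have hda := OS_deg H ha
  refine ⟨b, hb, hcb, by omega, by omega, ?_⟩
  intro b' hb' hcb' hpb'
  by_contra hlt
  rw [not_le] at hlt
  have h3 := OS_mono H hb hb' (hcb.trans hcb'.symm) hlt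
  obtain ⟨h4, -⟩ := OS_gap H hb' ha hcb' hpb'
  obtain ⟨q, hq⟩ : ∃ q, pos g a - pos g b' = q + 1 := ⟨pos g a - pos g b' - 1, by omega⟩
  rw [hq] at h4
  have h5 : y = wt g b' + q * g 0 := by
    have : y + 1 * g 0 = wt g b' + q * g 0 + 1 * g 0 := by
      rw [← hya, h4]; ring
    omega
  have h6 := tp_mul H (Gam_wt g b') q
  rw [← h5, deg_of_St H hb'.1] at h6
  have hdb' := OS_deg H hb'
  omega

theorem inc_mono {g : Fin (e + 1) → ℕ} (H : Hyp g) {a : Fin (e + 1) →₀ ℕ} (ha : a ∈ OS g) {i : Fin (e + 1)}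
    (hi : a i ≠ 0) (hp : 0 < pos g (rm a i)) : inc g a ≤ inc g (rm a i) := by
  obtain ⟨h1, h2⟩ := (ps_pos_iff H (Gam_wt g (rm a i))).1 hp
  have h3 := wt_rm g a i hi
  have h4 := tp_gen H h2 i
  have h5 : wt g (rm a i) - g 0 + g i = wt g a - g 0 := by omega
  rw [h5] at h4
  have h6 := tp_inc_14295 H ha (lt_of_lt_of_le hp (pos_le H hi))
  have h7 := tp_inc_14295 H (OS_rm ha i) hp
  have h8 := degree_rm hi
  omega

/-- exact form of the increment -/
theorem tp_inc {g : Fin (e + 1) → ℕ} (H : Hyp g) {a : Fin (e + 1) →₀ ℕ} (ha : a ∈ OS g) (hp : 0 < pos g a) :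
    tp g (wt g a - g 0) + 1 + inc g a = a.degree := tp_inc_14295 H ha hp

end SG

end Pool.Agent.Helper733.HS
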