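import Pool.Agent.Helper733.HS.SG5

set_option autoImplicit false

open Finset

namespace Pool.Agent.Helper733.HS

namespace SG

variable {e : ℕ}

variable (g : Fin (e + 1) → ℕ)

/-- the abstract structure of the corners of a numerical semigroup -/
noncomputable def core {g : Fin (e + 1) → ℕ} (H : Hyp g) : Core (Fin (e + 1)) where
  T := univ.erase 0
  O := (OS_finite H).toFinset
  X := Finset.Ico 1 (g 0)
  cls := cls g
  pos := pos g
  c := off g
  inc := inc g
  hT := by
    have := H.he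
    refine ⟨⟨1, by omega⟩, ?_⟩
    rw [Finset.mem_erase]
    refine ⟨?_, Finset.mem_univ _⟩
    intro h
    have h2 := congrArg Fin.val h
    simp at h2
  zero_mem := (Set.Finite.mem_toFinset _).2 (OS_zero H)
  single_mem := fun i hi => (Set.Finite.mem_toFinset _).2 (OS_single H (Finset.mem_erase.1 hi).1)
  supp := fun a ha i hi => by
    rw [Finset.mem_erase]
    refine ⟨?_, Finset.mem_univ _⟩
    rintro rfl
    exact hi ((Set.Finite.mem_toFinset _).1 ha).2
  down := fun a ha i _ =>
    (Set.Finite.mem_toFinset _).2 (OS_rm ((Set.Finite.mem_toFinset _).1 ha) i)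
  deg := fun a ha => OS_deg H ((Set.Finite.mem_toFinset _).1 ha)
  cls_mem := fun a ha h0 => by
    rw [Finset.mem_Ico]
    exact ⟨Nat.one_le_iff_ne_zero.2 (OS_cls H ((Set.Finite.mem_toFinset _).1 ha) h0),
      Nat.mod_lt _ H.pos⟩
  cls_zero := by
    have h : cls g 0 = 0 := by
      unfold cls wt
      rw [map_zero, Nat.zero_mod]
    rw [h, Finset.mem_Ico]
    omega
  inj := fun a ha b hb hc hp => OS_inj H ((Set.Finite.mem_toFinset _).1 ha)
    ((Set.Finite.mem_toFinset _).1 hb) hc hp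
  mono := fun a ha b hb hc hp => OS_mono H ((Set.Finite.mem_toFinset _).1 ha)
    ((Set.Finite.mem_toFinset _).1 hb) hc hp
  pos_single := fun i hi => SG.pos_single H (Finset.mem_erase.1 hi).1
  pos_le := fun a _ i hi _ => SG.pos_le H hi
  pos_lt := fun a ha i hi h0 hj => by
    obtain ⟨j, hj1, hj2⟩ := hj
    exact SG.pos_lt H ((Set.Finite.mem_toFinset _).1 ha) hi h0 ⟨j, (Finset.mem_erase.1 hj1).1, hj2⟩
  lift := fun a ha i hi b hb hc hp => by
    obtain ⟨b', h1, h2, h3⟩ := SG.lift H ((Set.Finite.mem_toFinset _).1 ha) hi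
      ((Set.Finite.mem_toFinset _).1 hb) hc hp
    exact ⟨b', (Set.Finite.mem_toFinset _).2 h1, h2, h3⟩
  left := fun x hx => by
    obtain ⟨a, h1, h2, h3⟩ := SG.left H (Finset.mem_Ico.1 hx).2
    exact ⟨a, (Set.Finite.mem_toFinset _).2 h1, h2, h3⟩
  inc_prev := fun a ha hp => by
    obtain ⟨b, h1, h2, h3, h4, h5⟩ := SG.inc_prev H ((Set.Finite.mem_toFinset _).1 ha) hp
    exact ⟨b, (Set.Finite.mem_toFinset _).2 h1, h2, h3, h4, fun b' hb' =>
      h5 b' ((Set.Finite.mem_toFinset _).1 hb')⟩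
  inc_mono := fun a ha i hi hp => SG.inc_mono H ((Set.Finite.mem_toFinset _).1 ha) hi hp

theorem core_m {g : Fin (e + 1) → ℕ} (H : Hyp g) : (core H).m = g 0 := by
  have h := H.pos
  change (Finset.Ico 1 (g 0)).card + 1 = g 0
  rw [Nat.card_Ico]
  omega

end SG

end Pool.Agent.Helper733.HS
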