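import Pool.Agent.Helper733.HS.Rm

set_option autoImplicit false

open Finset

namespace Pool.Agent.Helper733.HS

namespace SG

variable {e : ℕ}

/-- hypotheses on the minimal generators -/
structure Hyp (g : Fin (e + 1) → ℕ) : Prop where
  he : 1 ≤ e
  mono : StrictMono g
  pos : 0 < g 0
  gcd : Finset.univ.gcd g = 1
  min : ∀ i, g i ∉ AddSubmonoid.closure (g '' {j | j ≠ i})

variable (g : Fin (e + 1) → ℕ)

/-- weight of an exponent vector -/
noncomputable def wt (a : Fin (e + 1) →₀ ℕ) : ℕ := Finsupp.weight g a

/-- the letter of the multiplicity -/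
noncomputable def x0 : Fin (e + 1) →₀ ℕ := Finsupp.single 0 1

/-- membership in the semigroup -/
def Gam (n : ℕ) : Prop := ∃ a, wt g a = n

/-- standard monomials: degree-lexicographically largest among the monomials of the same weight -/
def St (a : Fin (e + 1) →₀ ℕ) : Prop := ∀ b, wt g b = wt g a → toDegLex b ≤ toDegLex a

open Classical in
/-- the standard monomial of weight `n` -/
noncomputable def std (n : ℕ) : Fin (e + 1) →₀ ℕ := if h : ∃ a, wt g a = n ∧ St g a then h.choose else 0

/-- the largest degree of a monomial of weight `n` -/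
noncomputable def tp (n : ℕ) : ℕ := (std g n).degree

/-- the least element of the semigroup congruent to `n` modulo the multiplicity -/
noncomputable def ap (n : ℕ) : ℕ := sInf {k | Gam g k ∧ k % g 0 = n % g 0}

/-- position of `n` in its class -/
noncomputable def ps (n : ℕ) : ℕ := (n - ap g n) / g 0

/-- class of a monomial -/
noncomputable def cls (a : Fin (e + 1) →₀ ℕ) : ℕ := wt g a % g 0

/-- position of a monomial -/
noncomputable def pos (a : Fin (e + 1) →₀ ℕ) : ℕ := ps g (wt g a)

/-- offset of a monomial -/
noncomputable def off (a : Fin (e + 1) →₀ ℕ) : ℕ := a.degree - pos g a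

/-- increment -/
noncomputable def inc (a : Fin (e + 1) →₀ ℕ) : ℕ := a.degree - 1 - tp g (wt g a - g 0)

/-- the nodes as a set -/
def OS : Set (Fin (e + 1) →₀ ℕ) := {a | St g a ∧ a 0 = 0}

end SG

end Pool.Agent.Helper733.HS
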